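import Mathlib

namespace Pool.Agent.EffWeight

lemma sq_sub_nonneg' (n : ℤ) (h : 0 ≤ n) : 0 ≤ n * n - n := by
  rcases eq_or_lt_of_le h with h | h
  · subst h; norm_num
  · nlinarith

lemma arith4 {w n0 n1 n2 τ L ϱ θ p M N R K T : ℤ} (h0 : 0 ≤ n0) (h1 : 0 ≤ n1) (h2 : 1 ≤ n2)
    (hτ : 0 ≤ τ) (hL : 0 ≤ L) (hθ : 0 ≤ θ)
    (hM : M = n0 + n1 + n2 + τ) (hp : p = M - θ) (hN : N = M + L) (hR : R = M + ϱ)
    (hK : K = L + τ) (hϱ : n1 + 2 * n2 ≤ ϱ) (hT : T = p + 2 * N + R) (hT15 : 15 ≤ T)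
    (hI : 2 * w + n0 * n0 + n1 * n1 + n2 * n2 ≤
      2 * (p * R + K * p + L * R + n0 * (M + n2) + n1 * M + n2 * (n1 + n2)) + n0 + n1 + n2)
    (hI' : θ = 0 → 2 * w + n0 * n0 + n1 * n1 + n2 * n2 ≤
      2 * (p * R + K * p + L * (R - 1) + n0 * (M + n2) + n1 * M + n2 * (n1 + n2)) + n0 + n1 + n2) :
    8 * w + 8 ≤ T * T := by
  have q0 := sq_sub_nonneg' n0 h0
  have q1 := sq_sub_nonneg' n1 h1
  have q2 := sq_sub_nonneg' n2 (by omega)
  have hτn : 0 ≤ τ * n2 := mul_nonneg hτ (by omega)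
  by_cases hθ0 : θ = 0
  · have hI2 := hI' hθ0
    subst hθ0
    have key : 8 * w + ((2 * L - ϱ) ^ 2 + 8 * L + 8 * (τ * n2) + 4 * (n0 * n0 - n0)
        + 4 * (n1 * n1 - n1) + 4 * (n2 * n2 - n2)) ≤ T * T := by
      subst hT hp hN hR hK hM
      nlinarith [hI2]
    by_cases hL1 : 1 ≤ L
    · nlinarith [sq_nonneg (2 * L - ϱ)]
    · have hL0 : L = 0 := by omega
      subst hL0
      by_cases hϱ3 : 3 ≤ ϱ
      · nlinarith
      · have e1 : n1 = 0 := by omega
        have e2 : n2 = 1 := by omega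
        have e3 : ϱ = 2 := by omega
        subst e1 e2 e3
        by_cases hτ1 : 1 ≤ τ
        · nlinarith
        · have hτ0 : τ = 0 := by omega
          subst hτ0
          have : 3 ≤ n0 := by omega
          nlinarith
  · have hθ1 : 1 ≤ θ := by omega
    have key : 8 * w + ((2 * L - ϱ + θ) ^ 2 + 8 * (θ * ϱ) + 8 * (θ * τ) + 8 * (τ * n2)
        + 4 * (n0 * n0 - n0) + 4 * (n1 * n1 - n1) + 4 * (n2 * n2 - n2)) ≤ T * T := by
      subst hT hp hN hR hK hM
      nlinarith [hI]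
    have h3 : 2 ≤ θ * ϱ := by nlinarith
    have h4 : 0 ≤ θ * τ := mul_nonneg hθ hτ
    nlinarith [sq_nonneg (2 * L - ϱ + θ)]

lemma arith3_core {V n0 n1 n2 τ σ : ℤ} (h0 : 0 ≤ n0) (h1 : 0 ≤ n1) (h2 : 1 ≤ n2)
    (hτ : 0 ≤ τ) (hσ : 0 ≤ σ) (hσN : σ + 1 ≤ n0 + n1 + n2 + τ)
    (hT15 : 15 ≤ 3 * (n0 + n1 + n2 + τ) - σ + n1 + 2 * n2)
    (k1 : (n2 - n0 - τ + σ) ^ 2 + 4 * σ * (n2 - n0 + τ) + 8 * (τ * n2)
      + 4 * (n0 * n0 - n0) + 4 * (n1 * n1 - n1) + 4 * (n2 * n2 - n2) ≤ V)
    (k0 : (n2 - n0 - τ + σ) ^ 2 + 4 * σ * (n0 + n2 + τ) - 8 * n0 * (n1 + n2)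
      + 8 * (τ * n2) + 4 * (n1 * n1 - n1) + 4 * (n2 * n2 - n2) ≤ V)
    (k00 : (n2 - n0 - τ + σ) ^ 2 + 4 * σ * (n0 + 2 * n1 + 3 * n2 + τ)
      - 8 * n0 * (n1 + 2 * n2) - 8 * n1 * n2 ≤ V) :
    8 ≤ V := by
  have q0 := sq_sub_nonneg' n0 h0
  have q1 := sq_sub_nonneg' n1 h1
  have q2 := sq_sub_nonneg' n2 (by omega)
  have hτn : τ ≤ τ * n2 := by nlinarith only [hτ, h2]
  have m1 : 0 ≤ n0 * τ := mul_nonneg h0 hτ
  have m2 : 0 ≤ n1 * τ := mul_nonneg h1 hτ
  by_cases hB : n0 + 2 * n1 + 2 * n2 ≤ 2 * σ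
  · -- case B
    have hprod : 0 ≤ (2 * σ - (n0 + 2 * n1 + 2 * n2)) * (n0 + n2 + τ) :=
      mul_nonneg (by omega) (by omega)
    have k0' : (n2 - n0 - τ + σ) ^ 2 + 2 * ((2 * σ - (n0 + 2 * n1 + 2 * n2)) * (n0 + n2 + τ))
        + (n0 - 2 * n1) ^ 2 + (n0 - n2) ^ 2 + 3 * (n2 * n2) + 4 * (n2 * (n2 - 1))
        + 4 * (n1 * (n2 - 1)) + 2 * (n0 * τ) + 4 * (n1 * τ) + 12 * (τ * n2) ≤ V := by
      linarith only [k0, show (n2 - n0 - τ + σ) ^ 2 + 4 * σ * (n0 + n2 + τ) - 8 * n0 * (n1 + n2)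
      + 8 * (τ * n2) + 4 * (n1 * n1 - n1) + 4 * (n2 * n2 - n2) = (n2 - n0 - τ + σ) ^ 2 + 2 * ((2 * σ - (n0 + 2 * n1 + 2 * n2)) * (n0 + n2 + τ))
        + (n0 - 2 * n1) ^ 2 + (n0 - n2) ^ 2 + 3 * (n2 * n2) + 4 * (n2 * (n2 - 1))
        + 4 * (n1 * (n2 - 1)) + 2 * (n0 * τ) + 4 * (n1 * τ) + 12 * (τ * n2) by ring]
    have s1 := sq_nonneg (n2 - n0 - τ + σ)
    have s2 := sq_nonneg (n0 - 2 * n1)
    have s3 := sq_nonneg (n0 - n2)
    have m3 : 0 ≤ n1 * (n2 - 1) := mul_nonneg h1 (by omega)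
    have m4 : 0 ≤ n2 * (n2 - 1) := mul_nonneg (by omega) (by omega)
    by_cases h22 : 2 ≤ n2
    · have m5 : 4 ≤ n2 * n2 := by nlinarith only [h22]
      linarith only [k0', hprod, m1, m2, hτn, s1, s2, s3, m3, m4, m5, hτ]
    · have : n2 = 1 := by omega
      subst this
      by_cases hτ1 : 1 ≤ τ
      · linarith only [k0', hprod, m1, m2, hτn, s1, s2, s3, m3, m4, hτ1]
      · have : τ = 0 := by omega
        subst this
        by_cases h04 : 4 ≤ n0
        · have m5 : 9 ≤ (n0 - 1) ^ 2 := by nlinarith only [h04]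
          linarith only [k0', hprod, m1, m2, s1, s2, s3, m3, m4, m5]
        · have h02 : 2 ≤ n0 := by omega
          have : n0 = 2 ∨ n0 = 3 := by omega
          rcases this with rfl | rfl
          · have hn1 : n1 ≠ 1 := by rintro rfl; omega
            have : n1 = 0 ∨ 2 ≤ n1 := by omega
            rcases this with rfl | h12
            · omega
            · have m5 : 4 ≤ (2 - 2 * n1) ^ 2 := by nlinarith only [h12]
              linarith only [k0', hprod, m1, m2, s1, s2, s3, m3, m4, m5]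
          · have m5 : 1 ≤ (3 - 2 * n1) ^ 2 := by
              rcases lt_or_ge n1 2 with h | h
              · nlinarith only [h]
              · nlinarith only [h]
            linarith only [k0', hprod, m1, m2, s1, s2, s3, m3, m4, m5]
  · push Not at hB
    by_cases hD : n0 ≤ n2
    · -- A1
      have m3 : 0 ≤ σ * (n2 - n0) := mul_nonneg hσ (by omega)
      have m4 : 0 ≤ σ * τ := mul_nonneg hσ hτ
      have s1 := sq_nonneg (n2 - n0 - τ + σ)
      have base : 8 * (τ * n2)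
        + 4 * (n0 * n0 - n0) + 4 * (n1 * n1 - n1) + 4 * (n2 * n2 - n2) ≤ V := by
        linarith only [k1, s1, m3, m4]
      by_cases a0 : 2 ≤ n0
      · have : 2 ≤ n0 * n0 - n0 := by nlinarith only [a0]
        linarith only [base, this, q1, q2, hτn, hτ]
      by_cases a1 : 2 ≤ n1
      · have : 2 ≤ n1 * n1 - n1 := by nlinarith only [a1]
        linarith only [base, this, q0, q2, hτn, hτ]
      by_cases a2 : 2 ≤ n2
      · have : 2 ≤ n2 * n2 - n2 := by nlinarith only [a2]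
        linarith only [base, this, q0, q1, hτn, hτ]
      by_cases aτ : 1 ≤ τ
      · linarith only [base, aτ, q0, q1, q2, hτn, hτ]
      omega
    · push Not at hD
      obtain ⟨D, hDd⟩ : ∃ D, n0 = D + n2 := ⟨n0 - n2, by ring⟩
      subst hDd
      have hD1 : 1 ≤ D := by omega
      have m3 : τ ≤ D * τ := by nlinarith only [hD1, hτ]
      have m4 : 0 ≤ σ * τ := mul_nonneg hσ hτ
      have hττ : 0 ≤ τ * τ := mul_nonneg hτ hτ
      have s1 := sq_nonneg (σ - 3 * D)
      -- rewrite k1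
      have k1' : σ * σ + D * D - 6 * (σ * D) + (τ * τ + 2 * (σ * τ) + 2 * (D * τ) + 8 * (τ * n2))
          + 4 * ((D + n2) * (D + n2) - (D + n2)) + 4 * (n1 * n1 - n1) + 4 * (n2 * n2 - n2) ≤ V := by
        linarith only [k1]
      by_cases hi : D + 1 ≤ n1
      · have m5 : D * D + D ≤ n1 * n1 - n1 := by nlinarith only [hi, hD1]
        have m6 : D ≤ D * n2 := by nlinarith only [hD1, h2]
        have m7 : n2 ≤ n2 * n2 := by nlinarith only [h2]
        linarith only [k1', s1, m5, m6, m7, m3, m4, hττ, hτn, hτ, hD1]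
      by_cases hii : D + 1 ≤ n2
      · have m5 : D * D + D ≤ n2 * n2 - n2 := by nlinarith only [hii, hD1]
        have m6 : D * (D + 1) ≤ D * n2 := by nlinarith only [hD1, hii]
        have m7 : 1 ≤ D * D := by nlinarith only [hD1]
        linarith only [k1', s1, m5, m6, m7, m3, m4, hττ, hτn, hτ, hD1, q1]
      push Not at hi hii
      -- σ small
      have hs : 0 ≤ (D + 3 * n2 + 2 * n1 - 1 - 2 * σ) * (12 * D - (D + 3 * n2 + 2 * n1 - 1) - 2 * σ) := by
        refine mul_nonneg (by omega) (by omega)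
      have k2 : 9 * (D * D) - 20 * (D * n1) + 20 * (n1 * n1) + 2 * (D * n2) + 41 * (n2 * n2)
          + 12 * (n1 * n2) - 6 * D - 38 * n2 - 20 * n1 + 1
          + 4 * (τ * τ + 2 * (σ * τ) + 2 * (D * τ) + 8 * (τ * n2)) ≤ 4 * V := by
        linarith only [k1', hs]
      by_cases h22 : 2 ≤ n2
      · have m6 : 0 ≤ n1 * (n2 - 2) := mul_nonneg h1 (by omega)
        have m7 : 0 ≤ D * (n2 - 2) := mul_nonneg (by omega) (by omega)
        have m8 : 0 ≤ (n2 - 2) * (41 * n2 + 44) := mul_nonneg (by omega) (by omega)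
        have s2 := sq_nonneg (10 * D - 11 * n1)
        have m9 : D ≤ D * D := by nlinarith only [hD1]
        nlinarith only [k2, m6, m7, m8, s2, hττ, hτn, m3, m4, hτ, sq_nonneg (D - 1), m9, h1, sq_nonneg n1]
      · have : n2 = 1 := by omega
        subst this
        have s2 := sq_nonneg (10 * n1 - 5 * D - 2)
        by_cases hD4 : 4 ≤ D
        · have m9 : 16 ≤ D * D - 4 * (D - 4) - 0 := by nlinarith only [hD4]
          nlinarith only [k2, s2, hττ, hτn, m3, m4, hτ, m9, hD4]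
        · by_cases hτ1 : 1 ≤ τ
          · nlinarith only [k2, s2, hττ, hτn, m3, m4, hτ1, sq_nonneg (D - 1)]
          · have : τ = 0 := by omega
            subst this
            have hn1 : n1 ≤ 3 := by omega
            have hσ' : σ ≤ 6 := by omega
            interval_cases D <;> interval_cases n1 <;> first | omega | (interval_cases σ <;> omega)


/-- arithmetic for `t = 3` -/
lemma arith3 {w n0 n1 n2 τ σ p N R T : ℤ} (h0 : 0 ≤ n0) (h1 : 0 ≤ n1) (h2 : 1 ≤ n2)
    (hτ : 0 ≤ τ) (hσ : 0 ≤ σ) (hp1 : 1 ≤ p)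
    (hN : N = n0 + n1 + n2 + τ) (hp : p = N - σ) (hR : R = n1 + 2 * n2)
    (hT : T = p + 2 * N + R) (hT15 : 15 ≤ T)
    (hI : 2 * w + n0 * n0 + n1 * n1 + n2 * n2 ≤
      2 * (p * R + τ * p + n0 * (N + n2) + n1 * N + n2 * (n1 + n2)) + n0 + n1 + n2)
    (hII : 2 * w + n1 * n1 + n2 * n2 ≤
      2 * (p * R + τ * p + n0 * (p + (n1 + n2) + n2) + n1 * N + n2 * (n1 + n2)) + n1 + n2)
    (hIII : w ≤ p * R + N * p + n0 * ((n1 + n2) + n2) + n1 * n2) :
    8 * w + 8 ≤ T * T := by
  have := arith3_core (V := T * T - 8 * w) h0 h1 h2 hτ hσ (by omega) (by omega)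
    (by subst hT hp hR hN; linarith only [hI])
    (by subst hT hp hR hN; linarith only [hII])
    (by subst hT hp hR hN; linarith only [hIII])
  linarith

lemma arith2_core {V y z q δ B D : ℤ} (hq : 0 ≤ q) (hqy : q ≤ y) (hz : 1 ≤ z) (hδ : 0 ≤ δ)
    (hB : 0 ≤ B) (hD : 0 ≤ D) (hx : δ + 1 ≤ y + z)
    (hT : 11 ≤ 3 * y + 4 * z - δ + B + 2 * D)
    (kC : (B - 2 * D - δ) ^ 2 + y * y + 2 * (y * δ) + 6 * (y * B) + 4 * (y * D) + 8 * (z * D)
      + 8 * (z * δ) - 8 * (q * z) ≤ V)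
    (kB : (B - 2 * D - δ) ^ 2 + y * y + 2 * (y * δ) + 6 * (y * B) + 4 * (y * D) + 8 * (z * D)
      + 8 * (z * δ) + 4 * (q * q - q) - 8 * (q * δ) ≤ V)
    (kA : (B - 2 * D - δ) ^ 2 + y * y + 2 * (y * δ) + 6 * (y * B) + 4 * (y * D) + 8 * (z * D)
      + 8 * (z * δ) + 4 * (q * q - q) - 8 * (q * δ) + 4 * (z * z - z) - 8 * (z * δ) ≤ V) :
    8 ≤ V := by
  have hy : 0 ≤ y := hq.trans hqy
  have a1 : 0 ≤ y * δ := mul_nonneg hy hδ
  have a2 : 0 ≤ y * B := mul_nonneg hy hB
  have a3 : 0 ≤ y * D := mul_nonneg hy hD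
  have a4 : D ≤ z * D := by nlinarith only [hz, hD]
  have a5 : δ ≤ z * δ := by nlinarith only [hz, hδ]
  have s1 := sq_nonneg (B - 2 * D - δ)
  have a6 : 0 ≤ y * y := mul_nonneg hy hy
  have a7 : 0 ≤ q * q - q := by
    rcases eq_or_lt_of_le hq with h | h
    · subst h; norm_num
    · nlinarith only [h]
  have a8 : 0 ≤ z * z - z := by nlinarith only [hz]
  by_cases hδ0 : δ = 0
  · subst hδ0
    by_cases z2 : 2 ≤ z
    · have : 2 ≤ z * z - z := by nlinarith only [z2]
      linarith only [kA, this, a1, a2, a3, a4, a5, s1, a6, a7, hD]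
    · have : z = 1 := by omega
      subst this
      by_cases hD1 : 1 ≤ D
      · linarith only [kA, hD1, a1, a2, a3, a4, a5, s1, a6, a7, hD]
      · have : D = 0 := by omega
        subst this
        by_cases hB1 : 1 ≤ B
        · by_cases hy1 : 1 ≤ y
          · have b1 : 1 ≤ y * B := by nlinarith only [hy1, hB1]
            have b2 : 1 ≤ y * y := by nlinarith only [hy1]
            have b3 : 1 ≤ (B - 2 * 0 - 0) ^ 2 := by nlinarith only [hB1]
            linarith only [kA, b1, b2, b3, a7]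
          · have : y = 0 := by omega
            subst this
            have hB3 : 3 ≤ B := by omega
            have b3 : 9 ≤ (B - 2 * 0 - 0) ^ 2 := by nlinarith only [hB3]
            linarith only [kA, b3, a7]
        · have : B = 0 := by omega
          subst this
          have hy3 : 3 ≤ y := by omega
          have b2 : 9 ≤ y * y := by nlinarith only [hy3]
          linarith only [kA, b2, a7]
  · have hδ1 : 1 ≤ δ := by omega
    by_cases hqδ : q ≤ δ
    · have c1 : 0 ≤ z * (δ - q) := mul_nonneg (by omega) (by omega)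
      by_cases y2 : 2 ≤ y
      · have b1 : 2 * 1 ≤ y * δ := by nlinarith only [y2, hδ1]
        have b2 : 4 ≤ y * y := by nlinarith only [y2]
        linarith only [kC, c1, b1, b2, a2, a3, a4, s1, hD]
      · by_cases y1 : y = 1
        · subst y1
          by_cases hδ4 : 4 ≤ δ
          · linarith only [kC, c1, a2, a3, a4, s1, hD, hδ4]
          · by_cases hB1 : 1 ≤ B
            · linarith only [kC, c1, a2, a3, a4, s1, hD, hδ1, hB1]
            · have : B = 0 := by omega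
              subst this
              by_cases hD1 : 1 ≤ D
              · have b3 : 9 ≤ (0 - 2 * D - δ) ^ 2 := by nlinarith only [hD1, hδ1]
                linarith only [kC, c1, b3, a4, hD1, hδ1]
              · have : D = 0 := by omega
                subst this
                have : δ = 1 ∨ 2 ≤ δ := by omega
                rcases this with rfl | hδ2
                · have : q = 0 ∨ q = 1 := by omega
                  rcases this with rfl | rfl
                  · linarith only [kC, hz]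
                  · have hz3 : 3 ≤ z := by omega
                    have b4 : 6 ≤ z * z - z := by nlinarith only [hz3]
                    linarith only [kA, b4, hz3]
                · have b3 : 4 ≤ (0 - 2 * 0 - δ) ^ 2 := by nlinarith only [hδ2]
                  linarith only [kC, c1, b3, hδ2]
        · have : y = 0 := by omega
          subst this
          have : q = 0 := by omega
          subst this
          linarith only [kC, s1, a4, a5, hδ1, hD]
    · push Not at hqδ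
      have c2 : 0 ≤ (q - δ) * (q - δ - 1) := mul_nonneg (by omega) (by omega)
      have kB' : y * y + 2 * (y * δ) + 8 * (z * δ) - 4 * (δ * δ) - 4 * δ ≤ V := by
        linarith only [kB, c2, s1, a2, a3, a4, hD]
      by_cases hδz : δ ≤ z
      · have b1 : δ * δ ≤ z * δ := by nlinarith only [hδz, hδ]
        have b2 : δ * 1 ≤ δ * δ := by nlinarith only [hδ1]
        have b3 : 2 * 1 ≤ y * δ := by nlinarith only [hqδ, hqy, hδ1]
        have b4 : 4 ≤ y * y := by nlinarith only [hqδ, hqy, hδ1]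
        linarith only [kB', b1, b2, b3, b4]
      · by_cases h8 : δ ≤ 8 * z - 1
        · have b1 : 0 ≤ (y - (δ + 1)) * (y + δ + 1 + 2 * δ) := mul_nonneg (by omega) (by omega)
          have b2 : 0 ≤ (δ - 1) * (8 * z - 1 - δ) := mul_nonneg (by omega) (by omega)
          nlinarith only [kB', b1, b2, hz]
        · have b1 : 0 ≤ (y - q) * z := mul_nonneg (by omega) (by omega)
          have b2 : 0 ≤ y * (δ - 8 * z) := mul_nonneg (by omega) (by omega)
          have b3 : 9 ≤ y := by omega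
          have b4 : 81 ≤ y * y := by nlinarith only [b3]
          linarith only [kC, b1, b2, b4, s1, a1, a2, a3, a4, a5, hδ, hD]

lemma arith2 {w y z q δ B D p N T u1 x1 : ℤ} (hq : 0 ≤ q) (hqy : q ≤ y) (hz : 1 ≤ z) (hδ : 0 ≤ δ)
    (hB : 0 ≤ B) (hD : 0 ≤ D) (hx : 1 ≤ x1) (hu : u1 = y + z) (hx1 : x1 = u1 - δ)
    (hp : p = x1 + B) (hN : N = u1 + D) (hT : T = p + 2 * N + z) (hT15 : 11 ≤ T)
    (hC : w ≤ D * p + p * z + u1 * x1 + q * z)
    (hB' : 2 * w + q * q ≤ 2 * (D * p + p * z + (u1 - q) * x1 + q * u1) + q)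
    (hA : 2 * w + q * q + z * z ≤ 2 * (D * p + p * z + (u1 - q - z) * x1 + q * u1 + z * u1) + q + z) :
    8 * w + 8 ≤ T * T := by
  have := arith2_core (V := T * T - 8 * w) hq hqy hz hδ hB hD (by omega) (by omega)
    (by subst hT hp hN hx1 hu; linarith only [hC])
    (by subst hT hp hN hx1 hu; linarith only [hB'])
    (by subst hT hp hN hx1 hu; linarith only [hA])
  linarith

end Pool.Agent.EffWeight
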