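import Pool.Agent.Lib_helper13.EWSmall

/-!
# The verified search up to genus 13
-/

namespace Pool.Agent.EffWeight

set_option maxRecDepth 100000 in
theorem dfs13 : dfs 13 0 0 0 = true := by decide +kernel

/-- every numerical semigroup of genus at most `13` passes the test -/
theorem small_genus {S : Set ℕ} {F Γ : ℕ} (H : Code S F Γ) (hg : genus S ≤ 13) :
    8 * effWeight S + 8 ≤ (genus S + 1) * (genus S + 1) ∨
    (8 * effWeight S ≤ (genus S + 1) * (genus S + 1) ∧ Γ ∈ spor) ∨
    ∀ x ∈ S, x ≤ F → F < 2 * x := by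
  have h1 := chk_of_dfs (dfs_of_code 13 dfs13 (genus S) hg H rfl)
  rw [chk, H.wB_eq, Bool.or_eq_true, Bool.or_eq_true, Bool.and_eq_true, decide_eq_true_eq,
    decide_eq_true_eq, List.contains_iff_mem, List.all_eq_true] at h1
  rcases h1 with (h1 | h1) | h1
  · exact Or.inl h1
  · exact Or.inr (Or.inl h1)
  · refine Or.inr (Or.inr fun x hx hxF => ?_)
    have h2 := h1 x (List.mem_range.2 (by omega))
    rw [Bool.or_eq_true, Bool.or_eq_true, beq_iff_eq, H.bit, decide_eq_true_eq] at h2
    rcases h2 with (h2 | h2) | h2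
    · exact absurd (H.pos x hx) (by omega)
    · exact absurd hx h2.2
    · exact h2

end Pool.Agent.EffWeight
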