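import Pool.Agent.Lib_helper13.EWTwo

/-!
# The case `F < 2m` and the interval semigroups
-/

namespace Pool.Agent.EffWeight
open Finset Classical

/-- the interval semigroup, as a set -/
def ivl (a h : ℕ) : Set ℕ := {x | (a ≤ x ∧ x + h + 1 ≤ 2 * a) ∨ 2 * a ≤ x}

lemma mem_ivl {a h x : ℕ} : x ∈ ivl a h ↔ (a ≤ x ∧ x + h + 1 ≤ 2 * a) ∨ 2 * a ≤ x := Iff.rfl

theorem low_classify {S : Set ℕ} {m : ℕ} (pos : ∀ x ∈ S, 0 < x) (mem : m ∈ S)
    (min : ∀ x ∈ S, m ≤ x) (h2 : ∀ x, 2 * m ≤ x → x ∈ S) :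
    8 * effWeight S ≤ (genus S + 1) * (genus S + 1) ∧
    ((genus S + 1) * (genus S + 1) < 8 * effWeight S + 8 →
      ∃ h, m + h = genus S + 1 ∧ m ≤ 3 * h + 2 ∧ 3 * h ≤ m + 2 ∧ h < m ∧ S = ivl m h) := by
  obtain ⟨e1, e2⟩ := low_case pos mem min h2
  have hm : 0 < m := pos m mem
  have e3 := card_XX (S := S) (m := m)
  set N := (G S m 1).card with hN
  set p := (XX S m).card with hp
  have hXX0 : 0 ∈ XX S m := mem_XX.2 ⟨hm, by simpa using mem⟩
  have hp1 : 1 ≤ p := card_pos.2 ⟨0, hXX0⟩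
  have e4 : ∑ i ∈ G S m 1, xb S m i ≤ N * p := by
    rw [hN, ← smul_eq_mul, ← sum_const]
    exact sum_le_sum fun i _ => xb_le i
  have hT : genus S + 1 = p + 2 * N := by omega
  have hsq : ((p : ℤ) - 2 * N) * ((p : ℤ) - 2 * N) + 8 * (N * p) = (p + 2 * N) * (p + 2 * N) := by
    ring
  have hsq0 : (0 : ℤ) ≤ ((p : ℤ) - 2 * N) * ((p : ℤ) - 2 * N) := mul_self_nonneg _
  have hw : (effWeight S : ℤ) ≤ N * p := by exact_mod_cast e2.trans e4
  refine ⟨?_, ?_⟩
  · rw [hT]
    zify
    linarith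
  · intro hlt
    rw [hT] at hlt
    zify at hlt
    have hsum : ∑ i ∈ G S m 1, xb S m i = N * p := by
      by_contra hne
      have h1 : ∑ i ∈ G S m 1, xb S m i + 1 ≤ N * p := by omega
      have h2 : (effWeight S : ℤ) + 1 ≤ N * p := by
        have : effWeight S + 1 ≤ N * p := by omega
        exact_mod_cast this
      linarith
    have hsq4 : ((p : ℤ) - 2 * N) * ((p : ℤ) - 2 * N) < 8 := by linarith
    have hd1 : (p : ℤ) - 2 * N ≤ 2 := by
      by_contra hc
      push Not at hc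
      nlinarith
    have hd2 : -2 ≤ (p : ℤ) - 2 * N := by
      by_contra hc
      push Not at hc
      nlinarith
    -- each term is maximal
    have hall : ∀ i ∈ G S m 1, xb S m i = p := by
      intro i hi
      by_contra hne
      have hlt' : xb S m i < p := lt_of_le_of_ne (xb_le i) hne
      have : ∑ i ∈ G S m 1, xb S m i < ∑ _i ∈ G S m 1, p :=
        sum_lt_sum (fun j _ => xb_le j) ⟨i, hi, hlt'⟩
      rw [sum_const, smul_eq_mul, ← hN, hsum] at this
      exact lt_irrefl _ this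
    have hsep : ∀ i ∈ G S m 1, ∀ a ∈ XX S m, a < i := by
      intro i hi a ha
      have h1 := hall i hi
      rw [xb] at h1
      have h2 : (XX S m).filter (fun a => a < i) = XX S m :=
        eq_of_subset_of_card_le (filter_subset _ _) (by omega)
      have : a ∈ (XX S m).filter (fun a => a < i) := by rw [h2]; exact ha
      exact (mem_filter.1 this).2
    have hXXr : XX S m = range p := by
      symm
      refine eq_of_subset_of_card_le ?_ (by rw [card_range])
      intro j hj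
      rw [mem_range] at hj
      by_contra hjX
      have hjm : j < m := by omega
      have hjG : j ∈ G S m 1 := by
        rw [mem_G, one_mul]
        exact ⟨hjm, fun hh => hjX (mem_XX.2 ⟨hjm, hh⟩)⟩
      have hsub : XX S m ⊆ range j := fun a ha => mem_range.2 (hsep j hjG a ha)
      have := card_le_card hsub
      rw [card_range] at this
      omega
    refine ⟨N, by omega, by omega, by omega, by omega, ?_⟩
    ext x
    rw [mem_ivl]
    constructor
    · intro hx
      have h1 := min x hx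
      by_cases h3 : 2 * m ≤ x
      · exact Or.inr h3
      · left
        refine ⟨h1, ?_⟩
        have : x - m ∈ XX S m := mem_XX.2 ⟨by omega, by rwa [Nat.add_sub_cancel' h1]⟩
        rw [hXXr, mem_range] at this
        omega
    · rintro (⟨h1, h3⟩ | h1)
      · have : x - m ∈ XX S m := by
          rw [hXXr, mem_range]; omega
        have := (mem_XX.1 this).2
        rwa [Nat.add_sub_cancel' h1] at this
      · exact h2 x h1

/-! ### Interval semigroups -/

lemma ivl_gaps {a h : ℕ} (ha : h < a) : gaps (ivl a h) = (Finset.Ico 1 a ∪ Finset.Ico (2 * a - h) (2 * a) : Finset ℕ) := by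
  ext x
  simp only [gaps, Set.mem_ofPred_eq, mem_ivl, coe_union, coe_Ico, Set.mem_union, Set.mem_Ico]
  omega

lemma ivl_semigroup {a h : ℕ} (ha : h < a) : IsNumSemigroup (ivl a h) := by
  refine ⟨?_, ?_, ?_⟩
  · intro x hx
    rw [mem_ivl] at hx
    omega
  · intro x hx y hy
    rw [mem_ivl] at *
    omega
  · have : {x : ℕ | 0 < x ∧ x ∉ ivl a h} = gaps (ivl a h) := rfl
    rw [this, ivl_gaps ha]
    exact finite_toSet _

lemma ivl_genus {a h : ℕ} (ha : h < a) : genus (ivl a h) + 1 = a + h := by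
  rw [genus, ivl_gaps ha, Set.ncard_coe_finset, card_union_of_disjoint]
  · rw [Nat.card_Ico, Nat.card_Ico]
    omega
  · rw [disjoint_left]
    intro x hx hx'
    rw [mem_Ico] at hx hx'
    omega

lemma ivl_effWeight {a h : ℕ} (ha : h < a) : h * (a - h) ≤ effWeight (ivl a h) := by
  have hfin : (gaps (ivl a h)).Finite := (ivl_semigroup ha).2.2
  rw [effWeight]
  have h1 : (((Finset.Ico a (2 * a - h)) ×ˢ (Finset.Ico (2 * a - h) (2 * a)) : Finset (ℕ × ℕ)) :
      Set (ℕ × ℕ)) ⊆ {p : ℕ × ℕ | p.1 ∈ irred (ivl a h) ∧ p.2 ∈ gaps (ivl a h) ∧ p.1 < p.2} := by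
    rintro ⟨x, y⟩ hxy
    simp only [coe_product, Set.mem_prod, coe_Ico, Set.mem_Ico] at hxy
    refine ⟨⟨?_, ?_⟩, ⟨?_, ?_⟩, ?_⟩
    · rw [mem_ivl]; omega
    · intro u hu v hv
      rw [mem_ivl] at hu hv
      show u + v ≠ x
      omega
    · show 0 < y
      omega
    · rw [mem_ivl]; omega
    · show x < y
      omega
  have h2 : {p : ℕ × ℕ | p.1 ∈ irred (ivl a h) ∧ p.2 ∈ gaps (ivl a h) ∧ p.1 < p.2}.Finite := by
    refine ((Set.finite_Iio (2 * a)).prod (Set.finite_Iio (2 * a))).subset ?_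
    rintro ⟨x, y⟩ ⟨hx, hy, hxy⟩
    have hy' : ¬ (2 * a ≤ y) := fun hc => hy.2 (Or.inr hc)
    simp only [Set.mem_prod, Set.mem_Iio] at hxy ⊢
    omega
  have h3 := Set.ncard_le_ncard h1 h2
  rw [Set.ncard_coe_finset, card_product, Nat.card_Ico, Nat.card_Ico] at h3
  have h4 : 2 * a - h - a = a - h := by omega
  have h5 : 2 * a - (2 * a - h) = h := by omega
  rw [h4, h5] at h3
  rwa [mul_comm]

lemma ivl_good {a h : ℕ} (ha : h < a) (h1 : a ≤ 3 * h + 2) (h2 : 3 * h ≤ a + 2) :
    (genus (ivl a h) + 1) * (genus (ivl a h) + 1) < 8 * effWeight (ivl a h) + 8 := by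
  have e1 := ivl_genus ha
  have e2 := ivl_effWeight ha
  rw [e1]
  obtain ⟨b, rfl⟩ := Nat.exists_eq_add_of_lt ha
  have e3 : h + b + 1 - h = b + 1 := by omega
  rw [e3] at e2
  have : (h + b + 1 + h) * (h + b + 1 + h) < 8 * (h * (b + 1)) + 8 := by
    zify
    have h1' : ((b : ℤ) + 1 - 2 * h) ≤ 2 := by omega
    have h2' : -2 ≤ ((b : ℤ) + 1 - 2 * h) := by omega
    nlinarith
  omega

end Pool.Agent.EffWeight
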