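import Pool.Agent.Lib_helper13.EWTwo
import Pool.Agent.Lib_helper13.EWArith

namespace Pool.Agent.EffWeight
open Finset Classical

section ctx
variable {S : Set ℕ} {m t c : ℕ}

lemma Ctx.genus_succ (H : Ctx S m t c) :
    genus S + 1 = (XX S m).card + 2 * (G S m 1).card + RR S m t c := by
  have h1 := H.genus_card
  have h2 := card_XX (S := S) (m := m)
  rw [genus_eq H.gtF]
  omega

lemma Ctx.main2 (H : Ctx S m 2 c) (hT : 11 ≤ genus S + 1) :
    8 * effWeight S + 8 ≤ (genus S + 1) * (genus S + 1) := by
  have e0 := H.genus_succ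
  rw [H.RR_two] at e0
  have e1 := H.two_common
  have e2 := H.group2D
  have e3 := H.group2C
  have e4 := rest_le (S := S) (m := m) (c := c)
  have e5 := H.C_le
  have e6 := D_le (S := S) (m := m) (c := c)
  have e7 := H.U1_card
  have e8 := G1_card (S := S) (m := m) (c := c)
  have e9 := XX_card (S := S) (m := m) (c := c)
  have e10 := H.X1_le_U1
  have e11 : 1 ≤ (G S m 2).card := card_pos.2 ⟨c, H.c_mem⟩
  have e12 : 1 ≤ (X1 S m c).card :=
    card_pos.2 ⟨0, mem_filter.2 ⟨H.zero_mem_XX, Nat.zero_le _⟩⟩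
  set w := effWeight S
  set g := genus S
  set z := (G S m 2).card
  set q := (D2 S m c).card
  set k := (U1 S m c \ (D2 S m c ∪ G S m 2)).card
  set u1 := (U1 S m c).card
  set u2 := (U2 S m c).card
  set x1 := (X1 S m c).card
  set x2 := (X2 S m c).card
  set p := (XX S m).card
  set N := (G S m 1).card
  have hC : w ≤ u2 * p + p * z + u1 * x1 + q * z := by
    have : u1 * x1 = k * x1 + q * x1 + z * x1 := by rw [e7]; ring
    have : q * (x1 + z) = q * x1 + q * z := by ring
    omega
  have hB : 2 * w + q * q ≤ 2 * (u2 * p + p * z + k * x1 + z * x1 + q * u1) + q := by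
    omega
  have hA : 2 * w + q * q + z * z ≤ 2 * (u2 * p + p * z + k * x1 + q * u1 + z * u1) + q + z := by
    omega
  have hk : (k : ℤ) = u1 - q - z := by omega
  have := arith2 (w := w) (y := (u1 : ℤ) - z) (z := z) (q := q) (δ := (u1 : ℤ) - x1) (B := x2)
    (D := u2) (p := p) (N := N) (T := (g : ℤ) + 1) (u1 := u1) (x1 := x1)
    (by omega) (by omega) (by omega) (by omega) (by omega) (by omega) (by omega) (by omega)
    (by omega) (by omega) (by omega) (by omega) (by omega)
    (by exact_mod_cast hC)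
    (by
      have h' : 2 * (w : ℤ) + q * q ≤ 2 * (u2 * p + p * z + k * x1 + z * x1 + q * u1) + q := by
        exact_mod_cast hB
      rw [hk] at h'
      linarith only [h'])
    (by
      have h' : 2 * (w : ℤ) + q * q + z * z
          ≤ 2 * (u2 * p + p * z + k * x1 + q * u1 + z * u1) + q + z := by
        exact_mod_cast hA
      rw [hk] at h'
      linarith only [h'])
  exact_mod_cast this

lemma Ctx.main3 (H : Ctx S m 3 c) (hT : 15 ≤ genus S + 1) :
    8 * effWeight S + 8 ≤ (genus S + 1) * (genus S + 1) := by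
  have e0 := H.genus_succ
  have hR : RR S m 3 c = (G S m 2).card + (G S m 3).card := by
    rw [H.RR_eq 2 rfl]; simp [sum_range_succ]
  have hlow : ∀ x ∈ irrF S (3 * m + c), 2 * m ≤ x → x < (1 + 1) * m →
      h S (3 * m + c) x ≤ 0 := fun x _ h1 h2 => by omega
  have e1 := H.highI (s := 1) le_rfl rfl 0 hlow
  have e2 := H.highII (s := 1) le_rfl rfl 0 hlow
  have e3 := H.highIII (s := 1) rfl 0 hlow
  have e4 := H.card_split (s := 1) le_rfl
  have e5 := H.card_B (s := 1)
  have e6 := H.card_XX_le (s := 1) rfl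
  have e7 : 1 ≤ (G S m 3).card := card_pos.2 ⟨c, H.c_mem⟩
  have e8 : 1 ≤ (XX S m).card := card_pos.2 ⟨0, H.zero_mem_XX⟩
  simp only [show (1 : ℕ) + 1 = 2 from rfl, show (1 : ℕ) + 2 = 3 from rfl] at e1 e2 e3 e4 e5 e6
  set w := effWeight S
  set g := genus S
  set n0 := (DD S m 1).card
  set n1 := (G S m 2 \ G S m 3).card
  set n2 := (G S m 3).card
  set b := (G S m 2).card
  set N := (G S m 1).card
  set K := (G S m 1 \ (DD S m 1 ∪ G S m 2)).card
  set p := (XX S m).card
  set R := RR S m 3 c
  have := arith3 (w := w) (n0 := n0) (n1 := n1) (n2 := n2) (τ := K) (σ := (N : ℤ) - p) (p := p)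
    (N := N) (R := R) (T := (g : ℤ) + 1)
    (by omega) (by omega) (by omega) (by omega) (by omega) (by omega) (by omega) (by omega)
    (by omega) (by omega) (by omega)
    (by
      have h' : 2 * (w : ℤ) + n0 * n0 + n1 * n1 + n2 * n2 ≤ 2 * (p * R + K * p
        + (G S m 1 \ G S m 1).card * 0 + n0 * (N + n2) + n1 * N + n2 * b) + n0 + n1 + n2 := by
        exact_mod_cast e1
      have hb : (b : ℤ) = n1 + n2 := by exact_mod_cast e5
      rw [hb] at h'
      linarith only [h'])
    (by
      have h' : 2 * (w : ℤ) + n1 * n1 + n2 * n2 ≤ 2 * (p * R + K * p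
        + (G S m 1 \ G S m 1).card * 0 + n0 * (p + b + n2) + n1 * N + n2 * b) + n1 + n2 := by
        exact_mod_cast e2
      have hb : (b : ℤ) = n1 + n2 := by exact_mod_cast e5
      rw [hb] at h'
      linarith only [h'])
    (by
      have h' : (w : ℤ) ≤ p * R + N * p
        + (G S m 1 \ G S m 1).card * 0 + n0 * (b + n2) + n1 * n2 := by
        exact_mod_cast e3
      have hb : (b : ℤ) = n1 + n2 := by exact_mod_cast e5
      rw [hb] at h'
      linarith only [h'])
  exact_mod_cast this

lemma Ctx.main4 (H : Ctx S m t c) (ht : 4 ≤ t) (hT : 15 ≤ genus S + 1) :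
    8 * effWeight S + 8 ≤ (genus S + 1) * (genus S + 1) := by
  have e0 := H.genus_succ
  obtain ⟨s, hst⟩ : ∃ s, s + 2 = t := ⟨t - 2, by omega⟩
  have hs2 : 2 ≤ s := by omega
  have e1 := H.highI (s := s) (by omega) hst (RR S m t c) (fun x _ h1 _ => h_le_RR h1)
  have e2 : (G S m s).card ≤ (XX S m).card → _ := fun hp =>
    H.highI (s := s) (by omega) hst (RR S m t c - 1) (H.low_refined hs2 hst hp)
  have e4 := H.card_split (s := s) (by omega)
  have e5 := H.card_B (s := s)
  have e6 := H.card_XX_le (s := s) hst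
  have e7 : 1 ≤ (G S m (s + 2)).card := by
    rw [hst]; exact card_pos.2 ⟨c, H.c_mem⟩
  have e9 := H.RR_ge hs2
  have e10 : (G S m 1 \ G S m s).card + (G S m s).card = (G S m 1).card :=
    card_sdiff_add_card_eq_card (H.G_anti (by omega))
  have e11 : (DD S m s).card + (G S m (s + 1)).card ≤ (G S m s).card := by
    rw [← card_union_of_disjoint DD_disj]
    exact card_le_card (union_subset H.DD_sub (H.G_anti (by omega)))
  set w := effWeight S
  set g := genus S
  set n0 := (DD S m s).card
  set n1 := (G S m (s + 1) \ G S m (s + 2)).card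
  set n2 := (G S m (s + 2)).card
  set b := (G S m (s + 1)).card
  set M := (G S m s).card
  set N := (G S m 1).card
  set L := (G S m 1 \ G S m s).card
  set K := (G S m 1 \ (DD S m s ∪ G S m (s + 1))).card
  set p := (XX S m).card
  set R := RR S m t c
  have hb : (b : ℤ) = n1 + n2 := by exact_mod_cast e5
  have := arith4 (w := w) (n0 := n0) (n1 := n1) (n2 := n2) (τ := (M : ℤ) - n0 - b) (L := L)
    (ϱ := (R : ℤ) - M) (θ := (M : ℤ) - p) (p := p) (M := M)
    (N := N) (R := R) (K := K) (T := (g : ℤ) + 1)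
    (by omega) (by omega) (by omega) (by omega) (by omega) (by omega) (by omega) (by omega)
    (by omega) (by omega) (by omega) (by omega) (by omega) (by omega)
    (by
      have h' : 2 * (w : ℤ) + n0 * n0 + n1 * n1 + n2 * n2 ≤ 2 * (p * R + K * p
        + L * R + n0 * (M + n2) + n1 * M + n2 * b) + n0 + n1 + n2 := by
        exact_mod_cast e1
      rw [hb] at h'
      linarith only [h'])
    (by
      intro hθ
      have e2' := e2 (by omega)
      have hR1 : 1 ≤ R := by omega
      have h' : 2 * (w : ℤ) + n0 * n0 + n1 * n1 + n2 * n2 ≤ 2 * (p * R + K * p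
        + L * ((R - 1 : ℕ) : ℤ) + n0 * (M + n2) + n1 * M + n2 * b) + n0 + n1 + n2 := by
        exact_mod_cast e2'
      rw [hb, Nat.cast_sub hR1, Nat.cast_one] at h'
      linarith only [h'])
  exact_mod_cast this

/-- **Main inequality**: if the largest gap exceeds `2m` and the genus is at least `14`, then
`8 w + 8 ≤ (g+1)²`. -/
theorem Ctx.main (H : Ctx S m t c) (ht : 2 ≤ t) (hT : 15 ≤ genus S + 1) :
    8 * effWeight S + 8 ≤ (genus S + 1) * (genus S + 1) := by
  rcases Nat.lt_or_ge t 4 with h4 | h4
  · rcases Nat.lt_or_ge t 3 with h3 | h3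
    · have : t = 2 := by omega
      subst this
      exact H.main2 (by omega)
    · have : t = 3 := by omega
      subst this
      exact H.main3 hT
  · exact H.main4 h4 hT

end ctx

end Pool.Agent.EffWeight
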