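import Pool.Agent.Lib_helper13.EWFinalDefs
import Pool.Agent.Lib_helper13.EWLow
import Pool.Agent.Lib_helper13.EWMain
import Pool.Agent.Lib_helper13.EWDfs

/-!
# Classification of the numerical semigroups of maximal effective weight
-/

namespace Pool.Agent.EffWeight
open Finset Classical

/-- generators and gaps of the sporadic semigroups -/
def sporData : List (Finset ℕ × Finset ℕ) :=
  [({2, 5}, {1, 3}), ({2, 7}, {1, 3, 5}), ({3, 5}, {1, 2, 4, 7}), ({2, 9}, {1, 3, 5, 7}),
   ({4, 6, 7}, {1, 2, 3, 5, 9}), ({4, 5, 11}, {1, 2, 3, 6, 7}), ({3, 7, 11}, {1, 2, 4, 5, 8}),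
   ({2, 11}, {1, 3, 5, 7, 9}), ({4, 6, 9}, {1, 2, 3, 5, 7, 11}), ({4, 5}, {1, 2, 3, 6, 7, 11}),
   ({3, 7}, {1, 2, 4, 5, 8, 11}), ({4, 6, 11}, {1, 2, 3, 5, 7, 9, 13}),
   ({4, 6, 13}, {1, 2, 3, 5, 7, 9, 11, 15}), ({6, 7, 8}, {1, 2, 3, 4, 5, 9, 10, 11, 17}),
   ({4, 6, 15}, {1, 2, 3, 5, 7, 9, 11, 13, 17})]

lemma sporadic_eq : sporadic = sporData.map (fun d => (d.2.card, d.1)) := by decide

/-- complement of a finite set in the positive integers -/
def cmpl (B : Finset ℕ) : Set ℕ := {x | 0 < x ∧ x ∉ B}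

lemma eq_cmpl {S : Set ℕ} {B : Finset ℕ} (pos : ∀ x ∈ S, 0 < x) (h : gaps S = ↑B) :
    S = cmpl B := by
  ext x
  have h1 : x ∈ gaps S ↔ x ∈ B := by rw [h]; rfl
  rw [gaps, Set.mem_ofPred_eq] at h1
  rw [cmpl, Set.mem_ofPred_eq]
  constructor
  · intro hx
    exact ⟨pos x hx, fun hB => (h1.2 hB).2 hx⟩
  · rintro ⟨h2, h3⟩
    by_contra hx
    exact h3 (h1.1 ⟨h2, hx⟩)

lemma gaps_cmpl {B : Finset ℕ} (h0 : 0 ∉ B) : gaps (cmpl B) = ↑B := by
  ext x
  rw [gaps, cmpl, Set.mem_ofPred_eq, Set.mem_ofPred_eq, mem_coe]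
  constructor
  · rintro ⟨h1, h2⟩
    by_contra h3
    exact h2 ⟨h1, h3⟩
  · intro h1
    refine ⟨?_, fun h2 => h2.2 h1⟩
    rcases Nat.eq_zero_or_pos x with rfl | h
    · exact absurd h1 h0
    · exact h

/-- the decidable checks on the sporadic data -/
def dataOK (A B : Finset ℕ) : Prop :=
  0 ∉ B ∧ 0 ∉ A ∧ (∀ b ∈ B, b < 20) ∧ (∃ a ∈ A, a < 20) ∧
  (∀ y ∈ B, ∀ x ∈ range y, x = 0 ∨ x ∈ B ∨ y - x ∈ B) ∧ (∀ a ∈ A, a ∉ B) ∧
  (∀ x ∈ range 40, 0 < x → x ∉ B → x ∈ A ∨ ∃ a ∈ A, a < x ∧ x - a ∉ B)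

instance (A B : Finset ℕ) : Decidable (dataOK A B) := by unfold dataOK; infer_instance

lemma sporData_ok : ∀ d ∈ sporData, dataOK d.1 d.2 := by decide +kernel

lemma cmpl_semigroup {A B : Finset ℕ} (h : dataOK A B) : IsNumSemigroup (cmpl B) := by
  obtain ⟨h0, -, -, -, h5, -, -⟩ := h
  refine ⟨fun x hx => hx.1, ?_, ?_⟩
  · intro x hx y hy
    rw [cmpl, Set.mem_ofPred_eq] at *
    refine ⟨by omega, fun hB => ?_⟩
    rcases h5 _ hB x (mem_range.2 (by omega)) with h | h | h
    · omega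
    · exact hx.2 h
    · rw [Nat.add_sub_cancel_left] at h
      exact hy.2 h
  · have : {x : ℕ | 0 < x ∧ x ∉ cmpl B} = gaps (cmpl B) := rfl
    rw [this, gaps_cmpl h0]
    exact finite_toSet _

lemma gen_eq_cmpl {A B : Finset ℕ} (h : dataOK A B) : gen (A : Set ℕ) = cmpl B := by
  have hS := cmpl_semigroup h
  obtain ⟨h0, hA, hB, ⟨m, hm, hm20⟩, h5, h6, h7⟩ := h
  apply Set.Subset.antisymm
  · let T : AddSubsemigroup ℕ := ⟨cmpl B, fun {x y} hx hy => hS.2.1 x hx y hy⟩
    have : AddSubsemigroup.closure (A : Set ℕ) ≤ T := by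
      rw [AddSubsemigroup.closure_le]
      intro a ha
      refine ⟨?_, h6 a ha⟩
      rcases Nat.eq_zero_or_pos a with rfl | h
      · exact absurd ha hA
      · exact h
    exact this
  · intro x hx
    have key : ∀ x, 0 < x → x ∉ B → x ∈ AddSubsemigroup.closure (A : Set ℕ) := by
      intro x
      induction x using Nat.strong_induction_on with
      | _ x ih =>
        intro hx0 hxB
        have hstep : x ∈ A ∨ ∃ a ∈ A, a < x ∧ x - a ∉ B := by
          by_cases hx40 : x < 40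
          · exact h7 x (mem_range.2 hx40) hx0 hxB
          · exact Or.inr ⟨m, hm, by omega, fun hh => absurd (hB _ hh) (by omega)⟩
        rcases hstep with h | ⟨a, ha, hax, hxa⟩
        · exact AddSubsemigroup.subset_closure h
        · have ha0 : 0 < a := by
            rcases Nat.eq_zero_or_pos a with rfl | h
            · exact absurd ha hA
            · exact h
          have h1 := ih (x - a) (by omega) (by omega) hxa
          have h2 : a ∈ AddSubsemigroup.closure (A : Set ℕ) := AddSubsemigroup.subset_closure ha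
          have := add_mem h1 h2
          rwa [Nat.sub_add_cancel hax.le] at this
    exact key x hx.1 hx.2

/-- the interval semigroups are generated by intervals -/
lemma gen_Icc {a h : ℕ} (hah : 2 * h + 1 ≤ a) :
    gen (Set.Icc a (2 * a - h - 1)) = ivl a h := by
  have hS := ivl_semigroup (a := a) (h := h) (by omega)
  apply Set.Subset.antisymm
  · let T : AddSubsemigroup ℕ := ⟨ivl a h, fun {x y} hx hy => hS.2.1 x hx y hy⟩
    have : AddSubsemigroup.closure (Set.Icc a (2 * a - h - 1)) ≤ T := by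
      rw [AddSubsemigroup.closure_le]
      intro x hx
      rw [Set.mem_Icc] at hx
      show x ∈ ivl a h
      rw [mem_ivl]; omega
    exact this
  · have key : ∀ x, x ∈ ivl a h → x ∈ AddSubsemigroup.closure (Set.Icc a (2 * a - h - 1)) := by
      intro x
      induction x using Nat.strong_induction_on with
      | _ x ih =>
        intro hx
        rw [mem_ivl] at hx
        rcases hx with hx | hx
        · refine AddSubsemigroup.subset_closure ?_
          rw [Set.mem_Icc]; omega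
        · by_cases h3 : 3 * a ≤ x
          · have h1 := ih (x - a) (by omega) (by rw [mem_ivl]; omega)
            have h2 : a ∈ AddSubsemigroup.closure (Set.Icc a (2 * a - h - 1)) :=
              AddSubsemigroup.subset_closure (by rw [Set.mem_Icc]; omega)
            have := add_mem h1 h2
            rwa [Nat.sub_add_cancel (by omega)] at this
          · -- `2a ≤ x < 3a`
            obtain ⟨y, hy1, hy2, hy3, hy4⟩ : ∃ y, a ≤ y ∧ y ≤ 2 * a - h - 1 ∧ a + y ≤ x ∧
                x ≤ y + (2 * a - h - 1) := by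
              by_cases hc : x ≤ a + (2 * a - h - 1)
              · exact ⟨a, by omega, by omega, by omega, by omega⟩
              · exact ⟨x - (2 * a - h - 1), by omega, by omega, by omega, by omega⟩
            have h1 : y ∈ AddSubsemigroup.closure (Set.Icc a (2 * a - h - 1)) :=
              AddSubsemigroup.subset_closure (by rw [Set.mem_Icc]; omega)
            have h2 : x - y ∈ AddSubsemigroup.closure (Set.Icc a (2 * a - h - 1)) :=
              AddSubsemigroup.subset_closure (by rw [Set.mem_Icc]; omega)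
            have := add_mem h1 h2
            rwa [Nat.add_sub_cancel' (by omega)] at this
    exact key

/-- mask of a finite set -/
def mask (B : Finset ℕ) : ℕ := ∑ i ∈ B, 2 ^ i

lemma spor_data : ∀ Γ ∈ spor, Γ < 2 ^ 20 ∧ ∃ d ∈ sporData, ∀ x ∈ range 20, (Γ.testBit x = true ↔ x ∈ d.2) := by
  decide +kernel

lemma data_good : ∀ d ∈ sporData, mask d.2 < 2 ^ 20 ∧ d.2.Nonempty ∧
    (∀ x ∈ range 20, ((mask d.2).testBit x = true ↔ x ∈ d.2)) ∧
    ∀ F ∈ d.2, (∀ x ∈ d.2, x ≤ F) →
      (d.2.card + 1) * (d.2.card + 1) < 8 * wB (mask d.2) F + 8 := by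
  decide +kernel

lemma testBit_big {Γ x : ℕ} (h : Γ < 2 ^ 20) (hx : 20 ≤ x) : Γ.testBit x = false :=
  Nat.testBit_lt_two_pow (h.trans_le (Nat.pow_le_pow_right (by norm_num) hx))

lemma ivl_small1 : ivl 2 1 = cmpl {1, 3} := by
  ext x
  rw [mem_ivl, cmpl, Set.mem_ofPred_eq]
  simp only [mem_insert, mem_singleton]
  omega

lemma ivl_small2 : ivl 4 2 = cmpl {1, 2, 3, 6, 7} := by
  ext x
  rw [mem_ivl, cmpl, Set.mem_ofPred_eq]
  simp only [mem_insert, mem_singleton]
  omega

/-- the main theorem -/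
theorem classify {S : Set ℕ} (hS : IsNumSemigroup S) :
    8 * effWeight S ≤ (genus S + 1) * (genus S + 1) ∧
    ((genus S + 1) * (genus S + 1) < 8 * effWeight S + 8 →
      (∃ a h, 2 * h + 1 ≤ a ∧ a ≤ 3 * h + 2 ∧ 3 * h ≤ a + 2 ∧ S = ivl a h) ∨
      ∃ d ∈ sporData, S = cmpl d.2) := by
  obtain ⟨F, Γ, H⟩ := exists_code hS
  have hne : ∃ x, x ∈ S := ⟨F + 1, H.gtF _ (by omega)⟩
  obtain ⟨m, hm, hmin⟩ : ∃ m, m ∈ S ∧ ∀ x ∈ S, m ≤ x :=
    ⟨Nat.find hne, Nat.find_spec hne, fun x hx => Nat.find_min' hne hx⟩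
  have hm0 := H.pos m hm
  by_cases hF : F < 2 * m
  · obtain ⟨h1, h2⟩ := low_classify H.pos hm hmin (fun x hx => H.gtF x (by omega))
    refine ⟨h1, fun h3 => ?_⟩
    obtain ⟨h, ha, hb, hc, hd, he⟩ := h2 h3
    by_cases hah : 2 * h + 1 ≤ m
    · exact Or.inl ⟨m, h, hah, hb, hc, he⟩
    · right
      have : (m = 2 ∧ h = 1) ∨ (m = 4 ∧ h = 2) := by omega
      rcases this with ⟨rfl, rfl⟩ | ⟨rfl, rfl⟩
      · refine ⟨({2, 5}, {1, 3}), by decide, ?_⟩
        rw [he, ivl_small1]
      · refine ⟨({4, 5, 11}, {1, 2, 3, 6, 7}), by decide, ?_⟩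
        rw [he, ivl_small2]
  · push Not at hF
    have hdm : F / m * m + F % m = F := by
      rw [mul_comm]; exact Nat.div_add_mod F m
    have ht : 2 ≤ F / m := (Nat.le_div_iff_mul_le hm0).2 hF
    have C : Ctx S m (F / m) (F % m) := by
      refine ⟨H.pos, H.add, hm, hmin, by omega, Nat.mod_lt _ hm0, ?_, ?_⟩
      · rw [hdm]; exact H.notF
      · rw [hdm]; exact H.gtF
    by_cases hT : 15 ≤ genus S + 1
    · have h1 := C.main ht hT
      exact ⟨by omega, fun h2 => absurd h1 (by omega)⟩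
    · rcases small_genus H (by omega) with h1 | h1 | h1
      · exact ⟨by omega, fun h2 => absurd h1 (by omega)⟩
      · refine ⟨h1.1, fun _ => Or.inr ?_⟩
        obtain ⟨h20, d, hd, hbit⟩ := spor_data Γ h1.2
        refine ⟨d, hd, eq_cmpl H.pos ?_⟩
        ext x
        rw [mem_coe]
        have h3 := H.bit x
        rw [gaps, Set.mem_ofPred_eq, ← h3]
        by_cases hx : x < 20
        · exact hbit x (mem_range.2 hx)
        · rw [testBit_big h20 (by omega)]
          constructor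
          · intro hh; exact absurd hh (by simp)
          · intro hh
            exact absurd ((sporData_ok d hd).2.2.1 x hh) hx
      · exact absurd (h1 m hm (by omega)) (by omega)

/-- the sporadic semigroups are good -/
lemma spor_good {d : Finset ℕ × Finset ℕ} (hd : d ∈ sporData) :
    genus (cmpl d.2) = d.2.card ∧
    (genus (cmpl d.2) + 1) * (genus (cmpl d.2) + 1) < 8 * effWeight (cmpl d.2) + 8 := by
  have hok := sporData_ok d hd
  have hg : genus (cmpl d.2) = d.2.card := by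
    rw [genus, gaps_cmpl hok.1, Set.ncard_coe_finset]
  refine ⟨hg, ?_⟩
  obtain ⟨F, Γ, H⟩ := exists_code (cmpl_semigroup hok)
  obtain ⟨h20, hne, hbit, hgood⟩ := data_good d hd
  have hmem : ∀ x, (0 < x ∧ x ∉ cmpl d.2) ↔ x ∈ d.2 := by
    intro x
    have : x ∈ gaps (cmpl d.2) ↔ x ∈ (d.2 : Set ℕ) := by rw [gaps_cmpl hok.1]
    exact this
  have hΓ : Γ = mask d.2 := by
    apply Nat.eq_of_testBit_eq
    intro x
    rw [Bool.eq_iff_iff, H.bit, hmem]
    by_cases hx : x < 20
    · exact (hbit x (mem_range.2 hx)).symm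
    · rw [testBit_big h20 (by omega)]
      constructor
      · intro hh
        exact absurd (hok.2.2.1 x hh) hx
      · intro hh; exact absurd hh (by simp)
  have hFmem : F ∈ d.2 := by
    rw [← hmem]
    refine ⟨?_, H.notF⟩
    by_contra hF0
    obtain ⟨x, hx⟩ := hne
    have h1 := (hmem x).2 hx
    exact h1.2 (H.gtF x (by omega))
  have hFmax : ∀ x ∈ d.2, x ≤ F := by
    intro x hx
    have h1 := (hmem x).2 hx
    by_contra hlt
    exact h1.2 (H.gtF x (by omega))
  have := hgood F hFmem hFmax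
  rw [← hΓ, H.wB_eq, ← hg] at this
  exact this

end Pool.Agent.EffWeight
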