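import Pool.Agent.Lib_helper13.EWDefs

namespace Pool.Agent.EffWeight
open Finset Classical

/-- Working context: `m` is the multiplicity and `t*m+c` the largest gap. -/
structure Ctx (S : Set ℕ) (m t c : ℕ) : Prop where
  pos : ∀ x ∈ S, 0 < x
  add : ∀ x ∈ S, ∀ y ∈ S, x + y ∈ S
  mem : m ∈ S
  min : ∀ x ∈ S, m ≤ x
  t1 : 1 ≤ t
  cm : c < m
  notF : t * m + c ∉ S
  gtF : ∀ x, t * m + c < x → x ∈ S

/-- classes of gaps at level `s` -/
noncomputable def G (S : Set ℕ) (m s : ℕ) : Finset ℕ := (range m).filter (fun j => s * m + j ∉ S)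

/-- classes of elements at level `1` -/
noncomputable def XX (S : Set ℕ) (m : ℕ) : Finset ℕ := (range m).filter (fun j => m + j ∈ S)

/-- the finset of gaps -/
noncomputable def gp (S : Set ℕ) (F : ℕ) : Finset ℕ :=
  (range (F + 1)).filter (fun x => 0 < x ∧ x ∉ S)

/-- number of gaps above `x` -/
noncomputable def h (S : Set ℕ) (F x : ℕ) : ℕ := ((gp S F).filter (fun y => x < y)).card

/-- irreducibles up to `F` -/
noncomputable def irrF (S : Set ℕ) (F : ℕ) : Finset ℕ := (range (F + 1)).filter (fun x => x ∈ irred S)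

lemma mem_gp {S : Set ℕ} {F y : ℕ} : y ∈ gp S F ↔ y ≤ F ∧ 0 < y ∧ y ∉ S := by
  simp [gp]

lemma mem_G {S : Set ℕ} {m s j : ℕ} : j ∈ G S m s ↔ j < m ∧ s * m + j ∉ S := by
  simp [G]

lemma mem_XX {S : Set ℕ} {m j : ℕ} : j ∈ XX S m ↔ j < m ∧ m + j ∈ S := by
  simp [XX]

lemma mem_irrF {S : Set ℕ} {F y : ℕ} : y ∈ irrF S F ↔ y ≤ F ∧ y ∈ irred S := by
  simp [irrF]

lemma coe_gp {S : Set ℕ} {F : ℕ} (hF : ∀ x, F < x → x ∈ S) : (gp S F : Set ℕ) = gaps S := by
  ext y
  simp only [mem_coe, mem_gp, gaps, Set.mem_ofPred_eq]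
  constructor
  · rintro ⟨_, h2, h3⟩; exact ⟨h2, h3⟩
  · rintro ⟨h2, h3⟩
    refine ⟨?_, h2, h3⟩
    by_contra hlt
    exact h3 (hF y (by omega))

lemma genus_eq {S : Set ℕ} {F : ℕ} (hF : ∀ x, F < x → x ∈ S) : genus S = (gp S F).card := by
  rw [genus, ← coe_gp hF, Set.ncard_coe_finset]

lemma effWeight_eq {S : Set ℕ} {F : ℕ} (hF : ∀ x, F < x → x ∈ S) :
    effWeight S = ∑ x ∈ irrF S F, h S F x := by
  have : {p : ℕ × ℕ | p.1 ∈ irred S ∧ p.2 ∈ gaps S ∧ p.1 < p.2} =
      (((irrF S F) ×ˢ (gp S F)).filter (fun p => p.1 < p.2) : Finset (ℕ × ℕ)) := by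
    ext ⟨x, y⟩
    simp only [Set.mem_ofPred_eq, coe_filter, mem_product, mem_irrF]
    rw [← coe_gp hF]
    simp only [mem_coe]
    constructor
    · rintro ⟨h1, h2, h3⟩
      have := (mem_gp.1 h2).1
      exact ⟨⟨⟨by omega, h1⟩, h2⟩, h3⟩
    · rintro ⟨⟨⟨_, h1⟩, h2⟩, h3⟩
      exact ⟨h1, h2, h3⟩
  rw [effWeight, this, Set.ncard_coe_finset, card_filter, sum_product]
  refine sum_congr rfl fun x _ => ?_
  rw [h, card_filter]

/-- double counting pairs -/
lemma sum_card_gt_eq (A B : Finset ℕ) :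
    ∑ a ∈ A, (B.filter (fun b => a < b)).card = ∑ b ∈ B, (A.filter (fun a => a < b)).card := by
  simp_rw [card_filter]
  rw [sum_comm]

/-- number of pairs in a finset -/
lemma two_sum_card_gt (D : Finset ℕ) :
    2 * ∑ j ∈ D, (D.filter (fun i => j < i)).card + D.card = D.card * D.card := by
  induction D using Finset.induction_on_max with
  | empty => simp
  | insert a s ha ih =>
    have hna : a ∉ s := fun hh => lt_irrefl _ (ha a hh)
    rw [sum_insert hna, card_insert_of_notMem hna]
    have h1 : ((insert a s).filter (fun i => a < i)).card = 0 := by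
      rw [card_eq_zero, filter_eq_empty_iff]
      intro x hx
      rcases mem_insert.1 hx with rfl | hx
      · exact lt_irrefl _
      · exact not_lt.2 (ha x hx).le
    have h2 : ∀ j ∈ s, ((insert a s).filter (fun i => j < i)).card
        = (s.filter (fun i => j < i)).card + 1 := by
      intro j hj
      rw [filter_insert, if_pos (ha j hj), card_insert_of_notMem]
      simp [hna]
    rw [h1, sum_congr rfl h2, sum_add_distrib, sum_const, smul_eq_mul]
    nlinarith

/-- reflection injection -/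
lemma card_lt_le_of_reflect (A K : Finset ℕ) (i : ℕ) (hK : ∀ a ∈ A, a < i → i - a ∈ K) :
    (A.filter (fun a => a < i)).card ≤ (K.filter (fun k => k ≤ i)).card := by
  refine card_le_card_of_injOn (fun a => i - a) ?_ ?_
  · intro a ha
    simp only [coe_filter, Set.mem_ofPred_eq] at ha ⊢
    exact ⟨hK a ha.1 ha.2, by omega⟩
  · intro a ha b hb hab
    simp only [coe_filter, Set.mem_ofPred_eq] at ha hb hab
    omega


/-! ### Basic facts in a context -/

section ctx
variable {S : Set ℕ} {m t c : ℕ}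

lemma Ctx.mpos (H : Ctx S m t c) : 0 < m := H.pos m H.mem

lemma Ctx.add_mul (H : Ctx S m t c) {x : ℕ} (hx : x ∈ S) (k : ℕ) : x + k * m ∈ S := by
  induction k with
  | zero => simpa using hx
  | succ k ih =>
    have := H.add _ ih _ H.mem
    rwa [show x + (k + 1) * m = x + k * m + m by ring]

lemma Ctx.mul_mem (H : Ctx S m t c) {s : ℕ} (hs : 1 ≤ s) : s * m ∈ S := by
  obtain ⟨k, rfl⟩ := Nat.exists_eq_add_of_le hs
  have := H.add_mul H.mem k
  rwa [show (1 + k) * m = m + k * m by ring]

lemma Ctx.G_anti (H : Ctx S m t c) {s s' : ℕ} (hs : s ≤ s') : G S m s' ⊆ G S m s := by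
  intro j hj
  rw [mem_G] at hj ⊢
  refine ⟨hj.1, fun hmem => hj.2 ?_⟩
  obtain ⟨k, rfl⟩ := Nat.exists_eq_add_of_le hs
  have := H.add_mul hmem k
  rwa [show (s + k) * m + j = s * m + j + k * m by ring]

lemma Ctx.c_mem (H : Ctx S m t c) : c ∈ G S m t := mem_G.2 ⟨H.cm, H.notF⟩

lemma Ctx.le_c (H : Ctx S m t c) {j : ℕ} (hj : j ∈ G S m t) : j ≤ c := by
  by_contra hlt
  exact (mem_G.1 hj).2 (H.gtF _ (by omega))

lemma Ctx.G_empty (H : Ctx S m t c) {s : ℕ} (hs : t < s) : G S m s = ∅ := by
  rw [eq_empty_iff_forall_notMem]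
  intro j hj
  have h1 := H.cm
  have h2 : (t + 1) * m ≤ s * m := Nat.mul_le_mul_right m hs
  exact (mem_G.1 hj).2 (H.gtF _ (by nlinarith))

lemma Ctx.zero_notMem_G (H : Ctx S m t c) {s : ℕ} (hs : 1 ≤ s) : 0 ∉ G S m s := by
  intro h0
  exact (mem_G.1 h0).2 (by simpa using H.mul_mem hs)

lemma Ctx.zero_mem_XX (H : Ctx S m t c) : 0 ∈ XX S m :=
  mem_XX.2 ⟨H.mpos, by simpa using H.mem⟩

lemma XX_eq_sdiff : XX S m = range m \ G S m 1 := by
  ext j
  simp only [mem_XX, mem_sdiff, mem_range, mem_G, one_mul]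
  tauto

lemma card_XX : (XX S m).card + (G S m 1).card = m := by
  rw [XX_eq_sdiff, card_sdiff_add_card_eq_card, card_range]
  intro j hj
  exact mem_range.2 (mem_G.1 hj).1

lemma Ctx.reflect1 (H : Ctx S m t c) {s j a : ℕ} (hj : j ∈ G S m (s + 1)) (ha : a ∈ XX S m)
    (haj : a ≤ j) : j - a ∈ G S m s := by
  rw [mem_G] at hj ⊢
  rw [mem_XX] at ha
  refine ⟨by omega, fun hmem => hj.2 ?_⟩
  have := H.add _ hmem _ ha.2
  have e : s * m + (j - a) + (m + a) = (s + 1) * m + j := by
    have : s * m + (j - a) + (m + a) = s * m + m + ((j - a) + a) := by ring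
    rw [this, Nat.sub_add_cancel haj]; ring
  rwa [e] at this

lemma Ctx.reflect2 (H : Ctx S m t c) {s j a : ℕ} (hj : j ∈ G S m (s + 2)) (ha : a ∈ XX S m)
    (haj : j < a) : m + j - a ∈ G S m s := by
  rw [mem_G] at hj ⊢
  rw [mem_XX] at ha
  refine ⟨by omega, fun hmem => hj.2 ?_⟩
  have := H.add _ hmem _ ha.2
  have e : s * m + (m + j - a) + (m + a) = (s + 2) * m + j := by
    have h1 : s * m + (m + j - a) + (m + a) = s * m + m + ((m + j - a) + a) := by ring
    rw [h1, Nat.sub_add_cancel (by omega)]; ring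
  rwa [e] at this

lemma irr_reflect {s j a : ℕ} (hjm : j < m)
    (hj : (s + 1) * m + j ∈ irred S) (ha : a ∈ XX S m) (haj : a ≤ j) : j - a ∈ G S m s := by
  rw [mem_G]
  rw [mem_XX] at ha
  refine ⟨by omega, fun hmem => hj.2 _ hmem _ ha.2 ?_⟩
  have : s * m + (j - a) + (m + a) = s * m + m + ((j - a) + a) := by ring
  rw [this, Nat.sub_add_cancel haj]; ring

lemma Ctx.irr_mem_G (H : Ctx S m t c) {s j : ℕ} (hjm : j < m)
    (hj : (s + 1) * m + j ∈ irred S) : j ∈ G S m s := by
  simpa using irr_reflect hjm hj H.zero_mem_XX (Nat.zero_le j)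

lemma irr_notMem_G {s j : ℕ} (hj : s * m + j ∈ irred S) : j ∉ G S m s :=
  fun hh => (mem_G.1 hh).2 hj.1

/-- number of gaps at level `s ≥ 1` -/
lemma Ctx.card_level (H : Ctx S m t c) {s : ℕ} (hs : 1 ≤ s) :
    ((gp S (t * m + c)).filter (fun y => s * m ≤ y ∧ y < (s + 1) * m)).card = (G S m s).card := by
  symm
  refine card_bij (fun j _ => s * m + j) ?_ ?_ ?_
  · intro j hj
    rw [mem_G] at hj
    have hm := H.mpos
    have h1 : 1 * m ≤ s * m := Nat.mul_le_mul_right m hs
    rw [mem_filter, mem_gp]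
    refine ⟨⟨?_, by omega, hj.2⟩, by omega, by nlinarith⟩
    by_contra hlt
    exact hj.2 (H.gtF _ (by omega))
  · intro a _ b _ hab
    omega
  · intro y hy
    rw [mem_filter, mem_gp] at hy
    obtain ⟨⟨h1, h2, h3⟩, h4, h5⟩ := hy
    refine ⟨y - s * m, ?_, by omega⟩
    rw [mem_G]
    refine ⟨by rw [Nat.sub_lt_iff_lt_add h4]; linarith, ?_⟩
    rwa [Nat.add_sub_cancel' h4]

/-- the number of gaps `≥ 2m` -/
noncomputable def RR (S : Set ℕ) (m t c : ℕ) : ℕ := ((gp S (t * m + c)).filter (fun y => 2 * m ≤ y)).card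

lemma Ctx.genus_card (H : Ctx S m t c) :
    (gp S (t * m + c)).card + 1 = m + (G S m 1).card + RR S m t c := by
  have hm := H.mpos
  have e1 : (gp S (t * m + c)).card = ((gp S (t * m + c)).filter (fun y => y < m)).card
      + ((gp S (t * m + c)).filter (fun y => ¬ y < m)).card :=
    (card_filter_add_card_filter_not _).symm
  have e2 : ((gp S (t * m + c)).filter (fun y => ¬ y < m)).card
      = (((gp S (t * m + c)).filter (fun y => ¬ y < m)).filter (fun y => y < 2 * m)).card
      + (((gp S (t * m + c)).filter (fun y => ¬ y < m)).filter (fun y => ¬ y < 2 * m)).card :=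
    (card_filter_add_card_filter_not _).symm
  have e3 : (((gp S (t * m + c)).filter (fun y => ¬ y < m)).filter (fun y => y < 2 * m)).card
      = (G S m 1).card := by
    rw [← H.card_level le_rfl, filter_filter]
    congr 1
    ext y
    simp only [mem_filter]
    constructor
    · rintro ⟨a, b, c⟩; exact ⟨a, by omega, by omega⟩
    · rintro ⟨a, b, c⟩; exact ⟨a, by omega, by omega⟩
  have e4 : (((gp S (t * m + c)).filter (fun y => ¬ y < m)).filter (fun y => ¬ y < 2 * m)).card
      = RR S m t c := by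
    rw [RR, filter_filter]
    congr 1
    ext y
    simp only [mem_filter]
    constructor
    · rintro ⟨a, b, c⟩; exact ⟨a, by omega⟩
    · rintro ⟨a, b⟩; exact ⟨a, by omega, by omega⟩
  have e5 : ((gp S (t * m + c)).filter (fun y => y < m)).card = m - 1 := by
    have : (gp S (t * m + c)).filter (fun y => y < m) = Finset.Ico 1 m := by
      ext y
      simp only [mem_filter, mem_gp, mem_Ico]
      constructor
      · rintro ⟨⟨a, b, c⟩, d⟩; exact ⟨b, d⟩
      · rintro ⟨a, b⟩
        refine ⟨⟨?_, a, fun hy => absurd (H.min y hy) (by omega)⟩, b⟩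
        have := H.t1
        nlinarith
    rw [this, Nat.card_Ico]
  omega


lemma h_le_RR {x : ℕ} (hx : 2 * m ≤ x) : h S (t * m + c) x ≤ RR S m t c := by
  refine card_le_card ?_
  intro y hy
  rw [mem_filter] at hy ⊢
  exact ⟨hy.1, by omega⟩

/-- gaps above a level-`s` element, with levels up to `s` -/
lemma Ctx.h_top (H : Ctx S m t c) {i : ℕ} :
    h S (t * m + c) (t * m + i) ≤ ((G S m t).filter (fun j => i < j)).card := by
  refine card_le_card_of_injOn (fun y => y - t * m) ?_ ?_
  · intro y hy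
    have h1 := (mem_filter.1 hy).1
    have h2 := (mem_filter.1 hy).2
    rw [mem_gp] at h1
    have hcm := H.cm
    have : y - t * m ∈ (G S m t).filter (fun j => i < j) := by
      rw [mem_filter, mem_G]
      refine ⟨⟨by omega, ?_⟩, by omega⟩
      rw [Nat.add_sub_cancel' (by omega)]
      exact h1.2.2
    exact this
  · intro a ha b hb hab
    have h1 := (mem_filter.1 ha).2
    have h2 := (mem_filter.1 hb).2
    simp only at hab
    omega

lemma Ctx.h_second (H : Ctx S m t c) {s i : ℕ} (hs : s + 1 = t) :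
    h S (t * m + c) (s * m + i) ≤ ((G S m s).filter (fun j => i < j)).card + (G S m t).card := by
  have e1 : h S (t * m + c) (s * m + i) =
      (((gp S (t * m + c)).filter (fun y => s * m + i < y)).filter (fun y => y < t * m)).card
      + (((gp S (t * m + c)).filter (fun y => s * m + i < y)).filter (fun y => ¬ y < t * m)).card :=
    (card_filter_add_card_filter_not _).symm
  rw [e1]
  have htm : t * m = s * m + m := by rw [← hs]; ring
  refine add_le_add ?_ ?_
  · refine card_le_card_of_injOn (fun y => y - s * m) ?_ ?_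
    · intro y hy
      have h0 := mem_filter.1 hy
      have h1 := mem_filter.1 h0.1
      have h2 := mem_gp.1 h1.1
      have : y - s * m ∈ (G S m s).filter (fun j => i < j) := by
        rw [mem_filter, mem_G]
        refine ⟨⟨by omega, ?_⟩, by omega⟩
        rw [Nat.add_sub_cancel' (by omega)]
        exact h2.2.2
      exact this
    · intro a ha b hb hab
      have h1 := (mem_filter.1 (mem_filter.1 ha).1).2
      have h2 := (mem_filter.1 (mem_filter.1 hb).1).2
      simp only at hab
      omega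
  · refine card_le_card_of_injOn (fun y => y - t * m) ?_ ?_
    · intro y hy
      have h0 := mem_filter.1 hy
      have h1 := mem_filter.1 h0.1
      have h2 := mem_gp.1 h1.1
      have hcm := H.cm
      have : y - t * m ∈ G S m t := by
        rw [mem_G]
        refine ⟨by omega, ?_⟩
        rw [Nat.add_sub_cancel' (by omega)]
        exact h2.2.2
      exact this
    · intro a ha b hb hab
      have h1 := (mem_filter.1 ha).2
      have h2 := (mem_filter.1 hb).2
      simp only at hab
      omega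

lemma h_first {a : ℕ} :
    h S (t * m + c) (m + a) ≤ ((G S m 1).filter (fun j => a < j)).card + RR S m t c := by
  have e1 : h S (t * m + c) (m + a) =
      (((gp S (t * m + c)).filter (fun y => m + a < y)).filter (fun y => y < 2 * m)).card
      + (((gp S (t * m + c)).filter (fun y => m + a < y)).filter (fun y => ¬ y < 2 * m)).card :=
    (card_filter_add_card_filter_not _).symm
  rw [e1]
  refine add_le_add ?_ ?_
  · refine card_le_card_of_injOn (fun y => y - m) ?_ ?_
    · intro y hy
      have h0 := mem_filter.1 hy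
      have h1 := mem_filter.1 h0.1
      have h2 := mem_gp.1 h1.1
      have : y - m ∈ (G S m 1).filter (fun j => a < j) := by
        rw [mem_filter, mem_G]
        refine ⟨⟨by omega, ?_⟩, by omega⟩
        rw [one_mul, Nat.add_sub_cancel' (by omega)]
        exact h2.2.2
      exact this
    · intro a ha b hb hab
      have h1 := (mem_filter.1 (mem_filter.1 ha).1).2
      have h2 := (mem_filter.1 (mem_filter.1 hb).1).2
      simp only at hab
      omega
  · refine card_le_card ?_
    intro y hy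
    have h0 := mem_filter.1 hy
    have h1 := mem_filter.1 h0.1
    rw [mem_filter]
    exact ⟨h1.1, by omega⟩

/-- the number of elements of `XX` below `i` -/
noncomputable def xb (S : Set ℕ) (m i : ℕ) : ℕ := ((XX S m).filter (fun a => a < i)).card

lemma xb_le (i : ℕ) : xb S m i ≤ (XX S m).card := card_filter_le _ _

/-- contributions of the irreducibles `≥ 2m` -/
noncomputable def W2 (S : Set ℕ) (m t c : ℕ) : ℕ :=
  ∑ x ∈ (irrF S (t * m + c)).filter (fun x => 2 * m ≤ x), h S (t * m + c) x

lemma Ctx.effWeight_le (H : Ctx S m t c) :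
    effWeight S ≤ ∑ i ∈ G S m 1, xb S m i + (XX S m).card * RR S m t c + W2 S m t c := by
  rw [effWeight_eq H.gtF]
  have e1 : ∑ x ∈ irrF S (t * m + c), h S (t * m + c) x =
      ∑ x ∈ (irrF S (t * m + c)).filter (fun x => 2 * m ≤ x), h S (t * m + c) x
      + ∑ x ∈ (irrF S (t * m + c)).filter (fun x => ¬ 2 * m ≤ x), h S (t * m + c) x :=
    (sum_filter_add_sum_filter_not _ _ _).symm
  have e2 : ∑ x ∈ (irrF S (t * m + c)).filter (fun x => ¬ 2 * m ≤ x), h S (t * m + c) x
      ≤ ∑ x ∈ (XX S m).image (fun a => m + a), h S (t * m + c) x := by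
    refine sum_le_sum_of_subset ?_
    intro x hx
    rw [mem_filter, mem_irrF] at hx
    have hxm := H.min x hx.1.2.1
    rw [mem_image]
    refine ⟨x - m, mem_XX.2 ⟨by omega, ?_⟩, by omega⟩
    rw [Nat.add_sub_cancel' hxm]
    exact hx.1.2.1
  have e3 : ∑ x ∈ (XX S m).image (fun a => m + a), h S (t * m + c) x
      = ∑ a ∈ XX S m, h S (t * m + c) (m + a) := by
    rw [sum_image]
    intro a _ b _ hab
    simpa using hab
  have e4 : ∑ a ∈ XX S m, h S (t * m + c) (m + a) ≤
      ∑ a ∈ XX S m, (((G S m 1).filter (fun j => a < j)).card + RR S m t c) :=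
    sum_le_sum fun a _ => h_first
  rw [sum_add_distrib, sum_const, smul_eq_mul, sum_card_gt_eq] at e4
  rw [e1]
  change W2 S m t c + _ ≤ _
  have e5 : ∑ i ∈ G S m 1, xb S m i = ∑ b ∈ G S m 1, ((XX S m).filter (fun a => a < b)).card := rfl
  omega

end ctx

end Pool.Agent.EffWeight
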