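import Mathlib

/-!
# Numerical semigroups and effective weight: definitions
-/

namespace Pool.Agent.EffWeight

/-- `S` is a numerical semigroup: a set of positive integers, closed under addition,
whose complement in the positive integers is finite. -/
def IsNumSemigroup (S : Set ℕ) : Prop :=
  (∀ x ∈ S, 0 < x) ∧ (∀ x ∈ S, ∀ y ∈ S, x + y ∈ S) ∧ {x : ℕ | 0 < x ∧ x ∉ S}.Finite

/-- The gaps of `S`: the positive integers outside `S`. -/
def gaps (S : Set ℕ) : Set ℕ := {x | 0 < x ∧ x ∉ S}

/-- The genus of `S`: the number of gaps. -/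
noncomputable def genus (S : Set ℕ) : ℕ := (gaps S).ncard

/-- The irreducible elements of `S` (its minimal generators): the elements of `S` that are
not a sum of two elements of `S`. -/
def irred (S : Set ℕ) : Set ℕ := {x | x ∈ S ∧ ∀ y ∈ S, ∀ z ∈ S, y + z ≠ x}

/-- The effective weight of `S`: the number of pairs `(x,y)` with `x` irreducible, `y` a gap
and `x < y`. -/
noncomputable def effWeight (S : Set ℕ) : ℕ :=
  {p : ℕ × ℕ | p.1 ∈ irred S ∧ p.2 ∈ gaps S ∧ p.1 < p.2}.ncard

end Pool.Agent.EffWeight
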