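import Pool.Agent.Lib_helper13.EWClassify

/-!
# Final statements
-/

namespace Pool.Agent.EffWeight
open Finset Classical

lemma le_div_eight {w T : ℕ} (h : 8 * w ≤ T * T) : w ≤ T ^ 2 / 8 := by
  rw [Nat.le_div_iff_mul_le (by norm_num), pow_two]; omega

lemma eq_div_eight {w T : ℕ} (h : 8 * w ≤ T * T) (h' : T * T < 8 * w + 8) : w = T ^ 2 / 8 := by
  rw [pow_two]; omega

/-- for each genus there is an interval-type semigroup attaining the bound -/
lemma exists_good (g : ℕ) : ∃ a h, h < a ∧ a + h = g + 1 ∧ a ≤ 3 * h + 2 ∧ 3 * h ≤ a + 2 := by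
  obtain ⟨q, r, hr, hq⟩ : ∃ q r, r < 4 ∧ g + 1 = 4 * q + r :=
    ⟨(g + 1) / 4, (g + 1) % 4, Nat.mod_lt _ (by norm_num), (Nat.div_add_mod _ _).symm⟩
  have : r = 0 ∨ r = 1 ∨ r = 2 ∨ r = 3 := by omega
  rcases this with rfl | rfl | rfl | rfl
  · exact ⟨3 * q, q, by omega, by omega, by omega, by omega⟩
  · exact ⟨3 * q + 1, q, by omega, by omega, by omega, by omega⟩
  · exact ⟨3 * q + 2, q, by omega, by omega, by omega, by omega⟩
  · exact ⟨3 * q + 2, q + 1, by omega, by omega, by omega, by omega⟩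

theorem isGreatest_eff (g : ℕ) :
    IsGreatest {w | ∃ S : Set ℕ, IsNumSemigroup S ∧ genus S = g ∧ effWeight S = w}
      ((g + 1) ^ 2 / 8) := by
  constructor
  · obtain ⟨a, h, hlt, hT, h1, h2⟩ := exists_good g
    have hS := ivl_semigroup hlt
    have hg := ivl_genus hlt
    refine ⟨ivl a h, hS, by omega, ?_⟩
    have e1 := (classify hS).1
    have e2 := ivl_good hlt h1 h2
    have := eq_div_eight e1 e2
    rw [this, hg, hT]
  · rintro w ⟨S, hS, rfl, rfl⟩
    exact le_div_eight (classify hS).1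

theorem maxEffWeight_eq (g : ℕ) : maxEffWeight g = (g + 1) ^ 2 / 8 :=
  (isGreatest_eff g).csSup_eq

theorem isMaximiser_iff (g : ℕ) (S : Set ℕ) : IsMaximiser g S ↔
    (∃ a h : ℕ, a + h = g + 1 ∧ 2 * h + 1 ≤ a ∧ a ≤ 3 * h + 2 ∧ 3 * h ≤ a + 2 ∧
      S = gen (Set.Icc a (2 * a - h - 1))) ∨
    (∃ A : Finset ℕ, (g, A) ∈ sporadic ∧ S = gen (A : Set ℕ)) := by
  constructor
  · rintro ⟨hS, hg, hw⟩
    obtain ⟨h1, h2⟩ := classify hS
    have h3 : (genus S + 1) * (genus S + 1) < 8 * effWeight S + 8 := by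
      rw [hw, maxEffWeight_eq, hg, pow_two]
      omega
    rcases h2 h3 with ⟨a, h, ha, hb, hc, hd⟩ | ⟨d, hd, he⟩
    · left
      have e1 := ivl_genus (a := a) (h := h) (by omega)
      rw [← hd, hg] at e1
      exact ⟨a, h, by omega, ha, hb, hc, by rw [gen_Icc ha]; exact hd⟩
    · right
      refine ⟨d.1, ?_, ?_⟩
      · rw [sporadic_eq, List.mem_map]
        refine ⟨d, hd, ?_⟩
        have := (spor_good hd).1
        rw [← he, hg] at this
        rw [this]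
      · rw [gen_eq_cmpl (sporData_ok d hd)]; exact he
  · rintro (⟨a, h, hT, ha, hb, hc, rfl⟩ | ⟨A, hA, rfl⟩)
    · rw [gen_Icc ha]
      have hlt : h < a := by omega
      have hS := ivl_semigroup hlt
      have e1 := ivl_genus hlt
      refine ⟨hS, by omega, ?_⟩
      rw [maxEffWeight_eq, eq_div_eight (classify hS).1 (ivl_good hlt hb hc), e1, hT]
    · rw [sporadic_eq, List.mem_map] at hA
      obtain ⟨d, hd, he⟩ := hA
      have h1 : d.2.card = g := congrArg Prod.fst he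
      have h2 : d.1 = A := congrArg Prod.snd he
      subst h2
      have hok := sporData_ok d hd
      rw [gen_eq_cmpl hok]
      have hS := cmpl_semigroup hok
      obtain ⟨e1, e2⟩ := spor_good hd
      refine ⟨hS, by rw [e1, h1], ?_⟩
      rw [maxEffWeight_eq, eq_div_eight (classify hS).1 e2, e1, h1]

lemma sporadic_le : ∀ p ∈ sporadic, p.1 ≤ 9 := by decide

theorem large_genus (g : ℕ) (hg : 10 ≤ g) : (∃ S, IsMaximiser g S) ∧
    ∀ S, IsMaximiser g S →
      ∃ a b : ℕ, 2 ≤ a ∧ a < b ∧ b < 2 * a ∧ S = gen (Set.Icc a b) := by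
  constructor
  · obtain ⟨S, hS, h1, h2⟩ := (isGreatest_eff g).1
    exact ⟨S, hS, h1, by rw [h2, maxEffWeight_eq]⟩
  · intro S hS
    rcases (isMaximiser_iff g S).1 hS with ⟨a, h, h1, h2, h3, h4, h5⟩ | ⟨A, hA, _⟩
    · exact ⟨a, 2 * a - h - 1, by omega, by omega, by omega, h5⟩
    · exact absurd (sporadic_le _ hA) (by simp only; omega)

open Filter Topology in
theorem tendsto_max :
    Tendsto (fun g : ℕ => (maxEffWeight g : ℝ) / (g : ℝ) ^ 2) atTop (𝓝 (1 / 8)) := by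
  have hup : Tendsto (fun g : ℕ => (1 / 8 : ℝ) * (1 + 1 / (g : ℝ)) ^ 2) atTop (𝓝 (1 / 8)) := by
    have h1 : Tendsto (fun g : ℕ => (1 : ℝ) / (g : ℝ)) atTop (𝓝 0) :=
      tendsto_one_div_atTop_nhds_zero_nat
    have h2 := ((h1.const_add 1).pow 2).const_mul (1 / 8 : ℝ)
    simpa using h2
  have hlo : Tendsto (fun g : ℕ => (1 / 8 : ℝ) * (1 + 1 / (g : ℝ)) ^ 2 - (1 / (g : ℝ)) ^ 2)
      atTop (𝓝 (1 / 8)) := by
    have h1 : Tendsto (fun g : ℕ => (1 : ℝ) / (g : ℝ)) atTop (𝓝 0) :=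
      tendsto_one_div_atTop_nhds_zero_nat
    have h2 := hup.sub (h1.pow 2)
    simpa using h2
  refine tendsto_of_tendsto_of_tendsto_of_le_of_le' hlo hup ?_ ?_
  · filter_upwards [eventually_ge_atTop 1] with g hg
    have hg' : (0 : ℝ) < g := by exact_mod_cast hg
    have h1 : (g + 1) ^ 2 ≤ 8 * maxEffWeight g + 8 := by
      rw [maxEffWeight_eq]; omega
    have h2 : ((g : ℝ) + 1) ^ 2 ≤ 8 * maxEffWeight g + 8 := by exact_mod_cast h1
    have h3 : (1 / 8 : ℝ) * (1 + 1 / (g : ℝ)) ^ 2 - (1 / (g : ℝ)) ^ 2 =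
        ((1 / 8) * ((g : ℝ) + 1) ^ 2 - 1) / (g : ℝ) ^ 2 := by
      field_simp
    rw [h3]
    gcongr
    linarith
  · filter_upwards [eventually_ge_atTop 1] with g hg
    have hg' : (0 : ℝ) < g := by exact_mod_cast hg
    have h1 : 8 * maxEffWeight g ≤ (g + 1) ^ 2 := by
      rw [maxEffWeight_eq]; omega
    have h2 : 8 * (maxEffWeight g : ℝ) ≤ ((g : ℝ) + 1) ^ 2 := by exact_mod_cast h1
    have h3 : (1 / 8 : ℝ) * (1 + 1 / (g : ℝ)) ^ 2 =
        ((1 / 8) * ((g : ℝ) + 1) ^ 2) / (g : ℝ) ^ 2 := by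
      field_simp
    rw [h3]
    gcongr
    linarith

end Pool.Agent.EffWeight
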