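import Pool.Agent.Lib_helper13.EWDefs

/-!
# Definitions used in the statement of the classification
-/

namespace Pool.Agent.EffWeight

/-- `⟨A⟩`: the set of all nonempty finite sums of elements of `A`. -/
def gen (A : Set ℕ) : Set ℕ := (AddSubsemigroup.closure A : Set ℕ)

/-- `M(g)`: the maximal effective weight of a numerical semigroup of genus `g`. -/
noncomputable def maxEffWeight (g : ℕ) : ℕ :=
  sSup {w | ∃ S : Set ℕ, IsNumSemigroup S ∧ genus S = g ∧ effWeight S = w}

/-- `S` is a maximiser of genus `g`. -/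
def IsMaximiser (g : ℕ) (S : Set ℕ) : Prop :=
  IsNumSemigroup S ∧ genus S = g ∧ effWeight S = maxEffWeight g

/-- The sporadic maximisers: pairs (genus, set of generators). -/
def sporadic : List (ℕ × Finset ℕ) :=
  [(2, {2, 5}), (3, {2, 7}), (4, {3, 5}), (4, {2, 9}),
   (5, {4, 6, 7}), (5, {4, 5, 11}), (5, {3, 7, 11}), (5, {2, 11}),
   (6, {4, 6, 9}), (6, {4, 5}), (6, {3, 7}), (7, {4, 6, 11}), (8, {4, 6, 13}),
   (9, {6, 7, 8}), (9, {4, 6, 15})]

end Pool.Agent.EffWeight
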