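import Pool.Agent.Lib_helper13.EWCore

namespace Pool.Agent.EffWeight
open Finset Classical

section ctx
variable {S : Set ℕ} {m t c : ℕ}

lemma Ctx.irr_inj (H : Ctx S m t c) {x y : ℕ} (hx : x ∈ irred S) (hy : y ∈ irred S)
    (hxy : x % m = y % m) : x = y := by
  wlog hlt : x < y generalizing x y with Hw
  · rcases lt_trichotomy x y with h1 | h1 | h1
    · exact Hw hx hy hxy h1
    · exact h1
    · exact (Hw hy hx hxy.symm h1).symm
  exfalso
  have hd : m ∣ y - x := (Nat.modEq_iff_dvd' hlt.le).1 hxy
  obtain ⟨k, hk⟩ := hd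
  have hk1 : 1 ≤ k := by
    rcases Nat.eq_zero_or_pos k with rfl | h1
    · simp at hk; omega
    · exact h1
  have hm := H.mul_mem hk1
  refine hy.2 x hx.1 (k * m) hm ?_
  rw [mul_comm k m, ← hk]; omega

/-- irreducible classes at level `s+1` -/
noncomputable def DD (S : Set ℕ) (m s : ℕ) : Finset ℕ :=
  (range m).filter (fun i => (s + 1) * m + i ∈ irred S)

lemma mem_DD {s i : ℕ} : i ∈ DD S m s ↔ i < m ∧ (s + 1) * m + i ∈ irred S := by
  simp [DD]

lemma Ctx.DD_sub (H : Ctx S m t c) {s : ℕ} : DD S m s ⊆ G S m s := by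
  intro i hi
  rw [mem_DD] at hi
  exact H.irr_mem_G hi.1 hi.2

lemma DD_disj {s : ℕ} : Disjoint (DD S m s) (G S m (s + 1)) := by
  rw [disjoint_left]
  intro i hi
  exact irr_notMem_G (mem_DD.1 hi).2

lemma card_filter_le_gt (A : Finset ℕ) (i : ℕ) :
    (A.filter (fun k => k ≤ i)).card + (A.filter (fun k => i < k)).card = A.card := by
  have := card_filter_add_card_filter_not (s := A) (fun k => k ≤ i)
  simpa only [not_le] using this

lemma card_filter_two_sub {A B K : Finset ℕ} (hA : A ⊆ K) (hB : B ⊆ K) (hd : Disjoint A B)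
    (p : ℕ → Prop) [DecidablePred p] : (A.filter p).card + (B.filter p).card ≤ (K.filter p).card := by
  rw [← card_union_of_disjoint (disjoint_filter_filter hd)]
  exact card_le_card (union_subset (filter_subset_filter _ hA) (filter_subset_filter _ hB))

lemma xb_le_of_reflect {K : Finset ℕ} {i : ℕ} (hK : ∀ a ∈ XX S m, a ≤ i → i - a ∈ K) :
    xb S m i ≤ (K.filter (fun k => k ≤ i)).card :=
  card_lt_le_of_reflect _ _ _ fun a ha hai => hK a ha hai.le

/-- The key estimate for one group of classes. -/
lemma group_bound (D : Finset ℕ) (f : ℕ → ℕ) (M : ℕ)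
    (hf : ∀ i ∈ D, f i + (D.filter (fun j => i < j)).card ≤ M) :
    2 * ∑ i ∈ D, f i + D.card * D.card ≤ 2 * (D.card * M) + D.card := by
  have h1 := sum_le_sum hf
  rw [sum_add_distrib, sum_const, smul_eq_mul] at h1
  have h2 := two_sum_card_gt D
  omega

lemma Ctx.low_card (H : Ctx S m t c) {s : ℕ} :
    ((irrF S (t * m + c)).filter (fun x => 2 * m ≤ x ∧ x < (s + 1) * m)).card
      ≤ (G S m 1 \ G S m s).card := by
  have hm := H.mpos
  refine card_le_card_of_injOn (fun x => x % m) ?_ ?_
  · intro x hx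
    have h1 := mem_filter.1 hx
    have h2 := mem_irrF.1 h1.1
    have hdm := Nat.div_add_mod x m
    have hml := Nat.mod_lt x hm
    set q := x / m with hq
    set j := x % m with hj
    have hq2 : 2 ≤ q := by
      rw [hq, Nat.le_div_iff_mul_le hm]; exact h1.2.1
    have hqs : q ≤ s := by
      have : q < s + 1 := by rw [hq, Nat.div_lt_iff_lt_mul hm]; exact h1.2.2
      omega
    obtain ⟨k, hk⟩ : ∃ k, q = k + 1 := ⟨q - 1, by omega⟩
    have hx' : (k + 1) * m + j = x := by rw [mul_comm, ← hk]; exact hdm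
    have hirr : (k + 1) * m + j ∈ irred S := by rw [hx']; exact h2.2
    have : j ∈ G S m 1 \ G S m s := by
      rw [mem_sdiff]
      exact ⟨H.G_anti (by omega) (H.irr_mem_G hml hirr), fun hh =>
        irr_notMem_G hirr (H.G_anti (by omega) hh)⟩
    exact this
  · intro x hx y hy hxy
    have h1 := mem_irrF.1 (mem_filter.1 hx).1
    have h2 := mem_irrF.1 (mem_filter.1 hy).1
    exact H.irr_inj h1.2 h2.2 hxy

lemma Ctx.W2_le (H : Ctx S m t c) {s : ℕ} (hst : s + 2 = t) (R' : ℕ)
    (hR' : ∀ x ∈ irrF S (t * m + c), 2 * m ≤ x → x < (s + 1) * m → h S (t * m + c) x ≤ R') :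
    W2 S m t c ≤ (G S m 1 \ G S m s).card * R'
      + ∑ i ∈ DD S m s, (((G S m (s + 1)).filter (fun j => i < j)).card + (G S m (s + 2)).card)
      + ∑ i ∈ G S m (s + 1) \ G S m (s + 2), ((G S m (s + 2)).filter (fun j => i < j)).card := by
  have hm := H.mpos
  subst hst
  set F := (s + 2) * m + c with hF
  set A := (irrF S F).filter (fun x => 2 * m ≤ x) with hA
  have e1 : W2 S m (s + 2) c = ∑ x ∈ A.filter (fun x => x < (s + 1) * m), h S F x
      + ∑ x ∈ A.filter (fun x => ¬ x < (s + 1) * m), h S F x :=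
    (sum_filter_add_sum_filter_not _ _ _).symm
  have e2 : ∑ x ∈ A.filter (fun x => ¬ x < (s + 1) * m), h S F x =
      ∑ x ∈ (A.filter (fun x => ¬ x < (s + 1) * m)).filter (fun x => x < (s + 2) * m), h S F x
      + ∑ x ∈ (A.filter (fun x => ¬ x < (s + 1) * m)).filter (fun x => ¬ x < (s + 2) * m), h S F x :=
    (sum_filter_add_sum_filter_not _ _ _).symm
  have hlow : ∑ x ∈ A.filter (fun x => x < (s + 1) * m), h S F x
      ≤ (G S m 1 \ G S m s).card * R' := by
    have h1 : ∑ x ∈ A.filter (fun x => x < (s + 1) * m), h S F x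
        ≤ ∑ x ∈ A.filter (fun x => x < (s + 1) * m), R' := by
      refine sum_le_sum fun x hx => ?_
      rw [hA, filter_filter, mem_filter] at hx
      exact hR' x hx.1 hx.2.1 hx.2.2
    rw [sum_const, smul_eq_mul] at h1
    refine h1.trans (Nat.mul_le_mul_right _ ?_)
    rw [hA, filter_filter]
    exact H.low_card
  have hmid : ∑ x ∈ (A.filter (fun x => ¬ x < (s + 1) * m)).filter (fun x => x < (s + 2) * m), h S F x
      ≤ ∑ i ∈ DD S m s, (((G S m (s + 1)).filter (fun j => i < j)).card + (G S m (s + 2)).card) := by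
    have hsub : (A.filter (fun x => ¬ x < (s + 1) * m)).filter (fun x => x < (s + 2) * m)
        ⊆ (DD S m s).image (fun i => (s + 1) * m + i) := by
      intro x hx
      rw [mem_filter, mem_filter, hA, mem_filter, mem_irrF] at hx
      obtain ⟨⟨⟨⟨h1, h2⟩, h3⟩, h4⟩, h5⟩ := hx
      push Not at h4
      rw [mem_image]
      refine ⟨x - (s + 1) * m, mem_DD.2 ⟨?_, ?_⟩, by omega⟩
      · rw [Nat.sub_lt_iff_lt_add h4]; linarith
      · rwa [Nat.add_sub_cancel' h4]
    refine (sum_le_sum_of_subset hsub).trans ?_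
    rw [sum_image (by intro a _ b _ hab; simpa using hab)]
    refine sum_le_sum fun i _ => ?_
    exact H.h_second (s := s + 1) (i := i) (by omega)
  have htop : ∑ x ∈ (A.filter (fun x => ¬ x < (s + 1) * m)).filter (fun x => ¬ x < (s + 2) * m), h S F x
      ≤ ∑ i ∈ G S m (s + 1) \ G S m (s + 2), ((G S m (s + 2)).filter (fun j => i < j)).card := by
    have hsub : (A.filter (fun x => ¬ x < (s + 1) * m)).filter (fun x => ¬ x < (s + 2) * m)
        ⊆ (G S m (s + 1) \ G S m (s + 2)).image (fun i => (s + 2) * m + i) := by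
      intro x hx
      rw [mem_filter, mem_filter, hA, mem_filter, mem_irrF] at hx
      obtain ⟨⟨⟨⟨h1, h2⟩, h3⟩, h4⟩, h5⟩ := hx
      push Not at h5
      have hcm := H.cm
      rw [mem_image]
      have hlt : x - (s + 2) * m < m := by omega
      have hirr : (s + 2) * m + (x - (s + 2) * m) ∈ irred S := by
        rwa [Nat.add_sub_cancel' h5]
      refine ⟨x - (s + 2) * m, mem_sdiff.2 ⟨H.irr_mem_G hlt hirr, irr_notMem_G hirr⟩, by omega⟩
    refine (sum_le_sum_of_subset hsub).trans ?_
    rw [sum_image (by intro a _ b _ hab; simpa using hab)]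
    refine sum_le_sum fun i _ => ?_
    exact H.h_top (i := i)
  omega


/-- splitting the sum over `G 1` -/
lemma Ctx.sum_split (H : Ctx S m t c) {s : ℕ} (hs : 1 ≤ s) (f : ℕ → ℕ) :
    ∑ i ∈ G S m 1, f i = ∑ i ∈ G S m 1 \ (DD S m s ∪ G S m (s + 1)), f i
      + ∑ i ∈ DD S m s, f i + ∑ i ∈ G S m (s + 1) \ G S m (s + 2), f i
      + ∑ i ∈ G S m (s + 2), f i := by
  have h1 : DD S m s ∪ G S m (s + 1) ⊆ G S m 1 :=
    union_subset (H.DD_sub.trans (H.G_anti hs)) (H.G_anti (by omega))
  rw [← sum_sdiff h1, sum_union DD_disj, ← sum_sdiff (H.G_anti (show s + 1 ≤ s + 2 by omega))]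
  ring

lemma Ctx.card_split (H : Ctx S m t c) {s : ℕ} (hs : 1 ≤ s) :
    (G S m 1).card = (G S m 1 \ (DD S m s ∪ G S m (s + 1))).card
      + (DD S m s).card + (G S m (s + 1) \ G S m (s + 2)).card + (G S m (s + 2)).card := by
  have := H.sum_split hs (fun _ => 1)
  simpa only [sum_const, smul_eq_mul, mul_one] using this

lemma Ctx.card_B (H : Ctx S m t c) {s : ℕ} :
    (G S m (s + 1)).card = (G S m (s + 1) \ G S m (s + 2)).card + (G S m (s + 2)).card := by
  rw [card_sdiff_add_card_eq_card (H.G_anti (by omega))]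

/-- contributions of the classes in `DD`, all estimates used -/
lemma Ctx.groupD (H : Ctx S m t c) {s : ℕ} :
    2 * ∑ i ∈ DD S m s, (xb S m i + (((G S m (s + 1)).filter (fun j => i < j)).card
        + (G S m (s + 2)).card)) + (DD S m s).card * (DD S m s).card
      ≤ 2 * ((DD S m s).card * ((G S m s).card + (G S m (s + 2)).card)) + (DD S m s).card := by
  refine group_bound _ _ _ fun i hi => ?_
  have h1 : xb S m i ≤ ((G S m s).filter (fun k => k ≤ i)).card :=
    xb_le_of_reflect fun a ha hai => irr_reflect (mem_DD.1 hi).1 (mem_DD.1 hi).2 ha hai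
  have h2 := card_filter_le_gt (G S m s) i
  have h3 := card_filter_two_sub (H.DD_sub (s := s)) (H.G_anti (show s ≤ s + 1 by omega)) DD_disj
    (fun j => i < j)
  omega

lemma Ctx.groupB (H : Ctx S m t c) {s : ℕ} :
    2 * ∑ i ∈ G S m (s + 1) \ G S m (s + 2), (xb S m i + ((G S m (s + 2)).filter (fun j => i < j)).card)
      + (G S m (s + 1) \ G S m (s + 2)).card * (G S m (s + 1) \ G S m (s + 2)).card
      ≤ 2 * ((G S m (s + 1) \ G S m (s + 2)).card * (G S m s).card)
        + (G S m (s + 1) \ G S m (s + 2)).card := by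
  refine group_bound _ _ _ fun i hi => ?_
  have h1 : xb S m i ≤ ((G S m s).filter (fun k => k ≤ i)).card :=
    xb_le_of_reflect fun a ha hai => H.reflect1 (mem_sdiff.1 hi).1 ha hai
  have h2 := card_filter_le_gt (G S m s) i
  have h3 := card_filter_two_sub (K := G S m s)
    ((sdiff_subset (s := G S m (s + 1)) (t := G S m (s + 2))).trans (H.G_anti (by omega)))
    (H.G_anti (show s ≤ s + 2 by omega)) sdiff_disjoint (fun j => i < j)
  omega

lemma Ctx.groupC (H : Ctx S m t c) {s : ℕ} :
    2 * ∑ i ∈ G S m (s + 2), xb S m i + (G S m (s + 2)).card * (G S m (s + 2)).card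
      ≤ 2 * ((G S m (s + 2)).card * (G S m (s + 1)).card) + (G S m (s + 2)).card := by
  refine group_bound _ _ _ fun i hi => ?_
  have h1 : xb S m i ≤ ((G S m (s + 1)).filter (fun k => k ≤ i)).card :=
    xb_le_of_reflect fun a ha hai => H.reflect1 hi ha hai
  have h2 := card_filter_le_gt (G S m (s + 1)) i
  have h3 := card_le_card (filter_subset_filter (fun j => i < j)
    (H.G_anti (show s + 1 ≤ s + 2 by omega)))
  omega

/-- number of classes at level `s` is at least `p` -/
lemma Ctx.card_XX_le (H : Ctx S m t c) {s : ℕ} (hst : s + 2 = t) :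
    (XX S m).card ≤ (G S m s).card := by
  subst hst
  refine card_le_card_of_injOn (fun a => if a ≤ c then c - a else m + c - a) ?_ ?_
  · intro a ha
    have ha' : a ∈ XX S m := ha
    by_cases hac : a ≤ c
    · simp only [if_pos hac]
      exact H.G_anti (show s ≤ s + 1 by omega) (H.reflect1 H.c_mem ha' hac)
    · simp only [if_neg hac]
      exact H.reflect2 H.c_mem ha' (by omega)
  · intro a ha b hb hab
    have h1 := (mem_XX.1 ha).1
    have h2 := (mem_XX.1 hb).1
    have hcm := H.cm
    simp only at hab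
    split_ifs at hab <;> omega


lemma Ctx.level_union (H : Ctx S m t c) {s : ℕ} (hs : 1 ≤ s) (k : ℕ) :
    ((gp S (t * m + c)).filter (fun y => s * m ≤ y ∧ y < (s + k) * m)).card
      = ∑ r ∈ range k, (G S m (s + r)).card := by
  induction k with
  | zero =>
    simp only [add_zero, range_zero, sum_empty, card_eq_zero, filter_eq_empty_iff]
    intro x _ hx
    omega
  | succ k ih =>
    rw [sum_range_succ, ← ih, ← H.card_level (s := s + k) (by omega),
      ← card_union_of_disjoint]
    · congr 1
      ext y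
      simp only [mem_filter, mem_union]
      have h1 : s * m ≤ (s + k) * m := Nat.mul_le_mul_right m (by omega)
      have h2 : (s + k) * m ≤ (s + (k + 1)) * m := Nat.mul_le_mul_right m (by omega)
      have h3 : (s + (k + 1)) * m = (s + k + 1) * m := by ring
      constructor
      · rintro ⟨h4, h5, h6⟩
        by_cases h7 : y < (s + k) * m
        · exact Or.inl ⟨h4, h5, h7⟩
        · exact Or.inr ⟨h4, by omega, by omega⟩
      · rintro (⟨h4, h5, h6⟩ | ⟨h4, h5, h6⟩)
        · exact ⟨h4, h5, by omega⟩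
        · exact ⟨h4, by omega, by omega⟩
    · rw [disjoint_filter]
      intro y _ h1 h2
      omega

lemma Ctx.RR_eq (H : Ctx S m t c) (k : ℕ) (hk : t + 1 = 2 + k) :
    RR S m t c = ∑ r ∈ range k, (G S m (2 + r)).card := by
  rw [← H.level_union (by omega) k, RR]
  congr 1
  ext y
  simp only [mem_filter]
  constructor
  · rintro ⟨h1, h2⟩
    refine ⟨h1, h2, ?_⟩
    have := (mem_gp.1 h1).1
    have hcm := H.cm
    rw [← hk]
    have : (t + 1) * m = t * m + m := by ring
    omega
  · rintro ⟨h1, h2, _⟩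
    exact ⟨h1, h2⟩

lemma Ctx.RR_ge (H : Ctx S m t c) {s : ℕ} (hs : 2 ≤ s) :
    (G S m s).card + (G S m (s + 1)).card + (G S m (s + 2)).card ≤ RR S m t c := by
  have h1 := H.level_union (s := s) (by omega) 3
  simp only [sum_range_succ, range_zero, sum_empty, zero_add, add_zero] at h1
  rw [← h1, RR]
  refine card_le_card ?_
  intro y hy
  rw [mem_filter] at hy ⊢
  have : 2 * m ≤ s * m := Nat.mul_le_mul_right m hs
  exact ⟨hy.1, by omega⟩

/-- Inequality (I). -/
lemma Ctx.highI (H : Ctx S m t c) {s : ℕ} (hs : 1 ≤ s) (hst : s + 2 = t) (R' : ℕ)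
    (hR' : ∀ x ∈ irrF S (t * m + c), 2 * m ≤ x → x < (s + 1) * m → h S (t * m + c) x ≤ R') :
    2 * effWeight S + (DD S m s).card * (DD S m s).card
      + (G S m (s + 1) \ G S m (s + 2)).card * (G S m (s + 1) \ G S m (s + 2)).card
      + (G S m (s + 2)).card * (G S m (s + 2)).card ≤
    2 * ((XX S m).card * RR S m t c
      + (G S m 1 \ (DD S m s ∪ G S m (s + 1))).card * (XX S m).card
      + (G S m 1 \ G S m s).card * R'
      + (DD S m s).card * ((G S m s).card + (G S m (s + 2)).card)
      + (G S m (s + 1) \ G S m (s + 2)).card * (G S m s).card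
      + (G S m (s + 2)).card * (G S m (s + 1)).card)
      + (DD S m s).card + (G S m (s + 1) \ G S m (s + 2)).card + (G S m (s + 2)).card := by
  have e1 := H.effWeight_le
  have e2 := H.W2_le hst R' hR'
  have e3 := H.sum_split hs (xb S m)
  have e4 : ∑ i ∈ G S m 1 \ (DD S m s ∪ G S m (s + 1)), xb S m i
      ≤ (G S m 1 \ (DD S m s ∪ G S m (s + 1))).card * (XX S m).card := by
    rw [← smul_eq_mul, ← sum_const]
    exact sum_le_sum fun i _ => xb_le i
  have e5 := H.groupD (s := s)
  have e6 := H.groupB (s := s)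
  have e7 := H.groupC (s := s)
  rw [sum_add_distrib] at e5 e6
  omega

/-- Inequality (II): no estimate for the classes in `DD`. -/
lemma Ctx.highII (H : Ctx S m t c) {s : ℕ} (hs : 1 ≤ s) (hst : s + 2 = t) (R' : ℕ)
    (hR' : ∀ x ∈ irrF S (t * m + c), 2 * m ≤ x → x < (s + 1) * m → h S (t * m + c) x ≤ R') :
    2 * effWeight S
      + (G S m (s + 1) \ G S m (s + 2)).card * (G S m (s + 1) \ G S m (s + 2)).card
      + (G S m (s + 2)).card * (G S m (s + 2)).card ≤
    2 * ((XX S m).card * RR S m t c
      + (G S m 1 \ (DD S m s ∪ G S m (s + 1))).card * (XX S m).card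
      + (G S m 1 \ G S m s).card * R'
      + (DD S m s).card * ((XX S m).card + (G S m (s + 1)).card + (G S m (s + 2)).card)
      + (G S m (s + 1) \ G S m (s + 2)).card * (G S m s).card
      + (G S m (s + 2)).card * (G S m (s + 1)).card)
      + (G S m (s + 1) \ G S m (s + 2)).card + (G S m (s + 2)).card := by
  have e1 := H.effWeight_le
  have e2 := H.W2_le hst R' hR'
  have e3 := H.sum_split hs (xb S m)
  have e4 : ∑ i ∈ G S m 1 \ (DD S m s ∪ G S m (s + 1)), xb S m i
      ≤ (G S m 1 \ (DD S m s ∪ G S m (s + 1))).card * (XX S m).card := by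
    rw [← smul_eq_mul, ← sum_const]
    exact sum_le_sum fun i _ => xb_le i
  have e5 : ∑ i ∈ DD S m s, (xb S m i + (((G S m (s + 1)).filter (fun j => i < j)).card
        + (G S m (s + 2)).card))
      ≤ (DD S m s).card * ((XX S m).card + (G S m (s + 1)).card + (G S m (s + 2)).card) := by
    rw [← smul_eq_mul, ← sum_const]
    refine sum_le_sum fun i _ => ?_
    have h1 := xb_le (S := S) (m := m) i
    have h2 : ((G S m (s + 1)).filter (fun j => i < j)).card ≤ (G S m (s + 1)).card :=
      card_filter_le _ _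
    omega
  have e6 := H.groupB (s := s)
  have e7 := H.groupC (s := s)
  rw [sum_add_distrib] at e5 e6
  omega

/-- Inequality (III): no estimate at all. -/
lemma Ctx.highIII (H : Ctx S m t c) {s : ℕ} (hst : s + 2 = t) (R' : ℕ)
    (hR' : ∀ x ∈ irrF S (t * m + c), 2 * m ≤ x → x < (s + 1) * m → h S (t * m + c) x ≤ R') :
    effWeight S ≤
    (XX S m).card * RR S m t c
      + (G S m 1).card * (XX S m).card
      + (G S m 1 \ G S m s).card * R'
      + (DD S m s).card * ((G S m (s + 1)).card + (G S m (s + 2)).card)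
      + (G S m (s + 1) \ G S m (s + 2)).card * (G S m (s + 2)).card := by
  have e1 := H.effWeight_le
  have e2 := H.W2_le hst R' hR'
  have e4 : ∑ i ∈ G S m 1, xb S m i
      ≤ (G S m 1).card * (XX S m).card := by
    rw [← smul_eq_mul, ← sum_const]
    exact sum_le_sum fun i _ => xb_le i
  have e5 : ∑ i ∈ DD S m s, (((G S m (s + 1)).filter (fun j => i < j)).card
        + (G S m (s + 2)).card)
      ≤ (DD S m s).card * ((G S m (s + 1)).card + (G S m (s + 2)).card) := by
    rw [← smul_eq_mul, ← sum_const]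
    refine sum_le_sum fun i _ => ?_
    have h2 : ((G S m (s + 1)).filter (fun j => i < j)).card ≤ (G S m (s + 1)).card :=
      card_filter_le _ _
    omega
  have e6 : ∑ i ∈ G S m (s + 1) \ G S m (s + 2), ((G S m (s + 2)).filter (fun j => i < j)).card
      ≤ (G S m (s + 1) \ G S m (s + 2)).card * (G S m (s + 2)).card := by
    rw [← smul_eq_mul, ← sum_const]
    exact sum_le_sum fun i _ => card_filter_le _ _
  omega

/-- for `t ≥ 4` and `p = M`, every low irreducible misses at least one gap `≥ 2m` -/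
lemma Ctx.low_refined (H : Ctx S m t c) {s : ℕ} (hs : 2 ≤ s) (hst : s + 2 = t)
    (hp : (G S m s).card ≤ (XX S m).card) :
    ∀ x ∈ irrF S (t * m + c), 2 * m ≤ x → x < (s + 1) * m →
      h S (t * m + c) x ≤ RR S m t c - 1 := by
  intro x hx h2 h3
  have hm := H.mpos
  have hxi := (mem_irrF.1 hx).2
  -- it suffices to exhibit a gap `y` with `2m ≤ y < x`
  suffices hy : ∃ y ∈ gp S (t * m + c), 2 * m ≤ y ∧ y < x by
    obtain ⟨y, hy1, hy2, hy3⟩ := hy
    have : h S (t * m + c) x < RR S m t c := by
      refine card_lt_card ?_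
      rw [ssubset_iff_of_subset]
      · exact ⟨y, mem_filter.2 ⟨hy1, hy2⟩, fun hh => by
          have := (mem_filter.1 hh).2; omega⟩
      · intro z hz
        rw [mem_filter] at hz ⊢
        exact ⟨hz.1, by omega⟩
    omega
  subst hst
  have hxF := (mem_irrF.1 hx).1
  by_cases h4 : 3 * m ≤ x
  · -- `x - m` is a gap
    refine ⟨x - m, mem_gp.2 ⟨by omega, by omega, fun hmem => ?_⟩, by omega, by omega⟩
    exact hxi.2 _ hmem _ H.mem (by omega)
  · push Not at h4
    set j := x - 2 * m with hj
    have hjm : j < m := by omega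
    have hx' : (1 + 1) * m + j = x := by omega
    have hirr : (1 + 1) * m + j ∈ irred S := by rw [hx']; exact hxi
    rcases lt_trichotomy j c with hjc | hjc | hjc
    · -- contradiction with `p = M`
      exfalso
      have hcard : (insert (c - j) ((XX S m).image
          (fun a => if a ≤ c then c - a else m + c - a))).card ≤ (G S m s).card := by
        refine card_le_card ?_
        intro z hz
        rw [mem_insert, mem_image] at hz
        rcases hz with rfl | ⟨a, ha, rfl⟩
        · rw [mem_G]
          have hcm := H.cm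
          refine ⟨by omega, fun hmem => H.notF ?_⟩
          have := H.add _ hmem _ hxi.1
          have e : s * m + (c - j) + x = (s + 2) * m + c := by
            have : (s + 2) * m = s * m + 2 * m := by ring
            omega
          rwa [e] at this
        · by_cases hac : a ≤ c
          · rw [if_pos hac]
            exact H.G_anti (show s ≤ s + 1 by omega) (H.reflect1 H.c_mem ha hac)
          · rw [if_neg hac]
            exact H.reflect2 H.c_mem ha (by omega)
      have hnot : c - j ∉ (XX S m).image (fun a => if a ≤ c then c - a else m + c - a) := by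
        rw [mem_image]
        rintro ⟨a, ha, hae⟩
        have ham := (mem_XX.1 ha).1
        have hjG := H.irr_mem_G hjm hirr
        have : a = j := by
          split_ifs at hae <;> omega
        rw [this] at ha
        exact (mem_G.1 hjG).2 (by simpa using (mem_XX.1 ha).2)
      rw [card_insert_of_notMem hnot, card_image_of_injOn] at hcard
      · omega
      · intro a ha b hb hab
        have h1 := (mem_XX.1 ha).1
        have h2 := (mem_XX.1 hb).1
        have hcm := H.cm
        simp only at hab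
        split_ifs at hab <;> omega
    · -- `x = 2m + c` is a gap
      exfalso
      have : c ∈ G S m 2 := H.G_anti (show 2 ≤ s + 2 by omega) H.c_mem
      refine (mem_G.1 this).2 ?_
      rw [← hjc]
      have := hxi.1
      rwa [← hx'] at this
    · refine ⟨2 * m + c, mem_gp.2 ⟨by omega, by omega, ?_⟩, by omega, by omega⟩
      exact (mem_G.1 (H.G_anti (show 2 ≤ s + 2 by omega) H.c_mem)).2

end ctx

end Pool.Agent.EffWeight
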