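import Pool.Agent.Lib_helper13.EWCore

/-!
# Numerical semigroups of small genus: a verified search
-/

namespace Pool.Agent.EffWeight
open Finset Classical

/-- `x` is not a sum of two positive non-gaps -/
def irrB (Γ x : ℕ) : Bool :=
  (List.range x).all fun a => a == 0 || Γ.testBit a || Γ.testBit (x - a)

/-- auxiliary function computing the effective weight -/
def wAux (Γ : ℕ) : ℕ → ℕ → ℕ → ℕ
  | 0, _, acc => acc
  | (x + 1), cnt, acc =>
    if Γ.testBit (x + 1) then wAux Γ x (cnt + 1) acc
    else if irrB Γ (x + 1) then wAux Γ x cnt (acc + cnt) else wAux Γ x cnt acc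

/-- the effective weight from the bit mask of the gaps -/
def wB (Γ F : ℕ) : ℕ := wAux Γ F 0 0

/-- bit masks of the sporadic gap sets with `F ≥ 2m` -/
def spor : List ℕ := [42, 150, 170, 558, 310, 682, 2222, 2254, 2358, 8878, 35502, 134718, 141998]

/-- the test at a node of the search -/
def chk (g F Γ : ℕ) : Bool :=
  decide (8 * wB Γ F + 8 ≤ (g + 1) * (g + 1)) ||
    (decide (8 * wB Γ F ≤ (g + 1) * (g + 1)) && spor.contains Γ) ||
      (List.range (F + 1)).all (fun x => x == 0 || Γ.testBit x || decide (F < 2 * x))

/-- depth first search -/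
def dfs : ℕ → ℕ → ℕ → ℕ → Bool
  | 0, g, F, Γ => chk g F Γ
  | (n + 1), g, F, Γ => chk g F Γ && (List.range (2 * g + 2)).all fun f =>
      if F < f then (if irrB Γ f then dfs n (g + 1) f (Γ ||| 2 ^ f) else true) else true

/-- the data `(F, Γ)` codes the numerical semigroup `S` -/
structure Code (S : Set ℕ) (F Γ : ℕ) : Prop where
  pos : ∀ x ∈ S, 0 < x
  add : ∀ x ∈ S, ∀ y ∈ S, x + y ∈ S
  notF : F ∉ S
  gtF : ∀ x, F < x → x ∈ S
  bit : ∀ x, Γ.testBit x = true ↔ 0 < x ∧ x ∉ S

lemma Code.irrB_iff {S : Set ℕ} {F Γ : ℕ} (H : Code S F Γ) (x : ℕ) :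
    irrB Γ x = true ↔ ∀ y ∈ S, ∀ z ∈ S, y + z ≠ x := by
  simp only [irrB, List.all_eq_true, List.mem_range, Bool.or_eq_true, beq_iff_eq, H.bit]
  constructor
  · intro h y hy z hz hyz
    have hy0 := H.pos y hy
    have hz0 := H.pos z hz
    have := h y (by omega)
    rcases this with (h1 | h1) | h1
    · omega
    · exact h1.2 hy
    · apply h1.2
      rwa [show x - y = z by omega]
  · intro h a ha
    by_cases ha0 : a = 0
    · exact Or.inl (Or.inl ha0)
    · by_cases haS : a ∈ S
      · refine Or.inr ⟨by omega, fun hx => ?_⟩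
        exact h a haS (x - a) hx (by omega)
      · exact Or.inl (Or.inr ⟨by omega, haS⟩)

lemma Code.wAux_eq {S : Set ℕ} {F Γ : ℕ} (H : Code S F Γ) (x : ℕ) (hx : x ≤ F) (acc : ℕ) :
    wAux Γ x (h S F x) acc = acc + ∑ y ∈ (irrF S F).filter (fun y => y ≤ x), h S F y := by
  induction x generalizing acc with
  | zero =>
    simp only [wAux]
    have : (irrF S F).filter (fun y => y ≤ 0) = ∅ := by
      rw [filter_eq_empty_iff]
      intro y hy h0
      have := H.pos y (mem_irrF.1 hy).2.1
      omega
    rw [this]; simp
  | succ x ih =>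
    rw [wAux]
    by_cases hb : Γ.testBit (x + 1) = true
    · rw [if_pos hb]
      have hn := ((H.bit _).1 hb).2
      have e1 : h S F (x + 1) + 1 = h S F x := by
        rw [h, h]
        have : (gp S F).filter (fun y => x < y) =
            insert (x + 1) ((gp S F).filter (fun y => x + 1 < y)) := by
          ext y
          simp only [mem_filter, mem_insert, mem_gp]
          constructor
          · rintro ⟨h1, h2⟩
            by_cases hy : y = x + 1
            · exact Or.inl hy
            · exact Or.inr ⟨h1, by omega⟩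
          · rintro (rfl | ⟨h1, h2⟩)
            · exact ⟨⟨hx, by omega, hn⟩, by omega⟩
            · exact ⟨h1, by omega⟩
        rw [this, card_insert_of_notMem]
        simp
      rw [e1, ih (by omega)]
      congr 1
      refine sum_congr ?_ fun _ _ => rfl
      ext y
      simp only [mem_filter, mem_irrF]
      constructor
      · rintro ⟨h1, h2⟩; exact ⟨h1, by omega⟩
      · rintro ⟨h1, h2⟩
        refine ⟨h1, ?_⟩
        by_contra hlt
        have : y = x + 1 := by omega
        subst this
        exact hn h1.2.1
    · rw [if_neg hb]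
      have hS : x + 1 ∈ S := by
        by_contra hn
        exact hb ((H.bit _).2 ⟨by omega, hn⟩)
      have e1 : h S F (x + 1) = h S F x := by
        rw [h, h]
        congr 1
        ext y
        simp only [mem_filter, mem_gp]
        constructor
        · rintro ⟨h1, h2⟩; exact ⟨h1, by omega⟩
        · rintro ⟨h1, h2⟩
          refine ⟨h1, ?_⟩
          by_contra hlt
          have : y = x + 1 := by omega
          subst this
          exact h1.2.2 hS
      by_cases hirr : irrB Γ (x + 1) = true
      · rw [if_pos hirr, e1, ih (by omega)]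
        have : (irrF S F).filter (fun y => y ≤ x + 1) =
            insert (x + 1) ((irrF S F).filter (fun y => y ≤ x)) := by
          ext y
          simp only [mem_filter, mem_insert, mem_irrF]
          constructor
          · rintro ⟨h1, h2⟩
            by_cases hy : y = x + 1
            · exact Or.inl hy
            · exact Or.inr ⟨h1, by omega⟩
          · rintro (rfl | ⟨h1, h2⟩)
            · exact ⟨⟨hx, hS, (H.irrB_iff _).1 hirr⟩, le_rfl⟩
            · exact ⟨h1, by omega⟩
        rw [this, sum_insert (by simp), e1]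
        ring
      · rw [if_neg hirr, e1, ih (by omega)]
        congr 1
        refine sum_congr ?_ fun _ _ => rfl
        ext y
        simp only [mem_filter, mem_irrF]
        constructor
        · rintro ⟨h1, h2⟩; exact ⟨h1, by omega⟩
        · rintro ⟨h1, h2⟩
          refine ⟨h1, ?_⟩
          by_contra hlt
          have : y = x + 1 := by omega
          subst this
          exact hirr ((H.irrB_iff _).2 h1.2.2)

lemma Code.wB_eq {S : Set ℕ} {F Γ : ℕ} (H : Code S F Γ) : wB Γ F = effWeight S := by
  have h0 : h S F F = 0 := by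
    rw [h, card_eq_zero, filter_eq_empty_iff]
    intro y hy
    have := (mem_gp.1 hy).1
    omega
  have := H.wAux_eq F le_rfl 0
  rw [h0] at this
  rw [wB, this, effWeight_eq H.gtF, zero_add]
  refine sum_congr ?_ fun _ _ => rfl
  rw [filter_eq_self]
  intro y hy
  exact (mem_irrF.1 hy).1

lemma Code.F_lt {S : Set ℕ} {F Γ : ℕ} (H : Code S F Γ) (hF : 0 < F) : F < 2 * genus S := by
  rw [genus_eq H.gtF]
  have h1 : ((range F).filter (fun x => x ∈ S)).card ≤ ((gp S F).filter (fun y => y < F)).card := by
    refine card_le_card_of_injOn (fun a => F - a) ?_ ?_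
    · intro a ha
      simp only [coe_filter, Set.mem_ofPred_eq, mem_gp, mem_range] at ha ⊢
      have ha0 := H.pos a ha.2
      refine ⟨⟨by omega, by omega, fun hm => H.notF ?_⟩, by omega⟩
      have := H.add _ ha.2 _ hm
      rwa [show a + (F - a) = F by omega] at this
    · intro a ha b hb hab
      simp only [coe_filter, Set.mem_ofPred_eq, mem_range] at ha hb hab
      omega
  have h2 : ((gp S F).filter (fun y => y < F)).card + 1 = (gp S F).card := by
    have : gp S F = insert F ((gp S F).filter (fun y => y < F)) := by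
      ext y
      simp only [mem_filter, mem_insert, mem_gp]
      constructor
      · rintro ⟨h1, h2⟩
        by_cases hy : y = F
        · exact Or.inl hy
        · exact Or.inr ⟨⟨h1, h2⟩, by omega⟩
      · rintro (rfl | ⟨h1, h2⟩)
        · exact ⟨le_rfl, hF, H.notF⟩
        · exact h1
    conv_rhs => rw [this]
    rw [card_insert_of_notMem (by simp)]
  have h3 : ((range F).filter (fun x => x ∈ S)).card + ((gp S F).filter (fun y => y < F)).card + 1
      = F := by
    have e : (range F) = insert 0 (((range F).filter (fun x => x ∈ S)) ∪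
        ((gp S F).filter (fun y => y < F))) := by
      ext y
      simp only [mem_filter, mem_insert, mem_union, mem_gp, mem_range]
      constructor
      · intro hy
        by_cases hy0 : y = 0
        · exact Or.inl hy0
        · by_cases hyS : y ∈ S
          · exact Or.inr (Or.inl ⟨hy, hyS⟩)
          · exact Or.inr (Or.inr ⟨⟨by omega, by omega, hyS⟩, hy⟩)
      · rintro (rfl | ⟨h1, h2⟩ | ⟨h1, h2⟩)
        · exact hF
        · exact h1
        · exact h2
    conv_rhs => rw [← card_range F, e]
    rw [card_insert_of_notMem, card_union_of_disjoint]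
    · rw [disjoint_left]
      intro y hy hy'
      simp only [mem_filter, mem_gp] at hy hy'
      exact hy'.1.2.2 hy.2
    · simp only [mem_union, mem_filter, mem_gp, mem_range, not_or]
      refine ⟨fun hh => ?_, fun hh => ?_⟩
      · exact absurd (H.pos 0 hh.2) (by omega)
      · omega
  omega

/-- adding the Frobenius number to a coded semigroup -/
lemma Code.parent {S : Set ℕ} {F Γ : ℕ} (H : Code S F Γ) (hF : 0 < F) :
    ∃ F' Γ', Code (insert F S) F' Γ' ∧ F' < F ∧ Γ = Γ' ||| 2 ^ F ∧
      genus S = genus (insert F S) + 1 ∧ irrB Γ' F = true := by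
  -- the new largest gap
  obtain ⟨F', hlt, hz, hmax⟩ : ∃ F', F' < F ∧ (F' = 0 ∨ F' ∉ S) ∧
      ∀ x, F' < x → x < F → x ∈ S := by
    refine ⟨Nat.findGreatest (fun x => x = 0 ∨ x ∉ S) (F - 1), ?_, ?_, ?_⟩
    · have := Nat.findGreatest_le (P := fun x => x = 0 ∨ x ∉ S) (F - 1)
      omega
    · exact Nat.findGreatest_spec (P := fun x => x = 0 ∨ x ∉ S) (Nat.zero_le (F - 1))
        (Or.inl rfl)
    · intro x h1 h2
      have := Nat.findGreatest_is_greatest (P := fun x => x = 0 ∨ x ∉ S) h1 (by omega)
      push Not at this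
      exact this.2
  have hF'S : F' ∉ S := by
    rcases hz with rfl | h
    · intro h0; exact absurd (H.pos 0 h0) (by omega)
    · exact h
  have hbit : ∀ x, (Γ ^^^ 2 ^ F).testBit x = true ↔ 0 < x ∧ x ∉ insert F S := by
    intro x
    rw [Nat.testBit_xor, Nat.testBit_two_pow]
    have h1 := H.bit x
    by_cases hx : F = x
    · subst hx
      have : Γ.testBit F = true := h1.2 ⟨hF, H.notF⟩
      simp [this]
    · have : decide (F = x) = false := by simpa using hx
      rw [this, Bool.xor_false, h1]
      simp only [Set.mem_insert_iff, not_or]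
      constructor
      · rintro ⟨a, b⟩; exact ⟨a, fun e => hx e.symm, b⟩
      · rintro ⟨a, _, b⟩; exact ⟨a, b⟩
  refine ⟨F', Γ ^^^ 2 ^ F, ⟨?_, ?_, ?_, ?_, hbit⟩, hlt, ?_, ?_, ?_⟩
  · intro x hx
    rcases Set.mem_insert_iff.1 hx with rfl | hx
    · exact hF
    · exact H.pos x hx
  · intro x hx y hy
    rcases Set.mem_insert_iff.1 hx with hx | hx
    · rcases Set.mem_insert_iff.1 hy with hy | hy
      · exact Set.mem_insert_of_mem _ (H.gtF _ (by omega))
      · have := H.pos y hy
        exact Set.mem_insert_of_mem _ (H.gtF _ (by omega))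
    · rcases Set.mem_insert_iff.1 hy with hy | hy
      · have := H.pos x hx
        exact Set.mem_insert_of_mem _ (H.gtF _ (by omega))
      · exact Set.mem_insert_of_mem _ (H.add x hx y hy)
  · rw [Set.mem_insert_iff, not_or]
    exact ⟨by omega, hF'S⟩
  · intro x hx
    rcases lt_trichotomy x F with h | rfl | h
    · exact Set.mem_insert_of_mem _ (hmax x hx h)
    · exact Set.mem_insert _ _
    · exact Set.mem_insert_of_mem _ (H.gtF x h)
  · apply Nat.eq_of_testBit_eq
    intro i
    rw [Nat.testBit_or, Nat.testBit_xor, Nat.testBit_two_pow]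
    by_cases hx : F = i
    · subst hx
      have : Γ.testBit F = true := (H.bit F).2 ⟨hF, H.notF⟩
      simp [this]
    · have : decide (F = i) = false := by simpa using hx
      simp [this]
  · have h1 : gaps S = insert F (gaps (insert F S)) := by
      ext y
      simp only [gaps, Set.mem_ofPred_eq, Set.mem_insert_iff, not_or]
      constructor
      · rintro ⟨a, b⟩
        by_cases hy : y = F
        · exact Or.inl hy
        · exact Or.inr ⟨a, hy, b⟩
      · rintro (rfl | ⟨a, _, b⟩)
        · exact ⟨hF, H.notF⟩
        · exact ⟨a, b⟩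
    have hfin : (gaps (insert F S)).Finite := by
      refine (Set.finite_Iic F).subset fun y hy => ?_
      by_contra hlt'
      exact hy.2 (Set.mem_insert_of_mem _ (H.gtF y (not_le.1 hlt')))
    rw [genus, genus, h1, Set.ncard_insert_of_notMem _ hfin]
    simp [gaps]
  · simp only [irrB, List.all_eq_true, List.mem_range, Bool.or_eq_true, beq_iff_eq, hbit,
      Set.mem_insert_iff, not_or]
    intro a ha
    by_cases ha0 : a = 0
    · exact Or.inl (Or.inl ha0)
    · by_cases haS : a ∈ S
      · refine Or.inr ⟨by omega, by omega, fun hx => ?_⟩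
        apply H.notF
        have := H.add a haS _ hx
        rwa [show a + (F - a) = F by omega] at this
      · exact Or.inl (Or.inr ⟨by omega, by omega, haS⟩)

lemma dfs_succ (n g F Γ : ℕ) : dfs (n + 1) g F Γ = (chk g F Γ &&
    (List.range (2 * g + 2)).all fun f =>
      if F < f then (if irrB Γ f then dfs n (g + 1) f (Γ ||| 2 ^ f) else true) else true) := rfl

lemma dfs_of_code (N : ℕ) (h0 : dfs N 0 0 0 = true) (g : ℕ) (hg : g ≤ N) {S : Set ℕ} {F Γ : ℕ}
    (H : Code S F Γ) (hS : genus S = g) : dfs (N - g) g F Γ = true := by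
  induction g generalizing S F Γ with
  | zero =>
    have hF : F = 0 := by
      by_contra hne
      have := H.F_lt (by omega)
      omega
    subst hF
    have hΓ : Γ = 0 := by
      apply Nat.eq_of_testBit_eq
      intro i
      rw [Nat.zero_testBit]
      by_contra hne
      have := (H.bit i).1 (by simpa using hne)
      exact this.2 (H.gtF i this.1)
    subst hΓ
    simpa using h0
  | succ g ih =>
    have hF : 0 < F := by
      by_contra hne
      have hF0 : F = 0 := by omega
      subst hF0
      have : gaps S = ∅ := by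
        ext y
        simp only [gaps, Set.mem_ofPred_eq, Set.mem_empty_iff_false, iff_false]
        rintro ⟨a, b⟩
        exact b (H.gtF y a)
      rw [genus, this] at hS
      simp at hS
    obtain ⟨F', Γ', H', hlt, hΓ, hgen, hirr⟩ := H.parent hF
    have h1 := ih (by omega) H' (by omega)
    have hFlt := H.F_lt hF
    obtain ⟨n, hn⟩ : ∃ n, N - g = n + 1 := ⟨N - g - 1, by omega⟩
    rw [hn, dfs_succ, Bool.and_eq_true, List.all_eq_true] at h1
    have h2 := h1.2 F (List.mem_range.2 (by omega))
    rw [if_pos hlt, if_pos hirr, ← hΓ] at h2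
    rwa [show N - (g + 1) = n by omega]

lemma chk_of_dfs {n g F Γ : ℕ} (h : dfs n g F Γ = true) : chk g F Γ = true := by
  cases n with
  | zero => exact h
  | succ n =>
    rw [dfs_succ, Bool.and_eq_true] at h
    exact h.1

lemma exists_mask (s : Finset ℕ) : ∃ Γ : ℕ, ∀ x, Γ.testBit x = true ↔ x ∈ s := by
  induction s using Finset.induction_on with
  | empty => exact ⟨0, fun x => by simp⟩
  | insert a s _ ih =>
    obtain ⟨Γ, hΓ⟩ := ih
    refine ⟨Γ ||| 2 ^ a, fun x => ?_⟩
    rw [Nat.testBit_or, Nat.testBit_two_pow, Bool.or_eq_true, hΓ, mem_insert, decide_eq_true_eq]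
    constructor
    · rintro (h | h)
      · exact Or.inr h
      · exact Or.inl h.symm
    · rintro (h | h)
      · exact Or.inr h.symm
      · exact Or.inl h

/-- every numerical semigroup has a code -/
lemma exists_code {S : Set ℕ} (hS : IsNumSemigroup S) : ∃ F Γ, Code S F Γ := by
  obtain ⟨hpos, hadd, hfin⟩ := hS
  obtain ⟨F, hF⟩ : ∃ F, F ∉ S ∧ ∀ x, F < x → x ∈ S := by
    by_cases hne : {x : ℕ | 0 < x ∧ x ∉ S}.Nonempty
    · obtain ⟨F, hF, hmax⟩ := Set.exists_max_image _ id hfin hne
      refine ⟨F, hF.2, fun x hx => ?_⟩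
      by_contra hxS
      have := hmax x ⟨by omega, hxS⟩
      simp only [id] at this
      omega
    · refine ⟨0, fun h => absurd (hpos 0 h) (by omega), fun x hx => ?_⟩
      by_contra hxS
      exact hne ⟨x, hx, hxS⟩
  have hfin' : (gaps S).Finite := hfin
  obtain ⟨Γ, hΓ⟩ := exists_mask hfin'.toFinset
  refine ⟨F, Γ, ⟨hpos, hadd, hF.1, hF.2, fun x => ?_⟩⟩
  rw [hΓ, Set.Finite.mem_toFinset]
  rfl

end Pool.Agent.EffWeight
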