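import Pool.Agent.Lib_helper13.EWHigh

namespace Pool.Agent.EffWeight
open Finset Classical

section ctx
variable {S : Set ℕ} {m c : ℕ}

/-- irreducible classes at level `2` below `c` -/
noncomputable def D2 (S : Set ℕ) (m c : ℕ) : Finset ℕ := (DD S m 1).filter (fun i => i ≤ c)

noncomputable def U1 (S : Set ℕ) (m c : ℕ) : Finset ℕ := (G S m 1).filter (fun i => i ≤ c)
noncomputable def U2 (S : Set ℕ) (m c : ℕ) : Finset ℕ := (G S m 1).filter (fun i => ¬ i ≤ c)
noncomputable def X1 (S : Set ℕ) (m c : ℕ) : Finset ℕ := (XX S m).filter (fun i => i ≤ c)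
noncomputable def X2 (S : Set ℕ) (m c : ℕ) : Finset ℕ := (XX S m).filter (fun i => ¬ i ≤ c)

lemma Ctx.W2_two (H : Ctx S m 2 c) :
    W2 S m 2 c ≤ ∑ i ∈ D2 S m c, ((G S m 2).filter (fun j => i < j)).card := by
  have hm := H.mpos
  have hsub : (irrF S (2 * m + c)).filter (fun x => 2 * m ≤ x)
        ⊆ (D2 S m c).image (fun i => 2 * m + i) := by
    intro x hx
    rw [mem_filter, mem_irrF] at hx
    have hcm := H.cm
    rw [mem_image]
    have hirr : (1 + 1) * m + (x - 2 * m) ∈ irred S := by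
      have : (1 + 1) * m + (x - 2 * m) = x := by omega
      rw [this]; exact hx.1.2
    refine ⟨x - 2 * m, mem_filter.2 ⟨mem_DD.2 ⟨by omega, hirr⟩, by omega⟩, by omega⟩
  refine (sum_le_sum_of_subset hsub).trans ?_
  rw [sum_image (by intro a _ b _ hab; simpa using hab)]
  exact sum_le_sum fun i _ => H.h_top (i := i)

lemma Ctx.C_sub_U1 (H : Ctx S m 2 c) : G S m 2 ⊆ U1 S m c := by
  intro i hi
  exact mem_filter.2 ⟨H.G_anti (by omega) hi, H.le_c hi⟩

lemma Ctx.D2_sub_U1 (H : Ctx S m 2 c) : D2 S m c ⊆ U1 S m c :=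
  filter_subset_filter _ (H.DD_sub)

lemma D2_disj : Disjoint (D2 S m c) (G S m 2) :=
  disjoint_of_subset_left (filter_subset _ _) DD_disj

lemma xb_le_X1 {i : ℕ} (hi : i ≤ c) : xb S m i ≤ (X1 S m c).card := by
  refine card_le_card ?_
  intro a ha
  rw [mem_filter] at ha
  exact mem_filter.2 ⟨ha.1, by omega⟩

lemma Ctx.sum_split_two (H : Ctx S m 2 c) (f : ℕ → ℕ) :
    ∑ i ∈ G S m 1, f i = ∑ i ∈ U2 S m c, f i
      + ∑ i ∈ U1 S m c \ (D2 S m c ∪ G S m 2), f i
      + ∑ i ∈ D2 S m c, f i + ∑ i ∈ G S m 2, f i := by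
  rw [← sum_filter_add_sum_filter_not (G S m 1) (fun i => i ≤ c)]
  change ∑ i ∈ U1 S m c, f i + ∑ i ∈ U2 S m c, f i = _
  rw [← sum_sdiff (union_subset H.D2_sub_U1 H.C_sub_U1), sum_union D2_disj]
  ring

lemma Ctx.U1_card (H : Ctx S m 2 c) :
    (U1 S m c).card = (U1 S m c \ (D2 S m c ∪ G S m 2)).card + (D2 S m c).card
      + (G S m 2).card := by
  rw [← card_sdiff_add_card_eq_card (union_subset H.D2_sub_U1 H.C_sub_U1),
    card_union_of_disjoint D2_disj]
  ring

lemma G1_card : (G S m 1).card = (U1 S m c).card + (U2 S m c).card :=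
  (card_filter_add_card_filter_not _).symm

lemma XX_card : (XX S m).card = (X1 S m c).card + (X2 S m c).card :=
  (card_filter_add_card_filter_not _).symm

lemma Ctx.X1_le_U1 (H : Ctx S m 2 c) : (X1 S m c).card ≤ (U1 S m c).card := by
  refine card_le_card_of_injOn (fun a => c - a) ?_ ?_
  · intro a ha
    have ha' := mem_filter.1 (show a ∈ (XX S m).filter (fun i => i ≤ c) from ha)
    have h1 := H.reflect1 (s := 1) H.c_mem ha'.1 ha'.2
    exact mem_filter.2 ⟨h1, Nat.sub_le _ _⟩
  · intro a ha b hb hab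
    have ha' := mem_filter.1 (show a ∈ (XX S m).filter (fun i => i ≤ c) from ha)
    have hb' := mem_filter.1 (show b ∈ (XX S m).filter (fun i => i ≤ c) from hb)
    simp only at hab
    omega

lemma Ctx.xb_le_U1 (H : Ctx S m 2 c) {i : ℕ} (hi : i ∈ D2 S m c ∪ G S m 2) :
    xb S m i ≤ ((U1 S m c).filter (fun k => k ≤ i)).card := by
  have hic : i ≤ c := by
    rcases mem_union.1 hi with h1 | h1
    · exact (mem_filter.1 h1).2
    · exact H.le_c h1
  have h1 : xb S m i ≤ ((G S m 1).filter (fun k => k ≤ i)).card := by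
    refine xb_le_of_reflect fun a ha hai => ?_
    rcases mem_union.1 hi with h1 | h1
    · have h2 := mem_DD.1 (mem_filter.1 h1).1
      exact irr_reflect h2.1 h2.2 ha hai
    · exact H.reflect1 h1 ha hai
  refine h1.trans (card_le_card ?_)
  intro k hk
  rw [mem_filter] at hk ⊢
  exact ⟨mem_filter.2 ⟨hk.1, by omega⟩, hk.2⟩

lemma Ctx.group2D (H : Ctx S m 2 c) :
    2 * ∑ i ∈ D2 S m c, (xb S m i + ((G S m 2).filter (fun j => i < j)).card)
        + (D2 S m c).card * (D2 S m c).card
      ≤ 2 * ((D2 S m c).card * (U1 S m c).card) + (D2 S m c).card := by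
  refine group_bound _ _ _ fun i hi => ?_
  have h1 := H.xb_le_U1 (mem_union_left _ hi)
  have h2 := card_filter_le_gt (U1 S m c) i
  have h3 := card_filter_two_sub H.D2_sub_U1 H.C_sub_U1 D2_disj (fun j => i < j)
  omega

lemma Ctx.group2C (H : Ctx S m 2 c) :
    2 * ∑ i ∈ G S m 2, xb S m i + (G S m 2).card * (G S m 2).card
      ≤ 2 * ((G S m 2).card * (U1 S m c).card) + (G S m 2).card := by
  refine group_bound _ _ _ fun i hi => ?_
  have h1 := H.xb_le_U1 (mem_union_right _ hi)
  have h2 := card_filter_le_gt (U1 S m c) i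
  have h3 := card_le_card (filter_subset_filter (fun j => i < j) H.C_sub_U1)
  omega

lemma Ctx.RR_two (H : Ctx S m 2 c) : RR S m 2 c = (G S m 2).card := by
  rw [H.RR_eq 1 rfl]; simp

/-- the common part of the three estimates -/
lemma Ctx.two_common (H : Ctx S m 2 c) :
    effWeight S ≤ (U2 S m c).card * (XX S m).card + (XX S m).card * (G S m 2).card
      + ∑ i ∈ U1 S m c \ (D2 S m c ∪ G S m 2), xb S m i
      + ∑ i ∈ D2 S m c, (xb S m i + ((G S m 2).filter (fun j => i < j)).card)
      + ∑ i ∈ G S m 2, xb S m i := by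
  have e1 := H.effWeight_le
  have e2 := H.W2_two
  rw [H.RR_two, H.sum_split_two] at e1
  have e4 : ∑ i ∈ U2 S m c, xb S m i ≤ (U2 S m c).card * (XX S m).card := by
    rw [← smul_eq_mul, ← sum_const]
    exact sum_le_sum fun i _ => xb_le i
  rw [sum_add_distrib]
  omega

lemma rest_le :
    ∑ i ∈ U1 S m c \ (D2 S m c ∪ G S m 2), xb S m i
      ≤ (U1 S m c \ (D2 S m c ∪ G S m 2)).card * (X1 S m c).card := by
  rw [← smul_eq_mul, ← sum_const]
  exact sum_le_sum fun i hi => xb_le_X1 (mem_filter.1 (mem_sdiff.1 hi).1).2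

lemma Ctx.C_le (H : Ctx S m 2 c) :
    ∑ i ∈ G S m 2, xb S m i ≤ (G S m 2).card * (X1 S m c).card := by
  rw [← smul_eq_mul, ← sum_const]
  exact sum_le_sum fun i hi => xb_le_X1 (H.le_c hi)

lemma D_le : ∑ i ∈ D2 S m c, (xb S m i + ((G S m 2).filter (fun j => i < j)).card)
      ≤ (D2 S m c).card * ((X1 S m c).card + (G S m 2).card) := by
  rw [← smul_eq_mul, ← sum_const]
  exact sum_le_sum fun i hi => add_le_add (xb_le_X1 (mem_filter.1 hi).2) (card_filter_le _ _)

end ctx

/-! ### The case `F < 2m` -/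

lemma low_case {S : Set ℕ} {m : ℕ} (pos : ∀ x ∈ S, 0 < x) (mem : m ∈ S)
    (min : ∀ x ∈ S, m ≤ x) (h2 : ∀ x, 2 * m ≤ x → x ∈ S) :
    genus S + 1 = m + (G S m 1).card ∧ effWeight S ≤ ∑ i ∈ G S m 1, xb S m i := by
  have hm : 0 < m := pos m mem
  have hF : ∀ x, 2 * m - 1 < x → x ∈ S := fun x hx => h2 x (by omega)
  constructor
  · rw [genus_eq hF]
    have e1 : (gp S (2 * m - 1)).card = ((gp S (2 * m - 1)).filter (fun y => y < m)).card
        + ((gp S (2 * m - 1)).filter (fun y => ¬ y < m)).card :=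
      (card_filter_add_card_filter_not _).symm
    have e2 : ((gp S (2 * m - 1)).filter (fun y => y < m)).card = m - 1 := by
      have : (gp S (2 * m - 1)).filter (fun y => y < m) = Finset.Ico 1 m := by
        ext y
        simp only [mem_filter, mem_gp, mem_Ico]
        constructor
        · rintro ⟨⟨a, b, c⟩, d⟩; exact ⟨b, d⟩
        · rintro ⟨a, b⟩
          exact ⟨⟨by omega, a, fun hy => absurd (min y hy) (by omega)⟩, b⟩
      rw [this, Nat.card_Ico]
    have e3 : ((gp S (2 * m - 1)).filter (fun y => ¬ y < m)).card = (G S m 1).card := by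
      symm
      refine card_bij (fun j _ => m + j) ?_ ?_ ?_
      · intro j hj
        rw [mem_G, one_mul] at hj
        rw [mem_filter, mem_gp]
        exact ⟨⟨by omega, by omega, hj.2⟩, by omega⟩
      · intro a _ b _ hab
        omega
      · intro y hy
        rw [mem_filter, mem_gp] at hy
        refine ⟨y - m, ?_, by omega⟩
        rw [mem_G, one_mul, Nat.add_sub_cancel' (by omega)]
        exact ⟨by omega, hy.1.2.2⟩
    omega
  · rw [effWeight_eq hF]
    have e2 : ∑ x ∈ irrF S (2 * m - 1), h S (2 * m - 1) x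
        ≤ ∑ x ∈ (XX S m).image (fun a => m + a), h S (2 * m - 1) x := by
      refine sum_le_sum_of_subset ?_
      intro x hx
      rw [mem_irrF] at hx
      have hxm := min x hx.2.1
      rw [mem_image]
      refine ⟨x - m, mem_XX.2 ⟨by omega, ?_⟩, by omega⟩
      rw [Nat.add_sub_cancel' hxm]
      exact hx.2.1
    refine e2.trans ?_
    rw [sum_image (by intro a _ b _ hab; simpa using hab)]
    have e4 : ∑ a ∈ XX S m, h S (2 * m - 1) (m + a) ≤
        ∑ a ∈ XX S m, ((G S m 1).filter (fun j => a < j)).card := by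
      refine sum_le_sum fun a _ => ?_
      refine card_le_card_of_injOn (fun y => y - m) ?_ ?_
      · intro y hy
        have h0 := mem_filter.1 hy
        have h1 := mem_gp.1 h0.1
        have : y - m ∈ (G S m 1).filter (fun j => a < j) := by
          rw [mem_filter, mem_G, one_mul, Nat.add_sub_cancel' (by omega)]
          exact ⟨⟨by omega, h1.2.2⟩, by omega⟩
        exact this
      · intro a ha b hb hab
        have h1 := (mem_filter.1 ha).2
        have h2 := (mem_filter.1 hb).2
        simp only at hab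
        omega
    rw [sum_card_gt_eq] at e4
    exact e4

end Pool.Agent.EffWeight
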