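import Mathlib

/-!
# Toric ideals of smooth lattice polytopes with long edges

Let `P` be a smooth lattice polytope of dimension `d` all of whose edges have lattice length at
least `N ≥ 2 d (d+1) (d+2)`.  Then the toric ideal of `P` is generated by quadrics.

Steps.
* `auerbach`: a finite family of vectors contains at most `dim` members such that every member is a
  combination of them with coefficients in `[-1, 1]` (maximal determinant, Cramer's rule).
* `Cor.deep`: a point `p` of a face all of whose facet distances are at least `r (r+1)` is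
  `t x + (1 - t) y`, `x` a lattice point, `1 - t ≤ r (r+1) / N`.
* `Cor.shallow`: a point close to a facet is `(1 - μ) q + μ y` with `q` on the facet and `μ` small.
* `Cor.round`: induction over the faces: every point `p` of `P` is `t x + (1 - t) y` with `x ∈ P` a
  lattice point, `y ∈ P`, and `t ≥ 5/6`.
* `connect`: this rounding property connects any two monomials of a fiber by quadratic moves.
* `main`: the toric ideal is generated by quadrics.
-/

set_option autoImplicit false

namespace Pool.LongEdges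
open scoped BigOperators

/-- Auerbach type lemma: a finite family of vectors contains at most `finrank` members such that
every member is a combination of them with coefficients of absolute value at most one. -/
theorem auerbach {W : Type*} [AddCommGroup W] [Module ℝ W] [FiniteDimensional ℝ W]
    {J : Type*} [Finite J] (w : J → W) :
    ∃ (n : ℕ) (f : Fin n → J), n ≤ Module.finrank ℝ W ∧
      ∀ j, ∃ l : Fin n → ℝ, (∀ k, |l k| ≤ 1) ∧ w j = ∑ k, l k • w (f k) := by
  classical
  -- the span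
  set U : Submodule ℝ W := Submodule.span ℝ (Set.range w) with hU
  have hmem : ∀ j, w j ∈ U := fun j => Submodule.subset_span ⟨j, rfl⟩
  set w' : J → U := fun j => ⟨w j, hmem j⟩ with hw'
  set n := Module.finrank ℝ U with hn
  have hspan : Submodule.span ℝ (Set.range w') = ⊤ := by
    have h1 : (Submodule.span ℝ (Set.range w')).map U.subtype = (⊤ : Submodule ℝ U).map U.subtype := by
      rw [Submodule.map_span, ← Set.range_comp]
      rw [Submodule.map_top, Submodule.range_subtype]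
      rfl
    exact Submodule.map_injective_of_injective U.injective_subtype h1
  -- basis for determinants
  let b : Module.Basis (Fin n) ℝ U := Module.finBasis ℝ U
  -- existence of independent selection
  obtain ⟨f0, hf0⟩ : ∃ f0 : Fin n → J, b.det (w' ∘ f0) ≠ 0 := by
    obtain ⟨s, hs1, hs2, hs3⟩ := exists_linearIndependent ℝ (Set.range w')
    have hsb : Submodule.span ℝ s = ⊤ := by rw [hs2, hspan]
    let bs : Module.Basis s ℝ U := Module.Basis.mk hs3 (by simpa using hsb.ge)
    let fs : Fintype s := Module.Basis.fintypeIndexOfRankLtAleph0 (b := bs) (by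
      rw [← Module.finrank_eq_rank]; exact Cardinal.natCast_lt_aleph0)
    have hcard : Fintype.card s = n := by
      rw [hn, Module.finrank_eq_card_basis bs]
    let eqv : Fin n ≃ s := (Fintype.equivFinOfCardEq hcard).symm
    have hex : ∀ x : s, ∃ j, w' j = x.1 := fun x => hs1 x.2
    choose g hg using hex
    refine ⟨fun i => g (eqv i), ?_⟩
    have hb' : (w' ∘ fun i => g (eqv i)) = (bs.reindex eqv.symm) := by
      funext i
      simp [hg, bs]
    rw [hb']
    exact (b.isUnit_det (bs.reindex eqv.symm)).ne_zero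
  -- maximal one
  have hne : Nonempty (Fin n → J) := ⟨f0⟩
  obtain ⟨f, hf⟩ := Finite.exists_max (fun f : Fin n → J => |b.det (w' ∘ f)|)
  have hpos : 0 < |b.det (w' ∘ f)| := lt_of_lt_of_le (abs_pos.mpr hf0) (hf f0)
  have hunit : IsUnit (b.det (w' ∘ f)) := isUnit_iff_ne_zero.mpr (abs_pos.mp hpos)
  have hbas := (Module.Basis.is_basis_iff_det b).mpr hunit
  let b' : Module.Basis (Fin n) ℝ U := Module.Basis.mk hbas.1 hbas.2.ge
  have hb' : ∀ k, b' k = w' (f k) := fun k => by simp [b']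
  have hb'f : (w' ∘ f) = b' := by funext k; simp [hb']
  refine ⟨n, f, Submodule.finrank_le U, fun j => ⟨fun k => b'.repr (w' j) k, ?_, ?_⟩⟩
  · intro k
    have h1 : b.det (Function.update (w' ∘ f) k (w' j)) =
        b.det (w' ∘ f) * b'.repr (w' j) k := by
      have h2 : b.det = b.det b' • b'.det := b.det.eq_smul_basis_det b'
      have h3 : b'.det (Function.update (b' : Fin n → U) k (w' j)) = b'.repr (w' j) k := by
        rw [Module.Basis.det_apply, Module.Basis.toMatrix_update, Module.Basis.toMatrix_self]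
        have := congrFun (congrFun (congrArg DFunLike.coe (Matrix.cramer_one (n := Fin n) (α := ℝ))) (b'.repr (w' j) : Fin n → ℝ)) k
        rw [Matrix.cramer_apply] at this
        exact this
      rw [hb'f]
      conv_lhs => rw [h2]
      simp only [AlternatingMap.smul_apply, smul_eq_mul]
      rw [h3]
    have h4 : Function.update (w' ∘ f) k (w' j) = w' ∘ (Function.update f k j) := by
      rw [Function.comp_update]
    have h5 := hf (Function.update f k j)
    rw [← h4, h1, abs_mul] at h5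
    by_contra hcon
    push Not at hcon
    nlinarith
  · have h1 : w' j = ∑ k, b'.repr (w' j) k • b' k := (b'.sum_repr (w' j)).symm
    have h2 := congrArg (Subtype.val) h1
    simp only [hb', Submodule.coe_sum, Submodule.coe_smul, hw'] at h2
    exact h2


/-- membership in the convex hull of a finite family -/
theorem mem_hull_iff {E : Type*} [AddCommGroup E] [Module ℝ E] {ι : Type*} [Fintype ι]
    (v : ι → E) (x : E) :
    x ∈ convexHull ℝ (Set.range v) ↔
      ∃ w : ι → ℝ, (∀ i, 0 ≤ w i) ∧ ∑ i, w i = 1 ∧ ∑ i, w i • v i = x := by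
  classical
  constructor
  · intro hx
    have hsub : convexHull ℝ (Set.range v) ⊆
        {x | ∃ w : ι → ℝ, (∀ i, 0 ≤ w i) ∧ ∑ i, w i = 1 ∧ ∑ i, w i • v i = x} := by
      apply convexHull_min
      · rintro _ ⟨i, rfl⟩
        refine ⟨fun j => if j = i then 1 else 0, fun j => by dsimp only; split_ifs <;> norm_num, by simp, by simp⟩
      · rintro x ⟨w, hw0, hw1, rfl⟩ y ⟨w', hw0', hw1', rfl⟩ a b ha hb hab
        refine ⟨fun i => a * w i + b * w' i, fun i => ?_, ?_, ?_⟩
        · have := hw0 i; have := hw0' i; positivity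
        · rw [Finset.sum_add_distrib, ← Finset.mul_sum, ← Finset.mul_sum, hw1, hw1']; simpa using hab
        · simp only [add_smul, mul_smul, Finset.sum_add_distrib, Finset.smul_sum]
    exact hsub hx
  · rintro ⟨w, hw0, hw1, rfl⟩
    exact (convex_convexHull ℝ _).sum_mem (fun i _ => hw0 i) hw1
      (fun i _ => subset_convexHull ℝ _ ⟨i, rfl⟩)

/-- A smooth lattice polytope with vertices `vtx`, unimodular edge bases `e`, dual functionals `φ`,
all of whose edges have lattice length at least `N`. -/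
structure Cor (E : Type) [NormedAddCommGroup E] [NormedSpace ℝ E] (d N : ℕ) where
  ι : Type
  fin : Fintype ι
  vtx : ι → E
  e : ι → Fin d → E
  φ : ι → Fin d → E →ₗ[ℝ] ℝ
  Λ : AddSubgroup E
  hv : ∀ a, vtx a ∈ Λ
  he : ∀ a i, e a i ∈ Λ
  hint : ∀ a i z, z ∈ Λ → ∃ n : ℤ, φ a i z = n
  hrep : ∀ a y, y = ∑ i, φ a i y • e a i
  hdual : ∀ a i j, φ a i (e a j) = if i = j then 1 else 0
  hpos : ∀ a b i, 0 ≤ φ a i (vtx b - vtx a)
  hedge : ∀ a i, vtx a + (N : ℝ) • e a i ∈ convexHull ℝ (Set.range vtx)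

namespace Cor

variable {E : Type} [NormedAddCommGroup E] [NormedSpace ℝ E] {d N : ℕ} (C : Cor E d N)

attribute [instance] Cor.fin

/-- the polytope -/
def P : Set E := convexHull ℝ (Set.range C.vtx)

/-- facet distances -/
noncomputable def Φ (j : C.ι × Fin d) (y : E) : ℝ := C.φ j.1 j.2 (y - C.vtx j.1)

theorem convP : Convex ℝ C.P := convex_convexHull ℝ _

theorem vtx_mem (a : C.ι) : C.vtx a ∈ C.P := subset_convexHull ℝ _ ⟨a, rfl⟩

theorem Φ_add_smul (j : C.ι × Fin d) (y z : E) (t : ℝ) :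
    C.Φ j (y + t • z) = C.Φ j y + t * C.φ j.1 j.2 z := by
  unfold Φ
  rw [add_sub_right_comm, map_add, map_smul, smul_eq_mul]

theorem Φ_sum (j : C.ι × Fin d) {κ : Type*} (s : Finset κ) (w : κ → ℝ) (z : κ → E)
    (hw : ∑ i ∈ s, w i = 1) : C.Φ j (∑ i ∈ s, w i • z i) = ∑ i ∈ s, w i * C.Φ j (z i) := by
  unfold Φ
  have h : ∑ i ∈ s, w i • z i - C.vtx j.1 = ∑ i ∈ s, w i • (z i - C.vtx j.1) := by
    simp only [smul_sub, Finset.sum_sub_distrib, ← Finset.sum_smul, hw, one_smul]
  rw [h, map_sum]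
  simp

theorem Φ_comb (j : C.ι × Fin d) (y z : E) (a b : ℝ) (hab : a + b = 1) :
    C.Φ j (a • y + b • z) = a * C.Φ j y + b * C.Φ j z := by
  unfold Φ
  have h : a • y + b • z - C.vtx j.1 = a • (y - C.vtx j.1) + b • (z - C.vtx j.1) := by
    have : C.vtx j.1 = (a + b) • C.vtx j.1 := by rw [hab, one_smul]
    conv_lhs => rw [this]
    simp only [smul_sub, add_smul]
    abel
  rw [h]; simp

theorem Φ_rep (a : C.ι) (y : E) : y = C.vtx a + ∑ i, C.Φ (a, i) y • C.e a i := by
  have := C.hrep a (y - C.vtx a)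
  unfold Φ
  rw [← this]; abel

theorem Φ_vtx_self (a : C.ι) (i : Fin d) : C.Φ (a, i) (C.vtx a) = 0 := by
  unfold Φ; simp

theorem Φ_rep' (j : C.ι × Fin d) (a : C.ι) (y : E) :
    C.Φ j y = C.Φ j (C.vtx a) + ∑ i, C.Φ (a, i) y * C.φ j.1 j.2 (C.e a i) := by
  conv_lhs => rw [C.Φ_rep a y]
  have : C.Φ j (C.vtx a + ∑ i, C.Φ (a, i) y • C.e a i) =
      C.Φ j (C.vtx a) + C.φ j.1 j.2 (∑ i, C.Φ (a, i) y • C.e a i) := by
    have := C.Φ_add_smul j (C.vtx a) (∑ i, C.Φ (a, i) y • C.e a i) 1
    simpa using this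
  rw [this, map_sum]
  simp

theorem Φ_nonneg (j : C.ι × Fin d) {y : E} (hy : y ∈ C.P) : 0 ≤ C.Φ j y := by
  obtain ⟨w, hw0, hw1, rfl⟩ := (mem_hull_iff C.vtx y).mp hy
  rw [C.Φ_sum j Finset.univ w C.vtx hw1]
  exact Finset.sum_nonneg fun i _ => mul_nonneg (hw0 i) (C.hpos j.1 i j.2)

theorem edge_mem (a : C.ι) (i : Fin d) {s : ℝ} (hs0 : 0 ≤ s) (hs : s ≤ N) :
    C.vtx a + s • C.e a i ∈ C.P := by
  rcases Nat.eq_zero_or_pos N with hN | hN
  · have : s = 0 := by
      apply le_antisymm _ hs0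
      simpa [hN] using hs
    rw [this]; simpa using C.vtx_mem a
  · have hN' : (0 : ℝ) < N := by exact_mod_cast hN
    have h := C.convP (C.vtx_mem a) (C.hedge a i) (a := 1 - s / N) (b := s / N)
      (by rw [sub_nonneg, div_le_one hN']; exact hs) (by positivity) (by ring)
    have h2 : (1 - s / N) • C.vtx a + (s / N) • (C.vtx a + (N : ℝ) • C.e a i) =
        C.vtx a + s • C.e a i := by
      rw [smul_add, ← add_assoc, ← add_smul, smul_smul]
      congr 1
      · rw [sub_add_cancel, one_smul]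
      · congr 1; field_simp
    rwa [h2] at h

/-- the face on which the facet distances of `T` vanish -/
def G (T : Set (C.ι × Fin d)) : Set E := {x | x ∈ C.P ∧ ∀ j ∈ T, C.Φ j x = 0}

/-- vertices of the face -/
def V (T : Set (C.ι × Fin d)) : Set C.ι := {a | ∀ j ∈ T, C.Φ j (C.vtx a) = 0}

/-- edge directions of the face at a vertex -/
noncomputable def I (T : Set (C.ι × Fin d)) (a : C.ι) : Finset (Fin d) := by
  classical
  exact Finset.univ.filter fun i => ∀ j ∈ T, C.φ j.1 j.2 (C.e a i) = 0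

theorem mem_I {T : Set (C.ι × Fin d)} {a : C.ι} {i : Fin d} :
    i ∈ C.I T a ↔ ∀ j ∈ T, C.φ j.1 j.2 (C.e a i) = 0 := by
  classical
  simp [I]

theorem convG (T : Set (C.ι × Fin d)) : Convex ℝ (C.G T) := by
  rintro x ⟨hx, hx'⟩ y ⟨hy, hy'⟩ a b ha hb hab
  refine ⟨C.convP hx hy ha hb hab, fun j hj => ?_⟩
  rw [C.Φ_comb j x y a b hab, hx' j hj, hy' j hj]; ring

theorem V_mem {T : Set (C.ι × Fin d)} {a : C.ι} (ha : a ∈ C.V T) : C.vtx a ∈ C.G T :=
  ⟨C.vtx_mem a, ha⟩

/-- the face is the hull of its vertices -/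
theorem G_hull {T : Set (C.ι × Fin d)} {x : E} (hx : x ∈ C.G T) :
    ∃ w : C.ι → ℝ, (∀ i, 0 ≤ w i) ∧ ∑ i, w i = 1 ∧ ∑ i, w i • C.vtx i = x ∧
      ∀ i, w i ≠ 0 → i ∈ C.V T := by
  obtain ⟨w, hw0, hw1, hwx⟩ := (mem_hull_iff C.vtx x).mp hx.1
  refine ⟨w, hw0, hw1, hwx, fun i hi j hj => ?_⟩
  have h1 := hx.2 j hj
  rw [← hwx, C.Φ_sum j Finset.univ w C.vtx hw1] at h1
  have h2 := (Finset.sum_eq_zero_iff_of_nonneg (fun i _ =>
    mul_nonneg (hw0 i) (C.Φ_nonneg j (C.vtx_mem i)))).mp h1 i (Finset.mem_univ i)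
  rcases mul_eq_zero.mp h2 with h | h
  · exact absurd h hi
  · exact h

theorem V_nonempty {T : Set (C.ι × Fin d)} {x : E} (hx : x ∈ C.G T) : (C.V T).Nonempty := by
  obtain ⟨w, hw0, hw1, hwx, hV⟩ := C.G_hull hx
  by_contra hcon
  have : ∀ i, w i = 0 := fun i => by
    by_contra h
    exact hcon ⟨i, hV i h⟩
  simp [this] at hw1

theorem slope_nonneg {T : Set (C.ι × Fin d)} {a : C.ι} (ha : a ∈ C.V T) (hN : 0 < N)
    {j : C.ι × Fin d} (hj : j ∈ T) (i : Fin d) : 0 ≤ C.φ j.1 j.2 (C.e a i) := by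
  have h := C.Φ_nonneg j (C.hedge a i)
  rw [C.Φ_add_smul, ha j hj, zero_add] at h
  have hN' : (0 : ℝ) < N := by exact_mod_cast hN
  exact nonneg_of_mul_nonneg_right h hN'

/-- coordinates off the face vanish -/
theorem coord_zero {T : Set (C.ι × Fin d)} {a : C.ι} (ha : a ∈ C.V T) (hN : 0 < N)
    {i : Fin d} (hi : i ∉ C.I T a) {x : E} (hx : x ∈ C.G T) : C.Φ (a, i) x = 0 := by
  rw [mem_I] at hi
  push Not at hi
  obtain ⟨j, hj, hne⟩ := hi
  have h1 := C.Φ_rep' j a x
  rw [hx.2 j hj, ha j hj, zero_add] at h1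
  have h2 := (Finset.sum_eq_zero_iff_of_nonneg (fun i _ =>
    mul_nonneg (C.Φ_nonneg (a, i) hx.1) (C.slope_nonneg ha hN hj i))).mp h1.symm i (Finset.mem_univ i)
  rcases mul_eq_zero.mp h2 with h | h
  · exact h
  · exact absurd h hne

theorem edge_mem_G {T : Set (C.ι × Fin d)} {a : C.ι} (ha : a ∈ C.V T)
    {i : Fin d} (hi : i ∈ C.I T a) {s : ℝ} (hs0 : 0 ≤ s) (hs : s ≤ N) :
    C.vtx a + s • C.e a i ∈ C.G T := by
  refine ⟨C.edge_mem a i hs0 hs, fun j hj => ?_⟩
  rw [C.Φ_add_smul, ha j hj, (C.mem_I.mp hi) j hj]; ring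

/-- functionals vanishing on the face kill the edge directions of the face -/
theorem slope_zero {T : Set (C.ι × Fin d)} {a b : C.ι} (ha : a ∈ C.V T) (hb : b ∈ C.V T)
    (hN : 0 < N) {i k : Fin d} (hi : i ∉ C.I T a) (hk : k ∈ C.I T b) :
    C.φ a i (C.e b k) = 0 := by
  have h1 := C.coord_zero ha hN hi (C.edge_mem_G hb hk (s := N) (by positivity) le_rfl)
  have h2 := C.coord_zero ha hN hi (C.V_mem hb)
  rw [C.Φ_add_smul, h2, zero_add] at h1
  have hN' : (N : ℝ) ≠ 0 := by positivity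
  rcases mul_eq_zero.mp h1 with h | h
  · exact absurd h hN'
  · exact h

/-- the face is cut out by its facet inequalities -/
theorem mem_G_of [FiniteDimensional ℝ E] {T : Set (C.ι × Fin d)} (hN : 0 < N) {a0 : C.ι}
    (ha0 : a0 ∈ C.V T) {y : E}
    (h1 : ∀ a ∈ C.V T, ∀ i, 0 ≤ C.Φ (a, i) y) (h2 : ∀ a ∈ C.V T, ∀ i, i ∉ C.I T a → C.Φ (a, i) y = 0) :
    y ∈ C.G T := by
  classical
  -- hull of the vertices of the face
  set H : Set E := convexHull ℝ (C.vtx '' C.V T) with hH
  have hHG : H ⊆ C.G T := by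
    apply convexHull_min _ (C.convG T)
    rintro _ ⟨a, ha, rfl⟩
    exact C.V_mem ha
  apply hHG
  by_contra hy
  have hfin : (C.vtx '' C.V T).Finite := Set.toFinite _
  have hclosed : IsClosed H := hfin.isClosed_convexHull (𝕜 := ℝ)
  obtain ⟨f, u, hfu, hfH⟩ := geometric_hahn_banach_point_closed (convex_convexHull ℝ _) hclosed hy
  -- minimizing vertex
  have hVfin : (C.V T).Finite := Set.toFinite _
  obtain ⟨a, ha, hmin⟩ := Set.exists_min_image (C.V T) (fun a => f (C.vtx a)) hVfin ⟨a0, ha0⟩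
  have hfG : ∀ x ∈ C.G T, f (C.vtx a) ≤ f x := by
    intro x hx
    obtain ⟨w, hw0, hw1, hwx, hV⟩ := C.G_hull hx
    rw [← hwx, map_sum]
    have : f (C.vtx a) = ∑ i, w i * f (C.vtx a) := by rw [← Finset.sum_mul, hw1, one_mul]
    rw [this]
    apply Finset.sum_le_sum
    intro i _
    rw [map_smul, smul_eq_mul]
    by_cases hi : w i = 0
    · simp [hi]
    · exact mul_le_mul_of_nonneg_left (hmin i (hV i hi)) (hw0 i)
  have hslope : ∀ i ∈ C.I T a, 0 ≤ f (C.e a i) := by
    intro i hi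
    have h := hfG _ (C.edge_mem_G ha hi (s := N) (by positivity) le_rfl)
    rw [map_add, map_smul, smul_eq_mul] at h
    have hN' : (0 : ℝ) < N := by exact_mod_cast hN
    by_contra hcon
    push Not at hcon
    nlinarith
  have hfy : f (C.vtx a) ≤ f y := by
    conv_rhs => rw [C.Φ_rep a y]
    rw [map_add, map_sum]
    have : 0 ≤ ∑ i, f (C.Φ (a, i) y • C.e a i) := by
      apply Finset.sum_nonneg
      intro i _
      rw [map_smul, smul_eq_mul]
      by_cases hi : i ∈ C.I T a
      · exact mul_nonneg (h1 a ha i) (hslope i hi)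
      · rw [h2 a ha i hi]; simp
    linarith
  have : u < f (C.vtx a) := hfH _ (subset_convexHull ℝ _ ⟨a, ha, rfl⟩)
  linarith


/-- the deep case: all facet distances of `p` within the face are at least `r (r + 1)` -/
theorem deep [FiniteDimensional ℝ E] {T : Set (C.ι × Fin d)} {r : ℕ} (hr1 : 1 ≤ r)
    (hr : ∀ a ∈ C.V T, (C.I T a).card ≤ r) (hN : r * (r + 1) ≤ N) {p : E} (hp : p ∈ C.G T)
    (hdeep : ∀ a ∈ C.V T, ∀ i ∈ C.I T a, ((r : ℝ) * (r + 1)) ≤ C.Φ (a, i) p) :
    ∃ x ∈ C.G T, x ∈ C.Λ ∧ ∃ y ∈ C.G T, ∃ t : ℝ, 1 - (r : ℝ) * (r + 1) / N ≤ t ∧ t ≤ 1 ∧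
      p = t • x + (1 - t) • y := by
  classical
  have hK : (0 : ℝ) < (r : ℝ) * (r + 1) := by
    have : (1 : ℝ) ≤ r := by exact_mod_cast hr1
    positivity
  have hKN : ((r : ℝ) * (r + 1)) ≤ N := by exact_mod_cast hN
  have hNpos' : (0 : ℝ) < N := lt_of_lt_of_le hK hKN
  have hNpos : 0 < N := by exact_mod_cast hNpos'
  obtain ⟨a0, ha0⟩ := C.V_nonempty hp
  -- facets of the face
  let J : Type := {j : C.ι × Fin d // j.1 ∈ C.V T ∧ j.2 ∈ C.I T j.1}
  have hJpos : ∀ j : J, 0 < C.Φ j.1 p := fun j => lt_of_lt_of_le hK (hdeep _ j.2.1 _ j.2.2)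
  -- normalised distances
  let ψ : J → E → ℝ := fun j x => C.Φ j.1 x / C.Φ j.1 p
  let ψ' : J → E → ℝ := fun j x => C.φ j.1.1 j.1.2 x / C.Φ j.1 p
  have hψp : ∀ j, ψ j p = 1 := fun j => div_self (hJpos j).ne'
  have hψ0 : ∀ j x, x ∈ C.G T → 0 ≤ ψ j x := fun j x hx =>
    div_nonneg (C.Φ_nonneg _ hx.1) (hJpos j).le
  have hψadd : ∀ (j : J) (y z : E) (t : ℝ), ψ j (y + t • z) = ψ j y + t * ψ' j z := by
    intro j y z t
    simp only [ψ, ψ', C.Φ_add_smul]
    ring
  let κ : Type := Option {i // i ∈ C.I T a0}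
  let w : J → (κ → ℝ) := fun j o => match o with
    | none => ψ j (C.vtx a0)
    | some i => ψ' j (C.e a0 i.1)
  obtain ⟨n, f, hn, hf⟩ := auerbach w
  have hn' : n ≤ r + 1 := by
    refine hn.trans ?_
    rw [Module.finrank_fintype_fun_eq_card]
    simp only [κ, Fintype.card_option, Fintype.card_coe]
    have := hr a0 ha0
    omega
  -- representation of the normalised distances on the face
  have hrepψ : ∀ (j : J) (x : E), x ∈ C.G T →
      ψ j x = w j none + ∑ i : {i // i ∈ C.I T a0}, C.Φ (a0, i.1) x * w j (some i) := by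
    intro j x hx
    have h1 := C.Φ_rep' j.1 a0 x
    have h2 : ∑ i, C.Φ (a0, i) x * C.φ j.1.1 j.1.2 (C.e a0 i) =
        ∑ i ∈ C.I T a0, C.Φ (a0, i) x * C.φ j.1.1 j.1.2 (C.e a0 i) := by
      symm
      apply Finset.sum_subset (Finset.subset_univ _)
      intro i _ hi
      rw [C.coord_zero ha0 hNpos hi hx]; ring
    rw [h2, ← Finset.sum_coe_sort] at h1
    simp only [ψ, w, ψ']
    rw [h1, add_div, Finset.sum_div]
    congr 1
    apply Finset.sum_congr rfl
    intro i _
    ring
  have hlin : ∀ j : J, ∃ l : Fin n → ℝ, (∀ k, |l k| ≤ 1) ∧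
      ∀ x ∈ C.G T, ψ j x = ∑ k, l k * ψ (f k) x := by
    intro j
    obtain ⟨l, hl, hlw⟩ := hf j
    refine ⟨l, hl, fun x hx => ?_⟩
    have e1 : ∀ o : κ, w j o = ∑ k, l k * w (f k) o := by
      intro o
      have := congrFun hlw o
      simpa [Finset.sum_apply] using this
    rw [hrepψ j x hx, e1 none]
    have e2 : ∀ k, l k * ψ (f k) x = l k * w (f k) none +
        ∑ i : {i // i ∈ C.I T a0}, C.Φ (a0, i.1) x * (l k * w (f k) (some i)) := by
      intro k
      rw [hrepψ (f k) x hx, mul_add, Finset.mul_sum]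
      congr 1
      apply Finset.sum_congr rfl
      intro i _; ring
    simp only [e2, Finset.sum_add_distrib]
    congr 1
    rw [Finset.sum_comm]
    apply Finset.sum_congr rfl
    intro i _
    rw [e1 (some i), Finset.mul_sum]
  -- the sum
  let Θ : E → ℝ := fun x => ∑ k, ψ (f k) x
  let Θ' : E → ℝ := fun x => ∑ k, ψ' (f k) x
  have hΘp : Θ p = n := by simp [Θ, hψp]
  have hΘadd : ∀ (y z : E) (t : ℝ), Θ (y + t • z) = Θ y + t * Θ' z := by
    intro y z t
    simp only [Θ, Θ', hψadd, Finset.sum_add_distrib, Finset.mul_sum]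
  have hψΘ : ∀ (j : J) (x : E), x ∈ C.G T → ψ j x ≤ Θ x := by
    intro j x hx
    obtain ⟨l, hl, hlx⟩ := hlin j
    rw [hlx x hx]
    apply Finset.sum_le_sum
    intro k _
    have h1 := hψ0 (f k) x hx
    have h2 := (abs_le.mp (hl k)).2
    nlinarith
  -- minimizing vertex
  obtain ⟨v, hv, hmin⟩ := Set.exists_min_image (C.V T) (fun a => Θ (C.vtx a)) (Set.toFinite _) ⟨a0, ha0⟩
  have hΘsum : ∀ (u : C.ι → ℝ), ∑ i, u i = 1 → Θ (∑ i, u i • C.vtx i) = ∑ i, u i * Θ (C.vtx i) := by
    intro u hu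
    simp only [Θ, ψ]
    simp only [C.Φ_sum _ Finset.univ u C.vtx hu, Finset.sum_div, Finset.mul_sum]
    rw [Finset.sum_comm]
    apply Finset.sum_congr rfl; intro i _
    apply Finset.sum_congr rfl; intro k _
    ring
  have hminG : ∀ x ∈ C.G T, Θ (C.vtx v) ≤ Θ x := by
    intro x hx
    obtain ⟨u, hu0, hu1, hux, hV⟩ := C.G_hull hx
    rw [← hux, hΘsum u hu1]
    have : Θ (C.vtx v) = ∑ i, u i * Θ (C.vtx v) := by rw [← Finset.sum_mul, hu1, one_mul]
    rw [this]
    apply Finset.sum_le_sum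
    intro i _
    by_cases hi : u i = 0
    · simp [hi]
    · exact mul_le_mul_of_nonneg_left (hmin i (hV i hi)) (hu0 i)
  have hΘ'0 : ∀ i ∈ C.I T v, 0 ≤ Θ' (C.e v i) := by
    intro i hi
    have h := hminG _ (C.edge_mem_G hv hi (s := N) (by positivity) le_rfl)
    rw [hΘadd] at h
    by_contra hcon
    push Not at hcon
    nlinarith
  have hΘrep : Θ p = Θ (C.vtx v) + ∑ i ∈ C.I T v, C.Φ (v, i) p * Θ' (C.e v i) := by
    have h1 : ∀ k, ψ (f k) p = ψ (f k) (C.vtx v) + ∑ i ∈ C.I T v, C.Φ (v, i) p * ψ' (f k) (C.e v i) := by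
      intro k
      have h1 := C.Φ_rep' (f k).1 v p
      have h2 : ∑ i, C.Φ (v, i) p * C.φ (f k).1.1 (f k).1.2 (C.e v i) =
          ∑ i ∈ C.I T v, C.Φ (v, i) p * C.φ (f k).1.1 (f k).1.2 (C.e v i) := by
        symm
        apply Finset.sum_subset (Finset.subset_univ _)
        intro i _ hi
        rw [C.coord_zero hv hNpos hi hp]; ring
      rw [h2] at h1
      have h3 := congrArg (· / C.Φ (f k).1 p) h1
      simp only [add_div, Finset.sum_div] at h3
      simp only [ψ, ψ']
      rw [h3]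
      congr 1
      apply Finset.sum_congr rfl
      intro i _
      ring
    simp only [Θ, Θ']
    simp only [h1, Finset.sum_add_distrib]
    congr 1
    rw [Finset.sum_comm]
    apply Finset.sum_congr rfl
    intro i _
    rw [Finset.mul_sum]
  have hn'' : (n : ℝ) ≤ r + 1 := by exact_mod_cast hn'
  -- slopes
  have hup : ∀ (j : J), ∀ i ∈ C.I T v, ψ' j (C.e v i) ≤ 1 / r := by
    intro j i hi
    have hmem := C.edge_mem_G hv hi (s := (r : ℝ) * (r + 1)) hK.le hKN
    have h1 := hψΘ j _ hmem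
    rw [hψadd, hΘadd] at h1
    have h2 : Θ (C.vtx v) + ((r : ℝ) * (r + 1)) * Θ' (C.e v i) ≤ Θ p := by
      rw [hΘrep]
      have h3 : ((r : ℝ) * (r + 1)) * Θ' (C.e v i) ≤ C.Φ (v, i) p * Θ' (C.e v i) :=
        mul_le_mul_of_nonneg_right (hdeep v hv i hi) (hΘ'0 i hi)
      have h4 : C.Φ (v, i) p * Θ' (C.e v i) ≤ ∑ i ∈ C.I T v, C.Φ (v, i) p * Θ' (C.e v i) :=
        Finset.single_le_sum (f := fun i => C.Φ (v, i) p * Θ' (C.e v i))
          (fun i hi => mul_nonneg (C.Φ_nonneg _ hp.1) (hΘ'0 i hi)) hi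
      linarith
    have h5 := hψ0 j _ (C.V_mem hv)
    have h6 : ((r : ℝ) * (r + 1)) * ψ' j (C.e v i) ≤ r + 1 := by linarith [hΘp]
    have hr0 : (0 : ℝ) < r := by exact_mod_cast hr1
    rw [le_div_iff₀ hr0]
    have h7 : (r + 1 : ℝ) * (ψ' j (C.e v i) * r) ≤ (r + 1 : ℝ) * 1 := by nlinarith
    exact le_of_mul_le_mul_left h7 (by positivity)
  have hlow : ∀ (j : J), ∀ i ∈ C.I T v, -((r + 1 : ℝ) / N) ≤ ψ' j (C.e v i) := by
    intro j i hi
    have hmem := C.edge_mem_G hv hi (s := N) (by positivity) le_rfl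
    have h1 := hψ0 j _ hmem
    rw [hψadd] at h1
    have h2 := hψΘ j _ (C.V_mem hv)
    have h3 := hminG p hp
    rw [neg_le_iff_add_nonneg, ← mul_nonneg_iff_of_pos_left hNpos', mul_add]
    have : (N : ℝ) * ((r + 1 : ℝ) / N) = r + 1 := by field_simp
    rw [this]
    linarith [hΘp]
  -- the lattice point
  let x : E := C.vtx v + ∑ i, ((⌊C.Φ (v, i) p⌋ : ℤ) : ℝ) • C.e v i
  have hxΛ : x ∈ C.Λ := by
    apply C.Λ.add_mem (C.hv v)
    apply C.Λ.sum_mem
    intro i _
    rw [Int.cast_smul_eq_zsmul]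
    exact C.Λ.zsmul_mem (C.he v i) _
  have hΦx : ∀ j : C.ι × Fin d, C.Φ j x = C.Φ j p -
      ∑ i ∈ C.I T v, Int.fract (C.Φ (v, i) p) * C.φ j.1 j.2 (C.e v i) := by
    intro j
    have h1 : x = p + (-1 : ℝ) • ∑ i ∈ C.I T v, Int.fract (C.Φ (v, i) p) • C.e v i := by
      have h2 : ∑ i ∈ C.I T v, Int.fract (C.Φ (v, i) p) • C.e v i =
          ∑ i, Int.fract (C.Φ (v, i) p) • C.e v i := by
        apply Finset.sum_subset (Finset.subset_univ _)
        intro i _ hi
        rw [C.coord_zero hv hNpos hi hp]; simp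
      rw [h2]
      conv_rhs => rw [C.Φ_rep v p]
      simp only [x]
      rw [add_assoc]
      congr 1
      rw [Finset.smul_sum, ← Finset.sum_add_distrib]
      apply Finset.sum_congr rfl
      intro i _
      rw [← C.Φ_rep v p, smul_smul, ← add_smul]
      congr 1
      have := Int.floor_add_fract (C.Φ (v, i) p)
      linarith
    rw [h1, C.Φ_add_smul, map_sum]
    simp only [map_smul, smul_eq_mul]
    ring
  have hsumle : ∀ (g : Fin d → ℝ) (c : ℝ), 0 ≤ c → (∀ i ∈ C.I T v, g i ≤ c) →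
      ∑ i ∈ C.I T v, Int.fract (C.Φ (v, i) p) * g i ≤ r * c := by
    intro g c hc hg
    calc ∑ i ∈ C.I T v, Int.fract (C.Φ (v, i) p) * g i ≤ ∑ i ∈ C.I T v, c := by
          apply Finset.sum_le_sum
          intro i hi
          have h1 := Int.fract_nonneg (C.Φ (v, i) p)
          have h2 := (Int.fract_lt_one (C.Φ (v, i) p)).le
          calc Int.fract (C.Φ (v, i) p) * g i ≤ Int.fract (C.Φ (v, i) p) * c :=
                mul_le_mul_of_nonneg_left (hg i hi) h1
            _ ≤ 1 * c := mul_le_mul_of_nonneg_right h2 hc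
            _ = c := one_mul c
      _ = (C.I T v).card * c := by rw [Finset.sum_const, nsmul_eq_mul]
      _ ≤ r * c := mul_le_mul_of_nonneg_right (by exact_mod_cast hr v hv) hc
  have hψx : ∀ j : J, ψ j x = 1 - ∑ i ∈ C.I T v, Int.fract (C.Φ (v, i) p) * ψ' j (C.e v i) := by
    intro j
    simp only [ψ, ψ']
    rw [hΦx j.1, sub_div, div_self (hJpos j).ne', Finset.sum_div]
    congr 1
    apply Finset.sum_congr rfl; intro i _; ring
  have hr0 : (0 : ℝ) < r := by exact_mod_cast hr1
  have hψx0 : ∀ j : J, 0 ≤ ψ j x := by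
    intro j
    rw [hψx j]
    have := hsumle (fun i => ψ' j (C.e v i)) (1 / r) (by positivity) (fun i hi => hup j i hi)
    have h2 : (r : ℝ) * (1 / r) = 1 := by field_simp
    rw [h2] at this
    linarith
  have hψx1 : ∀ j : J, ψ j x ≤ 1 + (r : ℝ) * (r + 1) / N := by
    intro j
    rw [hψx j]
    have := hsumle (fun i => -ψ' j (C.e v i)) ((r + 1) / N) (by positivity)
      (fun i hi => by have := hlow j i hi; linarith)
    simp only [mul_neg, Finset.sum_neg_distrib] at this
    have h2 : (r : ℝ) * ((r + 1) / N) = (r : ℝ) * (r + 1) / N := by ring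
    rw [h2] at this
    linarith
  have hΦxJ : ∀ j : J, C.Φ j.1 x = ψ j x * C.Φ j.1 p := by
    intro j
    simp only [ψ]
    rw [div_mul_cancel₀ _ (hJpos j).ne']
  have hzero : ∀ a ∈ C.V T, ∀ i, i ∉ C.I T a → C.Φ (a, i) x = 0 := by
    intro a ha i hi
    rw [hΦx (a, i), C.coord_zero ha hNpos hi hp]
    rw [Finset.sum_eq_zero]
    · ring
    · intro k hk
      rw [C.slope_zero ha hv hNpos hi hk]; ring
  have hxG : x ∈ C.G T := by
    apply C.mem_G_of hNpos ha0
    · intro a ha i
      by_cases hi : i ∈ C.I T a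
      · have := hΦxJ ⟨(a, i), ha, hi⟩
        simp only at this
        rw [this]
        exact mul_nonneg (hψx0 _) (hJpos ⟨(a, i), ha, hi⟩).le
      · rw [hzero a ha i hi]
    · exact hzero
  -- the other point
  set ε : ℝ := (r : ℝ) * (r + 1) / N with hε
  have hεpos : 0 < ε := by positivity
  let y : E := ((1 + ε) / ε) • p + (-(1 / ε)) • x
  have hab : (1 + ε) / ε + (-(1 / ε)) = 1 := by field_simp; ring
  have hΦy : ∀ j, C.Φ j y = (1 + ε) / ε * C.Φ j p - 1 / ε * C.Φ j x := by
    intro j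
    simp only [y]
    rw [C.Φ_comb j p x _ _ hab]; ring
  have hyG : y ∈ C.G T := by
    apply C.mem_G_of hNpos ha0
    · intro a ha i
      rw [hΦy]
      by_cases hi : i ∈ C.I T a
      · have h1 := hΦxJ ⟨(a, i), ha, hi⟩
        simp only at h1
        have h2 := hψx1 ⟨(a, i), ha, hi⟩
        have h3 := hJpos ⟨(a, i), ha, hi⟩
        simp only at h3
        rw [h1]
        have h4 : (1 + ε) / ε * C.Φ (a, i) p - 1 / ε * (ψ ⟨(a, i), ha, hi⟩ x * C.Φ (a, i) p) =
          (1 / ε) * ((1 + ε - ψ ⟨(a, i), ha, hi⟩ x) * C.Φ (a, i) p) := by ring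
        rw [h4]
        apply mul_nonneg (by positivity)
        apply mul_nonneg _ h3.le
        linarith
      · rw [hzero a ha i hi, C.coord_zero ha hNpos hi hp]; simp
    · intro a ha i hi
      rw [hΦy, hzero a ha i hi, C.coord_zero ha hNpos hi hp]; simp
  refine ⟨x, hxG, hxΛ, y, hyG, 1 / (1 + ε), ?_, ?_, ?_⟩
  · rw [le_div_iff₀ (by positivity)]
    nlinarith
  · rw [div_le_one (by positivity)]; linarith
  · simp only [y]
    clear_value x
    rw [smul_add, smul_smul, smul_smul, add_comm, add_assoc, ← add_smul]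
    have h1 : (1 - 1 / (1 + ε)) * ((1 + ε) / ε) = 1 := by field_simp; ring
    have h2 : (1 - 1 / (1 + ε)) * (-(1 / ε)) + 1 / (1 + ε) = 0 := by field_simp; ring
    rw [h1, h2]; simp


/-- A vertex not on the facet `j` is at distance at least `N` from it. -/
theorem far (hN : 0 < N) (a : C.ι) (i : Fin d)
    {b : C.ι} (hne : C.Φ (a, i) (C.vtx b) ≠ 0) :
    (N : ℝ) ≤ C.Φ (a, i) (C.vtx b) := by
  classical
  have hN' : (0 : ℝ) < N := by exact_mod_cast hN
  have hpos : 0 < C.Φ (a, i) (C.vtx b) :=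
    lt_of_le_of_ne (C.Φ_nonneg _ (C.vtx_mem b)) (Ne.symm hne)
  -- some edge direction decreases
  have hex : ∃ k, C.φ a i (C.e b k) < 0 := by
    by_contra hcon
    push Not at hcon
    have h1 := C.Φ_rep' (a, i) b (C.vtx a)
    rw [C.Φ_vtx_self] at h1
    have h2 : 0 ≤ ∑ k, C.Φ (b, k) (C.vtx a) * C.φ a i (C.e b k) :=
      Finset.sum_nonneg fun k _ => mul_nonneg (C.Φ_nonneg _ (C.vtx_mem a)) (hcon k)
    simp only at h1
    linarith
  obtain ⟨k, hk⟩ := hex
  obtain ⟨m, hm⟩ := C.hint a i (C.e b k) (C.he b k)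
  rw [hm] at hk
  have hm' : m ≤ -1 := by
    have : m < 0 := by exact_mod_cast hk
    omega
  have hm'' : (m : ℝ) ≤ -1 := by exact_mod_cast hm'
  have h := C.Φ_nonneg (a, i) (C.hedge b k)
  rw [C.Φ_add_smul] at h
  simp only [hm] at h
  nlinarith

/-- the shallow case -/
theorem shallow {T : Set (C.ι × Fin d)} (hN : 0 < N) (a : C.ι) (i : Fin d)
    {p : E} (hp : p ∈ C.G T) {K : ℝ} (hpK : C.Φ (a, i) p < K) (hKN : K ≤ N) :
    ∃ q ∈ C.G (insert (a, i) T), ∃ y ∈ C.G T, ∃ μ : ℝ, 0 ≤ μ ∧ μ ≤ K / N ∧ μ < 1 ∧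
      p = (1 - μ) • q + μ • y := by
  classical
  have hN' : (0 : ℝ) < N := by exact_mod_cast hN
  obtain ⟨w, hw0, hw1, hwp, hV⟩ := C.G_hull hp
  set U : Finset C.ι := Finset.univ.filter fun b => w b ≠ 0 with hU
  set S : Finset C.ι := U.filter fun b => C.Φ (a, i) (C.vtx b) = 0 with hS
  set S' : Finset C.ι := U.filter fun b => ¬ C.Φ (a, i) (C.vtx b) = 0 with hS'
  set μ : ℝ := ∑ b ∈ S', w b with hμ
  set σ : ℝ := ∑ b ∈ S, w b with hσ
  have hsplit : σ + μ = 1 := by
    rw [hσ, hμ, hS, hS', Finset.sum_filter_add_sum_filter_not, hU, Finset.sum_filter_ne_zero, hw1]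
  have hpsum : ∑ b ∈ S, w b • C.vtx b + ∑ b ∈ S', w b • C.vtx b = p := by
    rw [hS, hS', Finset.sum_filter_add_sum_filter_not, ← hwp]
    apply Finset.sum_subset (Finset.subset_univ _)
    intro b _ hb
    have : w b = 0 := by simpa [hU] using hb
    simp [this]
  have hμ0 : 0 ≤ μ := Finset.sum_nonneg fun b _ => hw0 b
  have hVS : ∀ b ∈ S, b ∈ C.V T := fun b hb => hV b (by
    have := (Finset.mem_filter.mp hb).1
    simpa [hU] using this)
  have hVS' : ∀ b ∈ S', b ∈ C.V T := fun b hb => hV b (by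
    have := (Finset.mem_filter.mp hb).1
    simpa [hU] using this)
  have hμN : (N : ℝ) * μ ≤ C.Φ (a, i) p := by
    rw [← hwp, C.Φ_sum _ Finset.univ w C.vtx hw1, hμ, Finset.mul_sum]
    calc ∑ b ∈ S', (N : ℝ) * w b ≤ ∑ b ∈ S', w b * C.Φ (a, i) (C.vtx b) := by
          apply Finset.sum_le_sum
          intro b hb
          have h1 : ¬ C.Φ (a, i) (C.vtx b) = 0 := (Finset.mem_filter.mp hb).2
          have := C.far hN a i h1
          have := hw0 b
          nlinarith
      _ ≤ ∑ b, w b * C.Φ (a, i) (C.vtx b) :=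
          Finset.sum_le_sum_of_subset_of_nonneg (Finset.subset_univ _)
            (fun b _ _ => mul_nonneg (hw0 b) (C.Φ_nonneg _ (C.vtx_mem b)))
  have hμK : μ < K / N := by
    rw [lt_div_iff₀ hN']; linarith
  have hμ1 : μ < 1 := lt_of_lt_of_le hμK (by rw [div_le_one hN']; exact hKN)
  have hσ1 : 0 < σ := by linarith
  have hσμ : 1 - μ = σ := by linarith
  -- the point on the facet
  have hqG : ∑ b ∈ S, (w b / σ) • C.vtx b ∈ C.G (insert (a, i) T) := by
    apply (C.convG _).sum_mem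
    · intro b _; exact div_nonneg (hw0 b) hσ1.le
    · rw [← Finset.sum_div, ← hσ, div_self hσ1.ne']
    · intro b hb
      refine ⟨C.vtx_mem b, fun j hj => ?_⟩
      rcases hj with rfl | hj
      · exact (Finset.mem_filter.mp hb).2
      · exact hVS b hb j hj
  have hq : σ • ∑ b ∈ S, (w b / σ) • C.vtx b = ∑ b ∈ S, w b • C.vtx b := by
    rw [Finset.smul_sum]
    apply Finset.sum_congr rfl
    intro b _
    rw [smul_smul, mul_div_cancel₀ _ hσ1.ne']
  rcases eq_or_lt_of_le hμ0 with hμz | hμpos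
  · -- everything on the facet
    refine ⟨_, hqG, p, hp, 0, le_rfl, ?_, by norm_num, ?_⟩
    · linarith
    · have hz : ∀ b ∈ S', w b = 0 := by
        exact (Finset.sum_eq_zero_iff_of_nonneg (fun b _ => hw0 b)).mp hμz.symm
      have hz' : ∑ b ∈ S', w b • C.vtx b = 0 :=
        Finset.sum_eq_zero fun b hb => by rw [hz b hb, zero_smul]
      have hσ' : σ = 1 := by linarith
      rw [hσ', one_smul] at hq
      rw [hz', add_zero] at hpsum
      simp only [sub_zero, one_smul, zero_smul, add_zero]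
      rw [hσ', hq, hpsum]
  · refine ⟨_, hqG, ∑ b ∈ S', (w b / μ) • C.vtx b, ?_, μ, hμ0, hμK.le, hμ1, ?_⟩
    · apply (C.convG _).sum_mem
      · intro b _; exact div_nonneg (hw0 b) hμ0
      · rw [← Finset.sum_div, ← hμ, div_self hμpos.ne']
      · intro b hb
        exact C.V_mem (hVS' b hb)
    · rw [hσμ, hq, ← hpsum]
      congr 1
      rw [Finset.smul_sum]
      apply Finset.sum_congr rfl
      intro b _
      rw [smul_smul, mul_div_cancel₀ _ hμpos.ne']

/-- passing to a facet of the face lowers the number of edge directions -/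
theorem card_drop {T : Set (C.ι × Fin d)} (hN : 0 < N) {a : C.ι} (ha : a ∈ C.V T) {i : Fin d}
    (hi : i ∈ C.I T a) {r : ℕ} (hr : ∀ b ∈ C.V T, (C.I T b).card ≤ r + 1) :
    ∀ b ∈ C.V (insert (a, i) T), (C.I (insert (a, i) T) b).card ≤ r := by
  classical
  intro b hb
  have hbT : b ∈ C.V T := fun j hj => hb j (Set.mem_insert_of_mem _ hj)
  have hb0 : C.Φ (a, i) (C.vtx b) = 0 := hb _ (Set.mem_insert _ _)
  have hN' : (0 : ℝ) < N := by exact_mod_cast hN
  have hsub : C.I (insert (a, i) T) b ⊆ C.I T b := by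
    intro k hk
    rw [C.mem_I] at hk ⊢
    exact fun j hj => hk j (Set.mem_insert_of_mem _ hj)
  have hne : C.I (insert (a, i) T) b ≠ C.I T b := by
    intro heq
    -- the functional would vanish on the face
    have h1 := C.edge_mem_G ha hi (s := N) (by positivity) le_rfl
    have h2 := C.Φ_rep' (a, i) b (C.vtx a + (N : ℝ) • C.e a i)
    rw [C.Φ_add_smul, C.Φ_vtx_self, hb0] at h2
    simp only [C.hdual, if_true, mul_one, zero_add] at h2
    have h3 : ∑ k, C.Φ (b, k) (C.vtx a + (N : ℝ) • C.e a i) * C.φ a i (C.e b k) = 0 := by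
      apply Finset.sum_eq_zero
      intro k _
      by_cases hk : k ∈ C.I T b
      · rw [← heq, C.mem_I] at hk
        have := hk (a, i) (Set.mem_insert _ _)
        simp only at this
        rw [this]; ring
      · rw [C.coord_zero hbT hN hk h1]; ring
    rw [h3] at h2
    linarith
  have hlt := Finset.card_lt_card (Finset.ssubset_iff_subset_ne.mpr ⟨hsub, hne⟩)
  have := hr b hbT
  omega

/-- **Key proposition.** Every point `p` of a face of dimension at most `r` is of the form
`t x + (1 - t) y` with `x` a lattice point and `t` close to one. -/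
theorem round [FiniteDimensional ℝ E] (hN : 0 < N) (r : ℕ) :
    ∀ (T : Set (C.ι × Fin d)), (∀ a ∈ C.V T, (C.I T a).card ≤ r) → r * (r + 1) ≤ N →
      ∀ p ∈ C.G T, ∃ x ∈ C.G T, x ∈ C.Λ ∧ ∃ y ∈ C.G T, ∃ t : ℝ,
        1 - (r : ℝ) * (r + 1) * (r + 2) / (3 * N) ≤ t ∧ t ≤ 1 ∧ p = t • x + (1 - t) • y := by
  have hN' : (0 : ℝ) < N := by exact_mod_cast hN
  induction r with
  | zero =>
    intro T hr _ p hp
    obtain ⟨a, ha⟩ := C.V_nonempty hp
    have hp' : p = C.vtx a := by
      rw [C.Φ_rep a p, Finset.sum_eq_zero, add_zero]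
      intro i _
      rw [C.coord_zero ha hN _ hp, zero_smul]
      have := hr a ha
      simp only [nonpos_iff_eq_zero, Finset.card_eq_zero] at this
      simp [this]
    refine ⟨p, hp, hp' ▸ C.hv a, p, hp, 1, by simp, le_rfl, by simp⟩
  | succ r ih =>
    intro T hr hrN p hp
    by_cases hdeep : ∀ a ∈ C.V T, ∀ i ∈ C.I T a, (((r + 1 : ℕ) : ℝ) * ((r + 1 : ℕ) + 1)) ≤ C.Φ (a, i) p
    · obtain ⟨x, hx, hxΛ, y, hy, t, ht, ht1, hpt⟩ := C.deep (by omega) hr hrN hp hdeep
      refine ⟨x, hx, hxΛ, y, hy, t, le_trans ?_ ht, ht1, hpt⟩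
      have h1 : ((r + 1 : ℕ) : ℝ) * ((r + 1 : ℕ) + 1) / N ≤
          ((r + 1 : ℕ) : ℝ) * ((r + 1 : ℕ) + 1) * ((r + 1 : ℕ) + 2) / (3 * N) := by
        rw [div_le_div_iff₀ hN' (by positivity)]
        have h2 : (0 : ℝ) ≤ r := Nat.cast_nonneg r
        push_cast
        have h3 : (0 : ℝ) ≤ ((r : ℝ) + 1) * (r + 1 + 1) * N := by positivity
        nlinarith
      linarith
    · push Not at hdeep
      obtain ⟨a, ha, i, hi, hlt⟩ := hdeep
      have hKN : (((r + 1 : ℕ) : ℝ) * ((r + 1 : ℕ) + 1)) ≤ N := by exact_mod_cast hrN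
      obtain ⟨q, hq, y, hy, μ, hμ0, hμK, hμ1, hpq⟩ := C.shallow hN a i hp hlt hKN
      have hrN' : r * (r + 1) ≤ N := le_trans (by nlinarith) hrN
      obtain ⟨x, hx, hxΛ, z, hz, t, ht, ht1, hqt⟩ := ih _ (C.card_drop hN ha hi hr) hrN' q hq
      have hsubG : C.G (insert (a, i) T) ⊆ C.G T := fun u hu =>
        ⟨hu.1, fun j hj => hu.2 j (Set.mem_insert_of_mem _ hj)⟩
      have hbound : 1 - ((r + 1 : ℕ) : ℝ) * ((r + 1 : ℕ) + 1) * ((r + 1 : ℕ) + 2) / (3 * N) ≤ (1 - μ) * t := by
        have h1 : ((r + 1 : ℕ) : ℝ) * ((r + 1 : ℕ) + 1) * ((r + 1 : ℕ) + 2) / (3 * N) =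
            (r : ℝ) * (r + 1) * (r + 2) / (3 * N) + ((r + 1 : ℕ) : ℝ) * ((r + 1 : ℕ) + 1) / N := by
          field_simp
          push_cast
          ring
        rw [h1]
        have h2 : (0 : ℝ) ≤ (r : ℝ) * (r + 1) * (r + 2) / (3 * N) := by positivity
        nlinarith
      rcases eq_or_lt_of_le hμ0 with hμz | hμpos
      · refine ⟨x, hsubG hx, hxΛ, z, hsubG hz, t, ?_, ht1, ?_⟩
        · rw [← hμz] at hbound; simpa using hbound
        · rw [hpq, ← hμz, hqt]; simp
      · have h1 : 0 < 1 - (1 - μ) * t := by nlinarith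
        refine ⟨x, hsubG hx, hxΛ, ((1 - μ) * (1 - t) / (1 - (1 - μ) * t)) • z +
          (μ / (1 - (1 - μ) * t)) • y, ?_, (1 - μ) * t, hbound, by nlinarith, ?_⟩
        · apply C.convG T (hsubG hz) hy
          · apply div_nonneg _ h1.le
            exact mul_nonneg (by linarith) (by linarith)
          · positivity
          · rw [← add_div, div_eq_one_iff_eq h1.ne']; ring
        · rw [hpq, hqt, smul_add, smul_add, smul_smul, smul_smul, smul_smul, smul_smul,
            mul_div_cancel₀ _ h1.ne', mul_div_cancel₀ _ h1.ne', add_assoc]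

/-- The statement used later: edges of length at least `2 d (d+1) (d+2)` give `t ≥ 5/6`. -/
theorem round' [FiniteDimensional ℝ E] (hN : 2 * d * (d + 1) * (d + 2) ≤ N) :
    ∀ p ∈ C.P, ∃ x ∈ C.P, x ∈ C.Λ ∧ ∃ y ∈ C.P, ∃ t : ℝ,
        5 / 6 ≤ t ∧ t ≤ 1 ∧ p = t • x + (1 - t) • y := by
  intro p hp
  rcases Nat.eq_zero_or_pos N with hN0 | hN0
  · -- then `d = 0`
    have hd : d = 0 := by
      by_contra hd
      have hd : 0 < d := Nat.pos_of_ne_zero hd
      have : 0 < 2 * d * (d + 1) * (d + 2) := by positivity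
      omega
    subst hd
    obtain ⟨a, -⟩ : ∃ a, a ∈ C.V ∅ := C.V_nonempty (x := p) ⟨hp, by simp⟩
    have h0 : ∀ z : E, z = 0 := fun z => by
      rw [C.hrep a z]; simp
    exact ⟨p, hp, by rw [h0 p, ← h0 (C.vtx a)]; exact C.hv a, p, hp, 1, by norm_num, le_rfl, by simp⟩
  · have hpG : p ∈ C.G ∅ := ⟨hp, by simp⟩
    have hN1 : d * (d + 1) ≤ N := by
      refine le_trans ?_ hN
      calc d * (d + 1) = d * (d + 1) * 1 := (mul_one _).symm
        _ ≤ d * (d + 1) * (2 * (d + 2)) := Nat.mul_le_mul_left _ (by omega)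
        _ = 2 * d * (d + 1) * (d + 2) := by ring
    obtain ⟨x, hx, hxΛ, y, hy, t, ht, ht1, hpt⟩ := C.round hN0 d ∅ (fun a _ => by
      simpa using Finset.card_le_univ (C.I ∅ a)) hN1 p hpG
    refine ⟨x, hx.1, hxΛ, y, hy.1, t, le_trans ?_ ht, ht1, hpt⟩
    have hN' : (0 : ℝ) < N := by exact_mod_cast hN0
    have h2 : (d : ℝ) * (d + 1) * (d + 2) / (3 * N) ≤ 1 / 6 := by
      rw [div_le_div_iff₀ (by positivity) (by norm_num)]
      have : (2 * d * (d + 1) * (d + 2) : ℝ) ≤ N := by exact_mod_cast hN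
      nlinarith
    linarith

end Cor

section Comb

variable {E : Type} [AddCommGroup E] [Module ℝ E]

/-- Rounding property: every point is `t x + (1 - t) y` with `x` a lattice point and `t ≥ 5/6`. -/
def Rounding (P : Set E) (Λ : AddSubgroup E) : Prop :=
  ∀ p ∈ P, ∃ x ∈ P, x ∈ Λ ∧ ∃ y ∈ P, ∃ t : ℝ, 5 / 6 ≤ t ∧ t ≤ 1 ∧ p = t • x + (1 - t) • y

/-- scaled convex combination -/
theorem comb_mem {P : Set E} (hP : Convex ℝ P) {s : ℝ} (hs : 0 < s) {κ : Type} (I : Finset κ)
    (w : κ → ℝ) (z : κ → E) (hw : ∀ i ∈ I, 0 ≤ w i) (hsum : ∑ i ∈ I, w i = s)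
    (hz : ∀ i ∈ I, z i ∈ P) : ∃ p ∈ P, ∑ i ∈ I, w i • z i = s • p := by
  refine ⟨∑ i ∈ I, (w i / s) • z i, hP.sum_mem (fun i hi => div_nonneg (hw i hi) hs.le) ?_ hz, ?_⟩
  · rw [← Finset.sum_div, hsum, div_self hs.ne']
  · rw [Finset.smul_sum]
    apply Finset.sum_congr rfl
    intro i _
    rw [smul_smul, mul_div_cancel₀ _ hs.ne']

/-- integer decomposition property -/
theorem idp {P : Set E} {Λ : AddSubgroup E} (hP : Convex ℝ P) (hR : Rounding P Λ) (k : ℕ) :
    ∀ p ∈ P, ((k : ℝ) • p) ∈ Λ →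
      ∃ s : Multiset E, Multiset.card s = k ∧ (∀ x ∈ s, x ∈ P ∧ x ∈ Λ) ∧ s.sum = (k : ℝ) • p := by
  induction k with
  | zero => intro p _ _; exact ⟨0, by simp, by simp, by simp⟩
  | succ k ih =>
    intro p hp hpΛ
    rcases Nat.eq_zero_or_pos k with hk | hk
    · subst hk
      refine ⟨{p}, by simp, ?_, by simp⟩
      intro x hx
      rw [Multiset.mem_singleton] at hx
      subst hx
      exact ⟨hp, by simpa using hpΛ⟩
    · obtain ⟨x, hx, hxΛ, y, hy, t, ht, ht1, hpt⟩ := hR p hp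
      have hk' : (1 : ℝ) ≤ k := by exact_mod_cast hk
      have hk0 : (0 : ℝ) < k := by linarith
      have hmem : (((k + 1 : ℝ) * t - 1) / k) • x + ((k + 1 : ℝ) * (1 - t) / k) • y ∈ P := by
        apply hP hx hy
        · apply div_nonneg _ hk0.le; nlinarith
        · apply div_nonneg _ hk0.le
          exact mul_nonneg (by positivity) (by linarith)
        · rw [← add_div, div_eq_one_iff_eq hk0.ne']; ring
      have heq : (k : ℝ) • ((((k + 1 : ℝ) * t - 1) / k) • x + ((k + 1 : ℝ) * (1 - t) / k) • y) =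
          ((k + 1 : ℕ) : ℝ) • p - x := by
        rw [smul_add, smul_smul, smul_smul, mul_div_cancel₀ _ hk0.ne', mul_div_cancel₀ _ hk0.ne',
          hpt, smul_add, smul_smul, smul_smul]
        push_cast
        rw [sub_smul, one_smul]
        abel
      obtain ⟨s, hs1, hs2, hs3⟩ := ih _ hmem (by rw [heq]; exact Λ.sub_mem hpΛ hxΛ)
      refine ⟨x ::ₘ s, by simp [hs1], ?_, ?_⟩
      · intro z hz
        rw [Multiset.mem_cons] at hz
        rcases hz with rfl | hz
        · exact ⟨hx, hxΛ⟩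
        · exact hs2 z hz
      · rw [Multiset.sum_cons, hs3, heq]; abel

theorem mem_sum_smul {P : Set E} (hP : Convex ℝ P) (s : Multiset E) (hs : ∀ x ∈ s, x ∈ P)
    (hc : 0 < Multiset.card s) : ∃ p ∈ P, s.sum = (Multiset.card s : ℝ) • p := by
  induction s using Multiset.induction with
  | empty => simp at hc
  | cons a s ih =>
    rcases Nat.eq_zero_or_pos (Multiset.card s) with h0 | h0
    · rw [Multiset.card_eq_zero] at h0
      subst h0
      exact ⟨a, hs a (by simp), by simp⟩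
    · obtain ⟨p, hp, hpe⟩ := ih (fun x hx => hs x (Multiset.mem_cons_of_mem hx)) h0
      have hc' : (0 : ℝ) < (Multiset.card s : ℝ) := by exact_mod_cast h0
      have h1 : (0 : ℝ) < (Multiset.card s : ℝ) + 1 := by positivity
      refine ⟨(1 / ((Multiset.card s : ℝ) + 1)) • a +
        ((Multiset.card s : ℝ) / ((Multiset.card s : ℝ) + 1)) • p, ?_, ?_⟩
      · apply hP (hs a (Multiset.mem_cons_self a s)) hp (by positivity) (by positivity)
        rw [← add_div, add_comm, div_self h1.ne']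
      · rw [Multiset.sum_cons, hpe, Multiset.card_cons]
        push_cast
        rw [smul_add, smul_smul, smul_smul, mul_div_cancel₀ _ h1.ne', mul_div_cancel₀ _ h1.ne',
          one_smul]

/-- the two neighbours: given `W = x + (n-1) m'` and `W = n m`, the lattice roundings `x'` of `m'`
and `x₀` of `m` satisfy `W - x - x' ∈ (n-2) P` and `W - x₀ - x' ∈ (n-2) P`. -/
theorem neighbours {P : Set E} (hP : Convex ℝ P) {n : ℕ} (hn : 3 ≤ n) {x m' x' y' : E}
    (hx : x ∈ P) (hx' : x' ∈ P) (hy' : y' ∈ P) {t' : ℝ} (ht' : 5 / 6 ≤ t') (ht1' : t' ≤ 1)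
    (hm' : m' = t' • x' + (1 - t') • y') {m x₀ y₀ : E} (hm : m ∈ P)
    (_hx₀ : x₀ ∈ P) (hy₀ : y₀ ∈ P) {t₀ : ℝ} (ht₀ : 5 / 6 ≤ t₀) (ht1₀ : t₀ ≤ 1)
    (hm₀ : m = t₀ • x₀ + (1 - t₀) • y₀) (hW : (n : ℝ) • m = x + ((n : ℝ) - 1) • m') :
    (∃ p ∈ P, (n : ℝ) • m - x - x' = ((n - 2 : ℕ) : ℝ) • p) ∧
    (∃ p ∈ P, (n : ℝ) • m - x₀ - x' = ((n - 2 : ℕ) : ℝ) • p) := by
  have hn3 : (3 : ℝ) ≤ n := by exact_mod_cast hn
  have hcast : ((n - 2 : ℕ) : ℝ) = (n : ℝ) - 2 := by
    rw [Nat.cast_sub (by omega)]; norm_num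
  rw [hcast]
  have hn2 : (0 : ℝ) < (n : ℝ) - 2 := by linarith
  have hn1 : (0 : ℝ) < (n : ℝ) - 1 := by linarith
  have ht'0 : 0 < t' := by linarith
  have ht₀0 : 0 < t₀ := by linarith
  constructor
  · refine ⟨((((n : ℝ) - 1) * t' - 1) / (n - 2)) • x' + (((n : ℝ) - 1) * (1 - t') / (n - 2)) • y',
      ?_, ?_⟩
    · apply hP hx' hy'
      · apply div_nonneg _ hn2.le; nlinarith
      · apply div_nonneg _ hn2.le
        exact mul_nonneg hn1.le (by linarith)
      · rw [← add_div, div_eq_one_iff_eq hn2.ne']; ring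
    · rw [smul_add, smul_smul, smul_smul, mul_div_cancel₀ _ hn2.ne', mul_div_cancel₀ _ hn2.ne', hW,
        hm', smul_add, smul_smul, smul_smul, sub_smul, one_smul]
      abel
  · -- coefficients
    have hα : 1 / t₀ ≤ 6 / 5 := by
      rw [div_le_div_iff₀ ht₀0 (by norm_num)]; linarith
    have hα' : t₀⁻¹ ≤ 6 / 5 := by rw [← one_div]; exact hα
    set β : ℝ := (n : ℝ) / (((n : ℝ) - 1) * t') with hβ
    have hden : 0 < ((n : ℝ) - 1) * t' := mul_pos hn1 ht'0
    have hβle : β ≤ 9 / 5 := by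
      rw [hβ, div_le_div_iff₀ hden (by norm_num)]
      nlinarith
    obtain ⟨p, hp, hpe⟩ := comb_mem hP hn2 (Finset.univ : Finset (Fin 4))
      ![(n : ℝ) - 1 / t₀ - β, (1 - t₀) / t₀, 1 / (((n : ℝ) - 1) * t'), (1 - t') / t']
      ![m, y₀, x, y'] (by
        intro i _
        fin_cases i
        · simp; linarith
        · simp; exact div_nonneg (by linarith) ht₀0.le
        · simp; positivity
        · simp; exact div_nonneg (by linarith) ht'0.le) (by
        simp [Fin.sum_univ_four]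
        rw [hβ]
        field_simp
        ring) (by
        intro i _
        fin_cases i
        · simpa using hm
        · simpa using hy₀
        · simpa using hx
        · simpa using hy')
    refine ⟨p, hp, ?_⟩
    rw [← hpe]
    simp only [Fin.sum_univ_four, Matrix.cons_val_zero, Matrix.cons_val_one, Matrix.cons_val]
    -- n m - x₀ - x' = (n - 1/t₀ - β) m + ((1/t₀) m - x₀) + (β m - x')
    have e1 : (1 / t₀) • m - x₀ = ((1 - t₀) / t₀) • y₀ := by
      rw [hm₀, smul_add, smul_smul, smul_smul, one_div, inv_mul_cancel₀ ht₀0.ne', one_smul]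
      rw [add_sub_cancel_left]
      congr 1
      field_simp
    have e2 : β • m - x' = (1 / (((n : ℝ) - 1) * t')) • x + ((1 - t') / t') • y' := by
      have h1 : β • m = (1 / (((n : ℝ) - 1) * t')) • ((n : ℝ) • m) := by
        rw [smul_smul, hβ]; congr 1; ring
      rw [h1, hW, hm', smul_add, smul_add, smul_add, smul_smul, smul_smul, smul_smul, smul_smul]
      have h2 : 1 / (((n : ℝ) - 1) * t') * ((n : ℝ) - 1) * t' = 1 := by
        field_simp
      have h3 : 1 / (((n : ℝ) - 1) * t') * ((n : ℝ) - 1) * (1 - t') = (1 - t') / t' := by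
        field_simp
      rw [h2, h3, one_smul]
      abel
    have e3 : ((n : ℝ) - 1 / t₀ - β) • m + ((1 - t₀) / t₀) • y₀ +
        (1 / (((n : ℝ) - 1) * t')) • x + ((1 - t') / t') • y' =
        ((n : ℝ) - 1 / t₀ - β) • m + ((1 / t₀) • m - x₀) + (β • m - x') := by
      rw [e1, e2]; abel
    rw [e3, sub_smul, sub_smul]
    abel

end Comb

section Connect

variable {E : Type} [AddCommGroup E] [Module ℝ E] {σ : Type} (val : σ → E)

omit [Module ℝ E] in
theorem lift_multiset {P : Set E} {Λ : AddSubgroup E} (hsurj : ∀ x ∈ P, x ∈ Λ → ∃ u, val u = x)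
    (s : Multiset E) (hs : ∀ x ∈ s, x ∈ P ∧ x ∈ Λ) :
    ∃ A : Multiset σ, A.map val = s := by
  induction s using Multiset.induction with
  | empty => exact ⟨0, by simp⟩
  | cons a s ih =>
    obtain ⟨A, hA⟩ := ih (fun x hx => hs x (Multiset.mem_cons_of_mem hx))
    obtain ⟨u, hu⟩ := hsurj a (hs a (Multiset.mem_cons_self a s)).1 (hs a (Multiset.mem_cons_self a s)).2
    exact ⟨u ::ₘ A, by simp [hA, hu]⟩

/-- Any two monomials in the same fiber are related by quadratic moves. -/
theorem connect {P : Set E} {Λ : AddSubgroup E} (hP : Convex ℝ P) (hR : Rounding P Λ)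
    (hval : ∀ u, val u ∈ P ∧ val u ∈ Λ) (hsurj : ∀ x ∈ P, x ∈ Λ → ∃ u, val u = x)
    (hinj : Function.Injective val) (R : Multiset σ → Multiset σ → Prop) (hequiv : Equivalence R)
    (h2 : ∀ A B, Multiset.card A = 2 → Multiset.card B = 2 → (A.map val).sum = (B.map val).sum →
      R A B) (hcons : ∀ u A B, R A B → R (u ::ₘ A) (u ::ₘ B)) (n : ℕ) :
    ∀ A B, Multiset.card A = n → Multiset.card B = n → (A.map val).sum = (B.map val).sum →
      R A B := by
  induction n using Nat.strong_induction_on with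
  | _ n ih =>
  intro A B hA hB hAB
  rcases Nat.lt_or_ge n 3 with hn | hn
  · interval_cases n
    · rw [Multiset.card_eq_zero] at hA hB
      rw [hA, hB]; exact hequiv.refl _
    · rw [Multiset.card_eq_one] at hA hB
      obtain ⟨a, rfl⟩ := hA
      obtain ⟨b, rfl⟩ := hB
      simp only [Multiset.map_singleton, Multiset.sum_singleton] at hAB
      rw [hinj hAB]; exact hequiv.refl _
    · exact h2 A B hA hB hAB
  · -- common element
    have hcA : 0 < Multiset.card (A.map val) := by rw [Multiset.card_map]; omega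
    obtain ⟨m, hm, hAm⟩ := mem_sum_smul hP (A.map val) (by
      intro x hx
      obtain ⟨u, _, rfl⟩ := Multiset.mem_map.mp hx
      exact (hval u).1) hcA
    rw [Multiset.card_map, hA] at hAm
    obtain ⟨x₀, hx₀, hx₀Λ, y₀, hy₀, t₀, ht₀, ht1₀, hm₀⟩ := hR m hm
    obtain ⟨u₀, hu₀⟩ := hsurj x₀ hx₀ hx₀Λ
    have hΛsum : ∀ D : Multiset σ, (D.map val).sum ∈ Λ := by
      intro D
      apply AddSubgroup.multiset_sum_mem
      intro x hx
      obtain ⟨u, _, rfl⟩ := Multiset.mem_map.mp hx
      exact (hval u).2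
    have key : ∀ D : Multiset σ, Multiset.card D = n → (D.map val).sum = (n : ℝ) • m →
        ∃ D', Multiset.card D' = n - 1 ∧ ((u₀ ::ₘ D').map val).sum = (n : ℝ) • m ∧
          R D (u₀ ::ₘ D') := by
      intro D hD hDm
      obtain ⟨u, hu⟩ : ∃ u, u ∈ D := by
        apply Multiset.exists_mem_of_ne_zero
        intro h; rw [h] at hD; simp at hD; omega
      obtain ⟨D1, rfl⟩ := Multiset.exists_cons_of_mem hu
      rw [Multiset.card_cons] at hD
      obtain ⟨m', hm', hDm'⟩ := mem_sum_smul hP (D1.map val) (by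
        intro x hx
        obtain ⟨u, _, rfl⟩ := Multiset.mem_map.mp hx
        exact (hval u).1) (by rw [Multiset.card_map]; omega)
      have hcard : (Multiset.card (D1.map val) : ℝ) = (n : ℝ) - 1 := by
        rw [Multiset.card_map]
        have : (Multiset.card D1 : ℝ) + 1 = n := by exact_mod_cast hD
        linarith
      rw [hcard] at hDm'
      obtain ⟨x', hx', hxΛ', y', hy', t', ht', ht1', hmt'⟩ := hR m' hm'
      obtain ⟨u', hu'⟩ := hsurj x' hx' hxΛ'
      have hW : (n : ℝ) • m = val u + ((n : ℝ) - 1) • m' := by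
        rw [← hDm, Multiset.map_cons, Multiset.sum_cons, hDm']
      obtain ⟨⟨p1, hp1, hp1e⟩, ⟨p2, hp2, hp2e⟩⟩ := neighbours hP hn (hval u).1 hx' hy' ht' ht1' hmt'
        hm hx₀ hy₀ ht₀ ht1₀ hm₀ hW
      have hWΛ : (n : ℝ) • m ∈ Λ := by rw [← hDm]; exact hΛsum _
      obtain ⟨s1, hs1, hs1', hs1''⟩ := idp hP hR (n - 2) p1 hp1 (by
        rw [← hp1e]; exact Λ.sub_mem (Λ.sub_mem hWΛ (hval u).2) hxΛ')
      obtain ⟨s2, hs2, hs2', hs2''⟩ := idp hP hR (n - 2) p2 hp2 (by
        rw [← hp2e]; exact Λ.sub_mem (Λ.sub_mem hWΛ hx₀Λ) hxΛ')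
      obtain ⟨S1, hS1⟩ := lift_multiset val hsurj s1 hs1'
      obtain ⟨S2, hS2⟩ := lift_multiset val hsurj s2 hs2'
      have hcS1 : Multiset.card S1 = n - 2 := by rw [← hs1, ← hS1, Multiset.card_map]
      have hcS2 : Multiset.card S2 = n - 2 := by rw [← hs2, ← hS2, Multiset.card_map]
      refine ⟨u' ::ₘ S2, by rw [Multiset.card_cons, hcS2]; omega, ?_, ?_⟩
      · simp only [Multiset.map_cons, Multiset.sum_cons, hS2, hs2'', ← hp2e, hu₀, hu']
        abel
      · -- chain
        have hsS1 : (S1.map val).sum = (n : ℝ) • m - val u - x' := by rw [hS1, hs1'', hp1e]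
        have hsS2 : (S2.map val).sum = (n : ℝ) • m - x₀ - x' := by rw [hS2, hs2'', hp2e]
        have r1 : R (u ::ₘ D1) (u ::ₘ u' ::ₘ S1) := by
          apply hcons
          apply ih (n - 1) (by omega)
          · omega
          · rw [Multiset.card_cons, hcS1]; omega
          · rw [Multiset.map_cons, Multiset.sum_cons, hsS1, hu', hDm', hW]; abel
        have r2 : R (u ::ₘ u' ::ₘ S1) (u₀ ::ₘ u' ::ₘ S2) := by
          rw [Multiset.cons_swap u u', Multiset.cons_swap u₀ u']
          apply hcons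
          apply ih (n - 1) (by omega)
          · rw [Multiset.card_cons, hcS1]; omega
          · rw [Multiset.card_cons, hcS2]; omega
          · rw [Multiset.map_cons, Multiset.sum_cons, hsS1, Multiset.map_cons, Multiset.sum_cons,
              hsS2, hu₀]; abel
        exact hequiv.trans r1 r2
    obtain ⟨A', hA'c, hA's, hA'R⟩ := key A hA hAm
    obtain ⟨B', hB'c, hB's, hB'R⟩ := key B hB (hAB ▸ hAm)
    have hR' : R (u₀ ::ₘ A') (u₀ ::ₘ B') := by
      apply hcons
      apply ih (n - 1) (by omega) _ _ hA'c hB'c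
      have := hA's.trans hB's.symm
      simpa using this
    exact hequiv.trans hA'R (hequiv.trans hR' (hequiv.symm hB'R))

end Connect

section Algebra

open MvPolynomial

/-- If all binomials of the fibers lie in the ideal generated by the quadrics of the toric ideal,
then the toric ideal is generated by its quadrics. -/
theorem ker_eq_of_fibers {d : ℕ} {σ : Type} {k : Type} [Field k] (z : σ → (Fin d → ℤ))
    (φ : MvPolynomial σ k →ₐ[k] AddMonoidAlgebra k ((Fin d → ℤ) × ℤ))
    (hφ : ∀ u, φ (X u) = AddMonoidAlgebra.single (z u, (1 : ℤ)) (1 : k))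
    (J : Ideal (MvPolynomial σ k)) (hJ : J ≤ RingHom.ker φ)
    (hfib : ∀ A B : Multiset σ, Multiset.card A = Multiset.card B →
      (A.map z).sum = (B.map z).sum →
      (A.map (X (R := k))).prod - (B.map (X (R := k))).prod ∈ J) :
    RingHom.ker φ = J := by
  classical
  apply le_antisymm _ hJ
  -- degrees
  let deg : Multiset σ → (Fin d → ℤ) × ℤ := fun A => ((A.map z).sum, (Multiset.card A : ℤ))
  have hdeg : ∀ A : Multiset σ, φ (A.map (X (R := k))).prod = AddMonoidAlgebra.single (deg A) 1 := by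
    intro A
    induction A using Multiset.induction with
    | empty =>
      simp [deg]
      rfl
    | cons a A ih =>
      rw [Multiset.map_cons, Multiset.prod_cons, map_mul, hφ, ih,
        AddMonoidAlgebra.single_mul_single, one_mul]
      congr 1
      simp only [deg, Multiset.map_cons, Multiset.sum_cons, Multiset.card_cons, Prod.mk_add_mk]
      congr 1
      push_cast
      ring
  have hdeg_inj : ∀ A B : Multiset σ, deg A = deg B →
      Ideal.Quotient.mk J (A.map (X (R := k))).prod =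
        Ideal.Quotient.mk J (B.map (X (R := k))).prod := by
    intro A B hAB
    rw [Ideal.Quotient.eq]
    simp only [deg, Prod.mk.injEq, Nat.cast_inj] at hAB
    exact hfib A B hAB.2 hAB.1
  let g : Multiplicative ((Fin d → ℤ) × ℤ) → MvPolynomial σ k ⧸ J := fun w =>
    if h : ∃ A : Multiset σ, deg A = Multiplicative.toAdd w then
      Ideal.Quotient.mk J ((Classical.choose h).map (X (R := k))).prod else 0
  have hg : ∀ A : Multiset σ, g (Multiplicative.ofAdd (deg A)) =
      Ideal.Quotient.mk J (A.map (X (R := k))).prod := by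
    intro A
    have h : ∃ B : Multiset σ, deg B = Multiplicative.toAdd (Multiplicative.ofAdd (deg A)) :=
      ⟨A, rfl⟩
    simp only [g, dif_pos h]
    exact hdeg_inj _ _ (Classical.choose_spec h)
  let ρ : AddMonoidAlgebra k ((Fin d → ℤ) × ℤ) →+ (MvPolynomial σ k ⧸ J) :=
    AddMonoidAlgebra.liftNC ((algebraMap k (MvPolynomial σ k ⧸ J) : k →+* _) : k →+ _) g
  have hρ : ∀ f : MvPolynomial σ k, ρ (φ f) = Ideal.Quotient.mk J f := by
    intro f
    induction f using MvPolynomial.induction_on' with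
    | monomial s c =>
      have hs : monomial s c = C c * ((Finsupp.toMultiset s).map (X (R := k))).prod := by
        rw [monomial_eq, Finsupp.toMultiset_map, Finsupp.prod_toMultiset]
        congr 1
        rw [Finsupp.prod_mapDomain_index]
        · intro b; simp
        · intro b m n; rw [pow_add]
      rw [hs, map_mul, hdeg]
      have hC : φ (C c) = AddMonoidAlgebra.single (0 : (Fin d → ℤ) × ℤ) c := by
        rw [← MvPolynomial.algebraMap_eq, AlgHom.commutes]
        rfl
      rw [hC, AddMonoidAlgebra.single_mul_single, zero_add, mul_one]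
      simp only [ρ]
      rw [AddMonoidAlgebra.liftNC_single, hg, map_mul]
      congr 1
    | add p q hp hq =>
      rw [map_add, map_add, hp, hq, map_add]
  intro f hf
  rw [RingHom.mem_ker] at hf
  have := hρ f
  rw [← Ideal.Quotient.eq_zero_iff_mem, ← this]
  have hf' : φ f = 0 := hf
  rw [hf', map_zero]

end Algebra

section Main

open MvPolynomial

/-- the inclusion of the integer vectors -/
def castHom (d : ℕ) : (Fin d → ℤ) →+ (Fin d → ℝ) where
  toFun v := fun i => (v i : ℝ)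
  map_zero' := by funext i; simp
  map_add' u v := by funext i; simp

/-- the data of a smooth lattice polytope with long edges, from the convex geometric hypotheses -/
theorem exists_cor {d N : ℕ} {V : Finset (Fin d → ℤ)} {P : Set (Fin d → ℝ)}
    (hP : P = convexHull ℝ ((fun v : Fin d → ℤ => fun i => (v i : ℝ)) '' (V : Set (Fin d → ℤ))))
    (hsm : ∀ x ∈ Set.extremePoints ℝ P,
      ∃ w : Fin d → Fin d → ℤ, IsUnit (Matrix.det (Matrix.of w)) ∧
        (∀ y : Fin d → ℝ,
          ((∃ t : ℝ, 0 ≤ t ∧ ∃ p ∈ P, y = t • (p - x)) ↔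
            (∃ c : Fin d → ℝ, (∀ i, 0 ≤ c i) ∧
              y = ∑ i, c i • (fun j => (w i j : ℝ))))) ∧
        ∀ i, x + (N : ℝ) • (fun j => (w i j : ℝ)) ∈ P) :
    ∃ C : Cor (Fin d → ℝ) d N, C.P = P ∧ C.Λ = (castHom d).range := by
  classical
  have hfinV : ((fun v : Fin d → ℤ => fun i => (v i : ℝ)) '' (V : Set (Fin d → ℤ))).Finite :=
    V.finite_toSet.image _
  have hsub : Set.extremePoints ℝ P ⊆
      ((fun v : Fin d → ℤ => fun i => (v i : ℝ)) '' (V : Set (Fin d → ℤ))) := by
    rw [hP]; exact extremePoints_convexHull_subset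
  have hfin : (Set.extremePoints ℝ P).Finite := hfinV.subset hsub
  have hcomp : IsCompact P := by rw [hP]; exact hfinV.isCompact_convexHull ℝ
  have hconv : Convex ℝ P := by rw [hP]; exact convex_convexHull ℝ _
  have hKM : convexHull ℝ (Set.extremePoints ℝ P) = P := by
    have h1 := closure_convexHull_extremePoints hcomp hconv
    rwa [(hfin.isClosed_convexHull (𝕜 := ℝ)).closure_eq] at h1
  choose! w hwu hwc hwe using hsm
  let ι : Type := {x : Fin d → ℝ // x ∈ Set.extremePoints ℝ P}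
  let fι : Fintype ι := hfin.fintype
  let B : ι → Matrix (Fin d) (Fin d) ℤ := fun a => (Matrix.of (w a.1))⁻¹
  have hBA : ∀ a : ι, B a * Matrix.of (w a.1) = 1 := fun a =>
    Matrix.nonsing_inv_mul _ (hwu a.1 a.2)
  have hAB : ∀ a : ι, Matrix.of (w a.1) * B a = 1 := fun a =>
    Matrix.mul_nonsing_inv _ (hwu a.1 a.2)
  let e : ι → Fin d → (Fin d → ℝ) := fun a i j => (w a.1 i j : ℝ)
  let φ : ι → Fin d → ((Fin d → ℝ) →ₗ[ℝ] ℝ) := fun a i =>
    ∑ j, ((B a j i : ℤ) : ℝ) • LinearMap.proj j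
  have hφ : ∀ a i y, φ a i y = ∑ j, ((B a j i : ℤ) : ℝ) * y j := by
    intro a i y
    simp [φ]
  have hrangeι : Set.range (fun a : ι => a.1) = Set.extremePoints ℝ P := by
    simp [ι]
  have hBAr : ∀ (a : ι) (j j' : Fin d), ∑ i, ((B a j i : ℤ) : ℝ) * (w a.1 i j' : ℝ) =
      if j = j' then 1 else 0 := by
    intro a j j'
    have h1 := congrFun (congrFun (hBA a) j) j'
    rw [Matrix.mul_apply, Matrix.one_apply] at h1
    have h2 := congrArg (fun z : ℤ => (z : ℝ)) h1
    simp only [Matrix.of_apply] at h2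
    push_cast at h2
    exact h2
  have hABr : ∀ (a : ι) (j j' : Fin d), ∑ i, (w a.1 j i : ℝ) * ((B a i j' : ℤ) : ℝ) =
      if j = j' then 1 else 0 := by
    intro a j j'
    have h1 := congrFun (congrFun (hAB a) j) j'
    rw [Matrix.mul_apply, Matrix.one_apply] at h1
    have h2 := congrArg (fun z : ℤ => (z : ℝ)) h1
    simp only [Matrix.of_apply] at h2
    push_cast at h2
    exact h2
  have hdual : ∀ a i j, φ a i (e a j) = if i = j then 1 else 0 := by
    intro a i j
    rw [hφ]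
    have := hABr a j i
    simp only [e]
    rw [show (∑ j_1, ((B a j_1 i : ℤ) : ℝ) * (w a.1 j j_1 : ℝ)) =
      ∑ i_1, (w a.1 j i_1 : ℝ) * ((B a i_1 i : ℤ) : ℝ) from
        Finset.sum_congr rfl fun _ _ => mul_comm _ _, this]
    simp [eq_comm]
  have hrep : ∀ a y, y = ∑ i, φ a i y • e a i := by
    intro a y
    funext j'
    rw [Finset.sum_apply]
    simp only [Pi.smul_apply, smul_eq_mul, hφ, e]
    calc y j' = ∑ j, y j * (if j = j' then 1 else 0) := by simp
      _ = ∑ j, y j * ∑ i, ((B a j i : ℤ) : ℝ) * (w a.1 i j' : ℝ) := by simp only [hBAr]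
      _ = ∑ i, (∑ j, ((B a j i : ℤ) : ℝ) * y j) * (w a.1 i j' : ℝ) := by
          simp only [Finset.mul_sum, Finset.sum_mul]
          rw [Finset.sum_comm]
          apply Finset.sum_congr rfl; intro i _
          apply Finset.sum_congr rfl; intro j _
          ring
  refine ⟨{ ι := ι, fin := inferInstance, vtx := fun a => a.1, e := e, φ := φ,
            Λ := (castHom d).range, hv := ?_, he := ?_, hint := ?_, hrep := hrep, hdual := hdual,
            hpos := ?_, hedge := ?_ }, ?_, rfl⟩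
  · intro a
    obtain ⟨v, _, hv⟩ := hsub a.2
    exact ⟨v, hv⟩
  · intro a i
    exact ⟨w a.1 i, rfl⟩
  · rintro a i z ⟨u, rfl⟩
    refine ⟨∑ j, B a j i * u j, ?_⟩
    rw [hφ]
    push_cast
    rfl
  · intro a b i
    obtain ⟨c, hc, hce⟩ := (hwc a.1 a.2 (b.1 - a.1)).mp
      ⟨1, zero_le_one, b.1, b.2.1, (one_smul _ _).symm⟩
    rw [hce, map_sum]
    apply Finset.sum_nonneg
    intro k _
    rw [map_smul, smul_eq_mul]
    have := hdual a i k
    simp only [e] at this
    rw [this]
    split_ifs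
    · simpa using hc k
    · simp
  · intro a i
    simp only [hrangeι, hKM]
    exact hwe a.1 a.2 i
  · unfold Cor.P
    simp only [hrangeι, hKM]

/-- **Main theorem.** -/
theorem main (d : ℕ) (V : Finset (Fin d → ℤ)) (P : Set (Fin d → ℝ))
    (hP : P = convexHull ℝ ((fun v : Fin d → ℤ => fun i => (v i : ℝ)) '' (V : Set (Fin d → ℤ))))
    (N : ℕ) (hN : 2 * d * (d + 1) * (d + 2) ≤ N)
    (hsm : ∀ x ∈ Set.extremePoints ℝ P,
      ∃ w : Fin d → Fin d → ℤ, IsUnit (Matrix.det (Matrix.of w)) ∧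
        (∀ y : Fin d → ℝ,
          ((∃ t : ℝ, 0 ≤ t ∧ ∃ p ∈ P, y = t • (p - x)) ↔
            (∃ c : Fin d → ℝ, (∀ i, 0 ≤ c i) ∧
              y = ∑ i, c i • (fun j => (w i j : ℝ))))) ∧
        ∀ i, x + (N : ℝ) • (fun j => (w i j : ℝ)) ∈ P)
    (k : Type) [Field k]
    (φ : MvPolynomial {u : Fin d → ℤ // (fun i => (u i : ℝ)) ∈ P} k →ₐ[k]
            AddMonoidAlgebra k ((Fin d → ℤ) × ℤ))
    (hφ : ∀ u, φ (MvPolynomial.X u) = AddMonoidAlgebra.single (u.1, (1 : ℤ)) (1 : k)) :
    RingHom.ker φ = Ideal.span {f | f ∈ RingHom.ker φ ∧ f.IsHomogeneous 2} := by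
  classical
  obtain ⟨C, hCP, hCΛ⟩ := exists_cor hP hsm
  have hR : Rounding P (castHom d).range := by
    have := C.round' hN
    rw [hCP, hCΛ] at this
    exact this
  have hconv : Convex ℝ P := by rw [hP]; exact convex_convexHull ℝ _
  set J := Ideal.span {f | f ∈ RingHom.ker φ ∧ f.IsHomogeneous 2} with hJ
  have hJle : J ≤ RingHom.ker φ := by
    rw [hJ, Ideal.span_le]
    exact fun f hf => hf.1
  apply ker_eq_of_fibers (fun u => u.1) φ hφ J hJle
  intro A B hcard hsum
  let val : {u : Fin d → ℤ // (fun i => (u i : ℝ)) ∈ P} → (Fin d → ℝ) := fun u => castHom d u.1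
  have hvalsum : ∀ A : Multiset {u : Fin d → ℤ // (fun i => (u i : ℝ)) ∈ P},
      (A.map val).sum = castHom d ((A.map (fun u => u.1)).sum) := by
    intro A
    rw [map_multiset_sum, Multiset.map_map]
    rfl
  have hcast_inj : Function.Injective (castHom d) := by
    intro u v huv
    funext i
    have := congrFun huv i
    simpa [castHom] using this
  refine connect val hconv hR (fun u => ⟨u.2, ⟨u.1, rfl⟩⟩) ?_ ?_
    (fun A B => (A.map (X (R := k))).prod - (B.map (X (R := k))).prod ∈ J) ?_ ?_ ?_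
    (Multiset.card A) A B rfl hcard.symm ?_
  · rintro x hx ⟨u, rfl⟩
    exact ⟨⟨u, hx⟩, rfl⟩
  · intro u v huv
    exact Subtype.ext (hcast_inj huv)
  · refine ⟨fun A => by simp, fun {A B} h => ?_, fun {A B C} h1 h2 => ?_⟩
    · have := J.neg_mem h
      rwa [neg_sub] at this
    · have := J.add_mem h1 h2
      rwa [sub_add_sub_cancel] at this
  · intro A B hA hB hAB
    rw [hvalsum, hvalsum] at hAB
    have hAB' := hcast_inj hAB
    apply Ideal.subset_span
    constructor
    · have hdeg : ∀ A : Multiset {u : Fin d → ℤ // (fun i => (u i : ℝ)) ∈ P},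
          φ (A.map (X (R := k))).prod =
            AddMonoidAlgebra.single ((A.map (fun u => u.1)).sum, (Multiset.card A : ℤ)) 1 := by
        intro A
        induction A using Multiset.induction with
        | empty => simp; rfl
        | cons a A ih =>
          rw [Multiset.map_cons, Multiset.prod_cons, map_mul, hφ, ih,
            AddMonoidAlgebra.single_mul_single, one_mul]
          congr 1
          simp only [Multiset.map_cons, Multiset.sum_cons, Multiset.card_cons, Prod.mk_add_mk]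
          congr 1
          push_cast
          ring
      rw [RingHom.mem_ker]
      show φ _ = 0
      rw [map_sub, hdeg, hdeg, hAB', hA, hB, sub_self]
    · have hhom : ∀ A : Multiset {u : Fin d → ℤ // (fun i => (u i : ℝ)) ∈ P},
          Multiset.card A = 2 → (A.map (X (R := k))).prod.IsHomogeneous 2 := by
        intro A hA
        obtain ⟨a, b, rfl⟩ := Multiset.card_eq_two.mp hA
        simp only [Multiset.insert_eq_cons, Multiset.map_cons, Multiset.map_singleton,
          Multiset.prod_cons, Multiset.prod_singleton]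
        exact (isHomogeneous_X k a).mul (isHomogeneous_X k b)
      exact (hhom A hA).sub (hhom B hB)
  · intro u A B h
    rw [Multiset.map_cons, Multiset.map_cons, Multiset.prod_cons, Multiset.prod_cons, ← mul_sub]
    exact J.mul_mem_left _ h
  · rw [hvalsum, hvalsum, hsum]

end Main

end Pool.LongEdges
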