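import Pool.Agent.Lib_helper13.SteklovDefs

open scoped ContDiff
open MeasureTheory
set_option linter.unusedSectionVars false

noncomputable section

namespace Steklov

section general

variable {E : Type} [NormedAddCommGroup E] [NormedSpace ℝ E] [FiniteDimensional ℝ E]

/-- weighted integral of `u` along the line `p + ℝ e` -/
def cproj {F : Type} [NormedAddCommGroup F] [NormedSpace ℝ F] [NormedSpace ℂ F]
    (w : ℝ → ℂ) (e : E) (u : E → F) (p : E) : F :=
  ∫ t in (0:ℝ)..(2 * Real.pi), w t • u (p + t • e)

theorem hasFDerivAt_cproj {F : Type} [NormedAddCommGroup F] [NormedSpace ℝ F] [NormedSpace ℂ F]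
    [IsScalarTower ℝ ℂ F] [CompleteSpace F]
    {w : ℝ → ℂ} (hw : Continuous w) (e : E) {u : E → F} (hu : ContDiff ℝ 1 u) (p : E) :
    HasFDerivAt (cproj w e u) (cproj w e (fderiv ℝ u) p) p := by
  have hcu : Continuous u := hu.continuous
  have hcf : Continuous (fderiv ℝ u) := hu.continuous_fderiv one_ne_zero
  have hcF' : Continuous (fun x : E × ℝ => w x.2 • fderiv ℝ u (x.1 + x.2 • e)) := by fun_prop
  have hcF : Continuous (fun x : E × ℝ => w x.2 • u (x.1 + x.2 • e)) := by fun_prop
  have : ProperSpace E := FiniteDimensional.proper ℝ E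
  have hK : IsCompact (Metric.closedBall p 1 ×ˢ Set.Icc (0:ℝ) (2 * Real.pi)) :=
    (isCompact_closedBall p 1).prod isCompact_Icc
  obtain ⟨C, hC⟩ := hK.exists_bound_of_continuousOn hcF'.continuousOn
  refine intervalIntegral.hasFDerivAt_integral_of_dominated_of_fderiv_le
    (F := fun q t => w t • u (q + t • e)) (F' := fun q t => w t • fderiv ℝ u (q + t • e))
    (s := Metric.closedBall p 1) (bound := fun _ => C)
    (Metric.closedBall_mem_nhds p one_pos) ?_ ?_ ?_ ?_ ?_ ?_
  · refine Filter.Eventually.of_forall fun q => ?_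
    exact (hcF.comp (by fun_prop : Continuous fun t : ℝ => (q, t))).aestronglyMeasurable
  · exact (hcF.comp (by fun_prop : Continuous fun t : ℝ => (p, t))).intervalIntegrable _ _
  · exact (hcF'.comp (by fun_prop : Continuous fun t : ℝ => (p, t))).aestronglyMeasurable
  · refine Filter.Eventually.of_forall fun t ht q hq => ?_
    refine hC (q, t) ⟨hq, ?_⟩
    rw [Set.uIoc_of_le (by positivity)] at ht
    exact ⟨ht.1.le, ht.2⟩
  · exact intervalIntegrable_const
  · refine Filter.Eventually.of_forall fun t ht q hq => ?_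
    have h1 : HasFDerivAt u (fderiv ℝ u (q + t • e)) (q + t • e) :=
      (hu.differentiable one_ne_zero _).hasFDerivAt
    have h2 : HasFDerivAt (fun q : E => q + t • e) (ContinuousLinearMap.id ℝ E) q :=
      (hasFDerivAt_id q).add_const _
    have h3 := h1.comp q h2
    simp only [ContinuousLinearMap.comp_id] at h3
    exact h3.const_smul (w t)

theorem contDiff_cproj_nat (n : ℕ) : ∀ {F : Type} [NormedAddCommGroup F] [NormedSpace ℝ F]
    [NormedSpace ℂ F] [IsScalarTower ℝ ℂ F] [CompleteSpace F]
    {w : ℝ → ℂ} (_ : Continuous w) (e : E) {u : E → F} (_ : ContDiff ℝ n u),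
    ContDiff ℝ n (cproj w e u) := by
  induction n with
  | zero =>
    intro F _ _ _ _ _ w hw e u hu
    have hcu : Continuous u := hu.continuous
    rw [Nat.cast_zero, contDiff_zero]
    refine intervalIntegral.continuous_parametric_intervalIntegral_of_continuous' ?_ _ _
    show Continuous fun x : E × ℝ => w x.2 • u (x.1 + x.2 • e)
    fun_prop
  | succ n ih =>
    intro F _ _ _ _ _ w hw e u hu
    have h1 : ContDiff ℝ 1 u := hu.of_le (by exact_mod_cast Nat.le_add_left 1 n)
    have h2 : ContDiff ℝ n (fderiv ℝ u) := by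
      refine hu.fderiv_right ?_
      norm_cast
    have : (((n + 1 : ℕ) : ℕ∞ω)) = (n : ℕ∞ω) + 1 := by norm_cast
    rw [this, contDiff_succ_iff_hasFDerivAt]
    exact ⟨cproj w e (fderiv ℝ u), ih hw e h2, hasFDerivAt_cproj hw e h1⟩

theorem contDiff_cproj {F : Type} [NormedAddCommGroup F] [NormedSpace ℝ F]
    [NormedSpace ℂ F] [IsScalarTower ℝ ℂ F] [CompleteSpace F]
    {w : ℝ → ℂ} (hw : Continuous w) (e : E) {u : E → F} (hu : ContDiff ℝ ∞ u) :
    ContDiff ℝ ∞ (cproj w e u) := by
  rw [contDiff_infty] at hu ⊢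
  exact fun n => contDiff_cproj_nat n hw e (hu n)

end general

section proj

/-- the character `t ↦ exp(i a t)` -/
def ch (a : ℤ) (t : ℝ) : ℂ := Complex.exp (Complex.I * a * t)

theorem continuous_ch (a : ℤ) : Continuous (ch a) := by unfold ch; fun_prop

theorem ch_add (a : ℤ) (s t : ℝ) : ch a (s + t) = ch a s * ch a t := by
  unfold ch; rw [← Complex.exp_add]; push_cast; ring_nf

theorem ch_neg_mul (a : ℤ) (t : ℝ) : ch (-a) t * ch a t = 1 := by
  unfold ch; rw [← Complex.exp_add]; push_cast; ring_nf; exact Complex.exp_zero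

theorem ch_mul (a b : ℤ) (t : ℝ) : ch a t * ch b t = ch (a + b) t := by
  unfold ch; rw [← Complex.exp_add]; push_cast; ring_nf

theorem ch_two_pi (a : ℤ) : ch a (2 * Real.pi) = 1 := by
  unfold ch
  rw [Complex.exp_eq_one_iff]
  exact ⟨a, by push_cast; ring⟩

theorem ch_zero (a : ℤ) : ch a 0 = 1 := by simp [ch]

theorem ch_ne_zero (a : ℤ) (t : ℝ) : ch a t ≠ 0 := Complex.exp_ne_zero _

variable {E : Type} [NormedAddCommGroup E] [NormedSpace ℝ E] [FiniteDimensional ℝ E]

/-- the `a`-th Fourier mode of `u` in the direction `e` -/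
def proj (a : ℤ) (e : E) (u : E → ℂ) : E → ℂ :=
  cproj (fun t => (2 * Real.pi : ℂ)⁻¹ * ch (-a) t) e u

theorem proj_apply (a : ℤ) (e : E) (u : E → ℂ) (p : E) :
    proj a e u p =
      (2 * Real.pi : ℂ)⁻¹ * ∫ t in (0:ℝ)..(2 * Real.pi), ch (-a) t * u (p + t • e) := by
  unfold proj cproj
  rw [← intervalIntegral.integral_const_mul]
  simp only [smul_eq_mul, mul_assoc]

theorem continuous_projw (a : ℤ) : Continuous (fun t => (2 * Real.pi : ℂ)⁻¹ * ch (-a) t) :=
  continuous_const.mul (continuous_ch _)

theorem contDiff_proj (a : ℤ) (e : E) {u : E → ℂ} (hu : ContDiff ℝ ∞ u) :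
    ContDiff ℝ ∞ (proj a e u) := contDiff_cproj (continuous_projw a) e hu

theorem continuous_proj (a : ℤ) (e : E) {u : E → ℂ} (hu : Continuous u) :
    Continuous (proj a e u) :=
  contDiff_zero.1 (contDiff_cproj_nat 0 (continuous_projw a) e (contDiff_zero.2 hu))

theorem proj_shift (a : ℤ) {e : E} {u : E → ℂ} (hp : ∀ p, u (p + (2 * Real.pi) • e) = u p)
    (p : E) (s : ℝ) : proj a e u (p + s • e) = ch a s * proj a e u p := by
  rw [proj_apply, proj_apply]
  set G : ℝ → ℂ := fun t => ch (-a) t * u (p + t • e) with hG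
  have hGp : Function.Periodic G (2 * Real.pi) := by
    intro t
    simp only [hG, ch_add, ch_two_pi, mul_one, add_smul]
    rw [← add_assoc, hp]
  have h1 : (fun t : ℝ => ch (-a) t * u (p + s • e + t • e)) = fun t => ch a s * G (t + s) := by
    funext t
    simp only [hG]
    rw [ch_add, add_smul]
    have h2 : ch a s * (ch (-a) t * ch (-a) s * u (p + (t • e + s • e)))
      = (ch (-a) s * ch a s) * (ch (-a) t * u (p + (t • e + s • e))) := by ring
    rw [h2, ch_neg_mul, one_mul]
    congr 2
    abel
  rw [h1, intervalIntegral.integral_const_mul]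
  have h3 : ∫ t in (0:ℝ)..(2 * Real.pi), G (t + s) = ∫ t in (0:ℝ)..(2 * Real.pi), G t := by
    rw [intervalIntegral.integral_comp_add_right]
    have := hGp.intervalIntegral_add_eq s 0
    simpa [add_comm] using this
  rw [h3]; ring

theorem integral_ch (a : ℤ) :
    ∫ t in (0:ℝ)..(2 * Real.pi), ch a t = if a = 0 then (2 * Real.pi : ℂ) else 0 := by
  split_ifs with h
  · subst h; simp [ch]
  · unfold ch
    have hc : (Complex.I * a : ℂ) ≠ 0 := by
      simp [Complex.I_ne_zero, h]
    rw [integral_exp_mul_complex hc]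
    have := ch_two_pi a
    unfold ch at this
    rw [this]; simp

theorem proj_of_mode {a b : ℤ} {e : E} {u : E → ℂ}
    (hu : ∀ p (t : ℝ), u (p + t • e) = ch b t * u p) (p : E) :
    proj a e u p = if b = a then u p else 0 := by
  rw [proj_apply]
  have h1 : (fun t : ℝ => ch (-a) t * u (p + t • e)) = fun t => ch (-a + b) t * u p := by
    funext t; rw [hu, ← mul_assoc, ch_mul]
  rw [h1, intervalIntegral.integral_mul_const, integral_ch]
  have hpi : (2 * Real.pi : ℂ) ≠ 0 := by
    have := Real.pi_ne_zero
    simp [this]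
  by_cases h : b = a
  · rw [if_pos h, if_pos (by omega)]
    field_simp
  · rw [if_neg h, if_neg (by omega)]; simp

theorem proj_smul_inv (a : ℤ) {e : E} {c : E → ℂ} {u : E → ℂ}
    (hc : ∀ p (t : ℝ), c (p + t • e) = c p) (p : E) :
    proj a e (fun q => c q * u q) p = c p * proj a e u p := by
  rw [proj_apply, proj_apply]
  have h1 : (fun t : ℝ => ch (-a) t * (c (p + t • e) * u (p + t • e)))
      = fun t => c p * (ch (-a) t * u (p + t • e)) := by
    funext t; rw [hc]; ring
  rw [h1, intervalIntegral.integral_const_mul]; ring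

theorem proj_add (a : ℤ) (e : E) {u v : E → ℂ} (hu : Continuous u) (hv : Continuous v) (p : E) :
    proj a e (fun q => u q + v q) p = proj a e u p + proj a e v p := by
  rw [proj_apply, proj_apply, proj_apply, ← mul_add, ← intervalIntegral.integral_add]
  · simp only [mul_add]
  · refine Continuous.intervalIntegrable ?_ _ _
    exact (continuous_ch _).mul (hu.comp (by fun_prop))
  · refine Continuous.intervalIntegrable ?_ _ _
    exact (continuous_ch _).mul (hv.comp (by fun_prop))

theorem proj_sum (a : ℤ) (e : E) {ι : Type*} (s : Finset ι) {u : ι → E → ℂ}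
    (hu : ∀ i ∈ s, Continuous (u i)) (p : E) :
    proj a e (fun q => ∑ i ∈ s, u i q) p = ∑ i ∈ s, proj a e (u i) p := by
  rw [proj_apply]
  simp only [proj_apply]
  rw [← Finset.mul_sum, ← intervalIntegral.integral_finsetSum]
  · simp only [Finset.mul_sum]
  · intro i hi
    refine Continuous.intervalIntegrable ?_ _ _
    exact (continuous_ch _).mul ((hu i hi).comp (by fun_prop))

theorem proj_translate (a : ℤ) (e v : E) (u : E → ℂ) (p : E) :
    proj a e (fun q => u (q + v)) p = proj a e u (p + v) := by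
  rw [proj_apply, proj_apply]
  congr 2
  funext t
  congr 2
  abel

/-- Uniqueness for Fourier coefficients along a line. -/
theorem eq_zero_of_proj {e : E} {u : E → ℂ} (hu : Continuous u)
    (hp : ∀ p, u (p + (2 * Real.pi) • e) = u p) {p : E}
    (h0 : ∀ a : ℤ, proj a e u p = 0) : u p = 0 := by
  have : Fact (0 < 2 * Real.pi) := ⟨by positivity⟩
  set f : ℝ → ℂ := fun t => u (p + t • e) with hf
  have hfc : Continuous f := hu.comp (by fun_prop)
  have hfp : Function.Periodic f (2 * Real.pi) := by
    intro t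
    simp only [hf]
    rw [add_smul, ← add_assoc, hp]
  let g : C(AddCircle (2 * Real.pi), ℂ) :=
    ⟨hfp.lift, by
      exact continuous_coinduced_dom.mpr hfc⟩
  have hg : ∀ t : ℝ, g (t : AddCircle (2 * Real.pi)) = f t := fun t => hfp.lift_coe t
  have hcoef : fourierCoeff (g : AddCircle (2 * Real.pi) → ℂ) = 0 := by
    funext n
    rw [fourierCoeff_eq_intervalIntegral _ n 0]
    have h1 := h0 n
    rw [proj_apply] at h1
    have hpi : (2 * Real.pi : ℂ) ≠ 0 := by
      have := Real.pi_ne_zero
      simp [this]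
    have h2 : ∫ t in (0:ℝ)..(2 * Real.pi), ch (-n) t * u (p + t • e) = 0 := by
      rcases mul_eq_zero.1 h1 with h | h
      · exact absurd h (inv_ne_zero hpi)
      · exact h
    have h3 : (fun x : ℝ => @fourier (2 * Real.pi) (-n) x • g x)
        = fun t => ch (-n) t * u (p + t • e) := by
      funext t
      rw [hg, fourier_coe_apply, smul_eq_mul]
      simp only [hf]
      congr 1
      unfold ch
      congr 1
      have := Real.pi_ne_zero
      push_cast
      field_simp
    rw [h3, zero_add, h2]; simp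
  have hs : Summable (fourierCoeff (g : AddCircle (2 * Real.pi) → ℂ)) := by
    rw [hcoef]; exact summable_zero
  have := has_pointwise_sum_fourier_series_of_summable hs ((0:ℝ) : AddCircle (2 * Real.pi))
  rw [hcoef] at this
  simp only [Pi.zero_apply, zero_smul] at this
  have h4 := this.unique hasSum_zero
  rw [hg] at h4
  simpa [hf] using h4

end proj

end Steklov
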