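import Mathlib

/-!
# The Steklov problem on the compact manifold with boundary `Ω = [0,1] × 𝕋^d`

`𝕋^d = (ℝ/2πℤ)^d`.  We use the global coordinates `p = (p 0, p 1, …, p d)`, where
`0 ≤ p 0 ≤ 1` and `p 1, …, p d` are angles (every object below is `2π`-periodic in them).
The boundary is `Σ = {p 0 = 0} ∪ {p 0 = 1}`.  All Riemannian notions are given by their
classical coordinate expressions, for an arbitrary smooth Riemannian metric on `Ω`.
-/

open scoped ContDiff
noncomputable section

namespace Steklov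

/-- Coordinates on `ℝ × ℝ^d`. -/
abbrev Pt (d : ℕ) : Type := Fin (d + 1) → ℝ

/-- The partial derivative `∂ᵢ u` at `p`. -/
def pd {d : ℕ} {F : Type*} [NormedAddCommGroup F] [NormedSpace ℝ F]
    (i : Fin (d + 1)) (u : Pt d → F) (p : Pt d) : F :=
  fderiv ℝ u p (Pi.single i 1)

/-- `u` is `2π`-periodic in the coordinates `1,…,d`, i.e. descends to `ℝ × 𝕋^d`. -/
def IsPeriodic {d : ℕ} {F : Type*} (u : Pt d → F) : Prop :=
  ∀ (p : Pt d) (j : Fin d), u (p + Pi.single j.succ (2 * Real.pi)) = u p

/-- The slab `[0,1] × ℝ^d` (which covers `Ω = [0,1] × 𝕋^d`). -/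
def slab (d : ℕ) : Set (Pt d) := {p | 0 ≤ p 0 ∧ p 0 ≤ 1}

/-- The points lying over the boundary `Σ = {0,1} × 𝕋^d`. -/
def bdry (d : ℕ) : Set (Pt d) := {p | p 0 = 0 ∨ p 0 = 1}

/-- A smooth Riemannian metric on `Ω = [0,1] × 𝕋^d`, given by its matrix `g i j = g(∂ᵢ, ∂ⱼ)`
(extended smoothly beyond the slab; only its restriction to the slab matters below). -/
structure Metric (d : ℕ) where
  /-- the matrix of the metric -/
  g : Pt d → Matrix (Fin (d + 1)) (Fin (d + 1)) ℝ
  smooth : ∀ i j, ContDiff ℝ ∞ fun p => g p i j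
  posDef : ∀ p, (g p).PosDef
  periodic : IsPeriodic g

section partialDerivatives

variable {d : ℕ} {F G : Type*} [NormedAddCommGroup F] [NormedSpace ℝ F]
  [NormedAddCommGroup G] [NormedSpace ℝ G]

theorem pd_add {i : Fin (d + 1)} {u v : Pt d → F} {p : Pt d} (hu : DifferentiableAt ℝ u p)
    (hv : DifferentiableAt ℝ v p) : pd i (fun q => u q + v q) p = pd i u p + pd i v p := by
  unfold pd
  rw [show (fun q => u q + v q) = u + v from rfl, fderiv_add hu hv]
  rfl

theorem pd_clm (L : F →L[ℝ] G) {i : Fin (d + 1)} {u : Pt d → F} {p : Pt d}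
    (hu : DifferentiableAt ℝ u p) : pd i (fun q => L (u q)) p = L (pd i u p) := by
  unfold pd
  rw [show (fun q => L (u q)) = L ∘ u from rfl,
    (L.hasFDerivAt.comp p hu.hasFDerivAt).fderiv]
  rfl

theorem pd_const_smul (c : ℝ) {i : Fin (d + 1)} {u : Pt d → F} {p : Pt d} :
    pd i (fun q => c • u q) p = c • pd i u p := by
  unfold pd
  rw [show (fun q => c • u q) = c • u from rfl, fderiv_const_smul_field]
  rfl

theorem contDiff_pd {u : Pt d → F} (hu : ContDiff ℝ ∞ u) (i : Fin (d + 1)) :
    ContDiff ℝ ∞ (pd i u) := by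
  unfold pd
  exact (hu.fderiv_right (m := ∞) (by simp)).clm_apply contDiff_const

end partialDerivatives

namespace Metric

variable {d : ℕ} (m : Metric d)

/-- The inverse metric `g^{ij}`. -/
def inv (p : Pt d) (i j : Fin (d + 1)) : ℝ := (m.g p)⁻¹ i j

/-- The Riemannian volume density `√(det g)`. -/
def vol (p : Pt d) : ℝ := Real.sqrt (m.g p).det

/-- The Laplace–Beltrami operator
`Δ_g u = (det g)^{-1/2} ∑ᵢ ∂ᵢ (∑ⱼ (det g)^{1/2} g^{ij} ∂ⱼ u)`. -/
def laplacian {F : Type*} [NormedAddCommGroup F] [NormedSpace ℝ F]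
    (u : Pt d → F) (p : Pt d) : F :=
  (m.vol p)⁻¹ • ∑ i, pd i (fun q => ∑ j, (m.vol q * m.inv q i j) • pd j u q) p

/-- The outward unit normal `ν` at a boundary point: `ν^i = ± g^{i0} / √(g^{00})`, with sign `+`
on `{p 0 = 1}` and `-` on `{p 0 = 0}`. -/
def normal (p : Pt d) (i : Fin (d + 1)) : ℝ :=
  (if p 0 = 1 then 1 else -1) * m.inv p i 0 / Real.sqrt (m.inv p 0 0)

/-- The outward normal derivative `∂_ν u = du(ν)`. -/
def normalDeriv {F : Type*} [NormedAddCommGroup F] [NormedSpace ℝ F]
    (u : Pt d → F) (p : Pt d) : F :=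
  ∑ i, m.normal p i • pd i u p

section smoothness

theorem contDiff_det_of {n : ℕ} {M : Pt d → Matrix (Fin n) (Fin n) ℝ}
    (h : ∀ i j, ContDiff ℝ ∞ fun p => M p i j) : ContDiff ℝ ∞ fun p => (M p).det := by
  simp only [Matrix.det_apply]
  refine ContDiff.sum fun σ _ => ?_
  exact (contDiff_prod fun i _ => h _ _).const_smul _

theorem contDiff_vol : ContDiff ℝ ∞ m.vol := by
  refine ContDiff.sqrt (contDiff_det_of m.smooth) fun p => ?_
  exact (m.posDef p).det_pos.ne'

theorem contDiff_inv (i j : Fin (d + 1)) : ContDiff ℝ ∞ fun p => m.inv p i j := by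
  have h : (fun p => m.inv p i j) = fun p => ((m.g p).det)⁻¹ *
      ((m.g p).updateRow j (Pi.single i 1)).det := by
    funext p
    rw [inv, Matrix.inv_def, Matrix.smul_apply, Ring.inverse_eq_inv', Matrix.adjugate_apply,
      smul_eq_mul]
  rw [h]
  refine ContDiff.mul (ContDiff.inv (contDiff_det_of m.smooth) fun p =>
    (m.posDef p).det_pos.ne') (contDiff_det_of fun k l => ?_)
  by_cases hk : k = j
  · subst hk
    simp only [Matrix.updateRow_self]
    exact contDiff_const
  · simp only [Matrix.updateRow_ne hk]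
    exact m.smooth k l

variable {F G : Type*} [NormedAddCommGroup F] [NormedSpace ℝ F]
  [NormedAddCommGroup G] [NormedSpace ℝ G]

theorem contDiff_flux {u : Pt d → F} (hu : ContDiff ℝ ∞ u) (i : Fin (d + 1)) :
    ContDiff ℝ ∞ (fun q => ∑ j, (m.vol q * m.inv q i j) • pd j u q) :=
  ContDiff.sum fun j _ => (m.contDiff_vol.mul (m.contDiff_inv i j)).smul (contDiff_pd hu j)

theorem laplacian_add {u v : Pt d → F} (hu : ContDiff ℝ ∞ u) (hv : ContDiff ℝ ∞ v) (p : Pt d) :
    m.laplacian (fun q => u q + v q) p = m.laplacian u p + m.laplacian v p := by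
  unfold laplacian
  rw [← smul_add, ← Finset.sum_add_distrib]
  congr 1
  refine Finset.sum_congr rfl fun i _ => ?_
  rw [← pd_add ((m.contDiff_flux hu i).differentiable (by simp) p)
    ((m.contDiff_flux hv i).differentiable (by simp) p)]
  congr 1
  funext q
  rw [← Finset.sum_add_distrib]
  refine Finset.sum_congr rfl fun j _ => ?_
  rw [pd_add (hu.differentiable (by simp) q) (hv.differentiable (by simp) q), smul_add]

theorem laplacian_clm (L : F →L[ℝ] G) {u : Pt d → F} (hu : ContDiff ℝ ∞ u) (p : Pt d) :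
    m.laplacian (fun q => L (u q)) p = L (m.laplacian u p) := by
  unfold laplacian
  rw [map_smul, map_sum]
  congr 1
  refine Finset.sum_congr rfl fun i _ => ?_
  rw [← pd_clm L ((m.contDiff_flux hu i).differentiable (by simp) p)]
  congr 1
  funext q
  rw [map_sum]
  refine Finset.sum_congr rfl fun j _ => ?_
  rw [pd_clm L (hu.differentiable (by simp) q), map_smul]

theorem normalDeriv_add {u v : Pt d → F} (hu : ContDiff ℝ ∞ u) (hv : ContDiff ℝ ∞ v)
    (p : Pt d) : m.normalDeriv (fun q => u q + v q) p = m.normalDeriv u p + m.normalDeriv v p := by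
  unfold normalDeriv
  rw [← Finset.sum_add_distrib]
  refine Finset.sum_congr rfl fun j _ => ?_
  rw [pd_add (hu.differentiable (by simp) p) (hv.differentiable (by simp) p), smul_add]

theorem normalDeriv_clm (L : F →L[ℝ] G) {u : Pt d → F} (hu : ContDiff ℝ ∞ u) (p : Pt d) :
    m.normalDeriv (fun q => L (u q)) p = L (m.normalDeriv u p) := by
  unfold normalDeriv
  rw [map_sum]
  refine Finset.sum_congr rfl fun j _ => ?_
  rw [pd_clm L (hu.differentiable (by simp) p), map_smul]

end smoothness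

/-- The space of Steklov eigenfunctions with eigenvalue `σ`: the smooth functions `w` on `Ω`
(i.e. the restrictions to the slab of smooth periodic functions `u`) with `Δ_g u = 0` in `Ω` and
`∂_ν u = σ u` on `Σ`.  Its dimension is the multiplicity of `σ` in the Steklov spectrum. -/
def eigenspace (σ : ℝ) : Submodule ℝ (slab d → ℝ) where
  carrier := {w | ∃ u : Pt d → ℝ, ContDiff ℝ ∞ u ∧ IsPeriodic u ∧
    (∀ p ∈ slab d, m.laplacian u p = 0) ∧
    (∀ p ∈ bdry d, m.normalDeriv u p = σ * u p) ∧
    ∀ p : slab d, w p = u p}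
  add_mem' := by
    rintro w w' ⟨u, hu, hup, hul, hub, huw⟩ ⟨v, hv, hvp, hvl, hvb, hvw⟩
    refine ⟨fun q => u q + v q, hu.add hv, fun p j => ?_, fun p hp => ?_, fun p hp => ?_,
      fun p => ?_⟩
    · simp only [hup p j, hvp p j]
    · rw [m.laplacian_add hu hv, hul p hp, hvl p hp, add_zero]
    · rw [m.normalDeriv_add hu hv, hub p hp, hvb p hp, mul_add]
    · rw [Pi.add_apply, huw, hvw]
  zero_mem' := by
    refine ⟨fun _ => 0, contDiff_const, fun p j => rfl, fun p _ => ?_, fun p _ => ?_,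
      fun p => rfl⟩
    · have := m.laplacian_clm (0 : ℝ →L[ℝ] ℝ) (u := fun _ => (0:ℝ)) contDiff_const p
      simpa using this
    · have := m.normalDeriv_clm (0 : ℝ →L[ℝ] ℝ) (u := fun _ => (0:ℝ)) contDiff_const p
      simpa using this
  smul_mem' := by
    rintro c w ⟨u, hu, hup, hul, hub, huw⟩
    refine ⟨fun q => c * u q, contDiff_const.mul hu, fun p j => ?_, fun p hp => ?_,
      fun p hp => ?_, fun p => ?_⟩
    · simp only [hup p j]
    · have := m.laplacian_clm (c • ContinuousLinearMap.id ℝ ℝ) hu p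
      simpa [hul p hp] using this
    · have := m.normalDeriv_clm (c • ContinuousLinearMap.id ℝ ℝ) hu p
      simp only [ContinuousLinearMap.smul_apply, ContinuousLinearMap.id_apply,
        smul_eq_mul] at this
      rw [this, hub p hp]; ring
    · rw [Pi.smul_apply, huw, smul_eq_mul]

/-- The Christoffel symbols `Γ^k_{ij}` of the Levi-Civita connection. -/
def christoffel (k i j : Fin (d + 1)) (p : Pt d) : ℝ :=
  (1 / 2) * ∑ l, m.inv p k l *
    (pd i (fun q => m.g q j l) p + pd j (fun q => m.g q i l) p - pd l (fun q => m.g q i j) p)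

/-- The metric `h = g|_Σ` induced on the boundary (matrix in the coordinates `p 1, …, p d`). -/
def bdryMetric (p : Pt d) : Matrix (Fin d) (Fin d) ℝ :=
  Matrix.of fun i j => m.g p i.succ j.succ

/-- The second fundamental form of `Σ` with respect to the outward unit normal:
`II(∂ᵢ,∂ⱼ) = g(∇_{∂ᵢ} ν, ∂ⱼ) = - g(ν, ∇_{∂ᵢ} ∂ⱼ) = - ∑ g_{kl} ν^k Γ^l_{ij}`. -/
def secondFF (p : Pt d) : Matrix (Fin d) (Fin d) ℝ :=
  Matrix.of fun i j =>
    - ∑ k, ∑ l, m.g p k l * m.normal p k * m.christoffel l i.succ j.succ p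

/-- The matrix of the shape operator (Weingarten map) of `Σ`, `S = h⁻¹ · II`. -/
def shape (p : Pt d) : Matrix (Fin d) (Fin d) ℝ :=
  (m.bdryMetric p)⁻¹ * m.secondFF p

/-- (P4): the mean curvature of `Σ` (the trace of the shape operator, i.e. the sum of the
principal curvatures) is constant on `Σ`. -/
def ConstMeanCurvature : Prop :=
  ∃ c : ℝ, ∀ p ∈ bdry d, (m.shape p).trace = c

/-- (P5): the principal curvatures of `Σ` (the eigenvalues of the shape operator, listed in
increasing order with multiplicity) are constant on `Σ`. -/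
def ConstPrincipalCurvatures : Prop :=
  ∃ κ : Fin d → ℝ, Monotone κ ∧ ∀ p ∈ bdry d,
    (m.shape p).charpoly = ∏ i, (Polynomial.X - Polynomial.C (κ i))

end Metric

/-- Two metrics on `Ω` are Steklov isospectral: every `σ` has the same multiplicity (the
dimension of the space of eigenfunctions) for both. -/
def Isospectral {d : ℕ} (m₁ m₂ : Metric d) : Prop :=
  ∀ σ : ℝ, Nonempty (m₁.eigenspace σ ≃ₗ[ℝ] m₂.eigenspace σ)

end Steklov
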