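import Pool.Agent.Lib_helper13.SteklovPair

open scoped ContDiff
open MeasureTheory

set_option linter.unusedSectionVars false

noncomputable section

namespace Steklov

theorem G1_bdry {p : Pt 3} (hp : p ∈ bdry 3) : G1 p = 1 := by
  obtain ⟨h1, h2, _⟩ := bdry_vals hp
  ext i j
  fin_cases i <;> fin_cases j <;> simp [G1, h1, h2]

theorem G2_bdry {p : Pt 3} (hp : p ∈ bdry 3) : G2 p = 1 := by
  obtain ⟨_, _, h3⟩ := bdry_vals hp
  unfold G2
  rw [h3, ← Matrix.diagonal_one]
  congr 1
  funext i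
  fin_cases i <;> rfl

/-- second fundamental form of a metric which is the identity at `p`, with constant `g_{0j}`. -/
theorem secondFF_formula (m : Metric 3) {p : Pt 3} (hg : m.g p = 1)
    (hn : ∀ i, m.normal p i = if i = 0 then sg p else 0)
    (h0 : ∀ (q : Pt 3) (j : Fin 3), m.g q j.succ 0 = 0) (i j : Fin 3) :
    m.secondFF p i j = sg p * (1 / 2) * pd 0 (fun q => m.g q i.succ j.succ) p := by
  have hinv : ∀ i j, m.inv p i j = if i = j then 1 else 0 := by
    intro i j; unfold Metric.inv; rw [hg, inv_one, Matrix.one_apply]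
  have hG : m.christoffel 0 i.succ j.succ p = -(1 / 2) * pd 0 (fun q => m.g q i.succ j.succ) p := by
    unfold Metric.christoffel
    simp only [hinv]
    rw [Finset.sum_eq_single 0]
    · have e1 : (fun q => m.g q j.succ 0) = fun _ => 0 := funext fun q => h0 q j
      have e2 : (fun q => m.g q i.succ 0) = fun _ => 0 := funext fun q => h0 q i
      rw [e1, e2]
      have hz : ∀ k, pd k (fun _ : Pt 3 => (0:ℝ)) p = 0 := by
        intro k; unfold pd; simp
      rw [hz, hz]; simp
    · intro l _ hl; rw [if_neg (Ne.symm hl), zero_mul]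
    · intro h; exact absurd (Finset.mem_univ _) h
  show - ∑ k, ∑ l, m.g p k l * m.normal p k * m.christoffel l i.succ j.succ p = _
  rw [Finset.sum_eq_single 0, Finset.sum_eq_single 0]
  · rw [hg, hn, hG]; simp; ring
  · intro l _ hl
    rw [hg, Matrix.one_apply, if_neg (Ne.symm hl)]; simp
  · intro h; exact absurd (Finset.mem_univ _) h
  · intro k _ hk
    refine Finset.sum_eq_zero fun l _ => ?_
    rw [hn, if_neg hk]; simp
  · intro h; exact absurd (Finset.mem_univ _) h

theorem shape_eq (m : Metric 3) {p : Pt 3} (hg : m.g p = 1) : m.shape p = m.secondFF p := by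
  unfold Metric.shape
  have : m.bdryMetric p = 1 := by
    ext i j
    simp [Metric.bdryMetric, hg, Matrix.one_apply]
  rw [this, inv_one, one_mul]

/-- derivative in the direction `0` -/
theorem pd0_eq {f : Pt 3 → ℝ} (hf : ContDiff ℝ ∞ f) (p : Pt 3) {c : ℝ}
    (h : HasDerivAt (fun t : ℝ => f (p + t • (Pi.single 0 1 : Pt 3))) c 0) : pd 0 f p = c := by
  have h1 : HasFDerivAt f (fderiv ℝ f (p + (0:ℝ) • (Pi.single 0 1 : Pt 3)))
      (p + (0:ℝ) • (Pi.single 0 1 : Pt 3)) :=
    (hf.differentiable (by simp) _).hasFDerivAt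
  have h2 : HasDerivAt (fun t : ℝ => p + t • (Pi.single 0 1 : Pt 3)) (Pi.single 0 1 : Pt 3) 0 := by
    have := ((hasDerivAt_id (0:ℝ)).smul_const (Pi.single 0 1 : Pt 3)).const_add p
    simpa using this
  have h3 := h1.comp_hasDerivAt (0:ℝ) h2
  have := h3.unique h
  unfold pd
  simpa using this

theorem hasDerivAt_prof (p : Pt 3) :
    HasDerivAt (fun t : ℝ => prof ((p + t • (Pi.single 0 1 : Pt 3)) 0)) (1 - 2 * p 0) 0 := by
  have h1 : HasDerivAt (fun t : ℝ => p 0 + t) 1 0 := (hasDerivAt_id (0:ℝ)).const_add _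
  have h2 := h1.mul (h1.const_sub 1)
  have e : (fun t : ℝ => prof ((p + t • (Pi.single 0 1 : Pt 3)) 0))
      = (fun t : ℝ => p 0 + t) * (fun t : ℝ => 1 - (p 0 + t)) := by
    funext t; simp [prof]
  rw [e]
  refine h2.congr_deriv ?_
  ring

theorem pd0_cc {p : Pt 3} (hp : p ∈ bdry 3) : HasDerivAt
    (fun t : ℝ => cc (p + t • (Pi.single 0 1 : Pt 3))) 0 0 := by
  have h := (hasDerivAt_prof p).cosh
  refine h.congr_deriv ?_
  have := (bdry_vals hp).2.1
  unfold ss at this
  simp [this]

theorem pd0_ss {p : Pt 3} (hp : p ∈ bdry 3) : HasDerivAt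
    (fun t : ℝ => ss (p + t • (Pi.single 0 1 : Pt 3))) (1 - 2 * p 0) 0 := by
  have h := (hasDerivAt_prof p).sinh
  refine h.congr_deriv ?_
  have := (bdry_vals hp).1
  unfold cc at this
  simp [this]

theorem co_line (p : Pt 3) (t : ℝ) : co (p + t • (Pi.single 0 1 : Pt 3)) = co p := by
  simp [co]

theorem si_line (p : Pt 3) (t : ℝ) : si (p + t • (Pi.single 0 1 : Pt 3)) = si p := by
  simp [si]

theorem sg_mul {p : Pt 3} (hp : p ∈ bdry 3) : sg p * (1 - 2 * p 0) = -1 := by
  rcases hp with h | h <;> simp [sg, h]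
  norm_num

/-- derivative of `α cc + β ss` (with `α`, `β` independent of `p 0`) -/
theorem pd0_comb {p : Pt 3} (hp : p ∈ bdry 3) {f : Pt 3 → ℝ} (hf : ContDiff ℝ ∞ f) {α β : ℝ}
    (h : ∀ t : ℝ, f (p + t • (Pi.single 0 1 : Pt 3)) =
      α * cc (p + t • (Pi.single 0 1 : Pt 3)) + β * ss (p + t • (Pi.single 0 1 : Pt 3))) :
    sg p * (1 / 2) * pd 0 f p = - (β / 2) := by
  have h1 := ((pd0_cc hp).const_mul α).add ((pd0_ss hp).const_mul β)
  have h2 : pd 0 f p = α * 0 + β * (1 - 2 * p 0) := by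
    refine pd0_eq hf p ?_
    have e : (fun t : ℝ => f (p + t • (Pi.single 0 1 : Pt 3))) = fun t : ℝ =>
      α * cc (p + t • (Pi.single 0 1 : Pt 3)) + β * ss (p + t • (Pi.single 0 1 : Pt 3)) :=
      funext h
    rw [e]; exact h1
  rw [h2]
  linear_combination (β / 2) * sg_mul hp

theorem pd0_const (p : Pt 3) (c : ℝ) : pd 0 (fun _ : Pt 3 => c) p = 0 := by
  unfold pd; simp

theorem M1_shape {p : Pt 3} (hp : p ∈ bdry 3) : M1.shape p =
    !![0, 0, 0; 0, co p / 2, si p / 2; 0, si p / 2, -(co p / 2)] := by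
  rw [shape_eq M1 (G1_bdry hp)]
  have key := secondFF_formula M1 (G1_bdry hp) (M1_normal p)
    (by intro q j; fin_cases j <;> simp [M1, G1])
  ext i j
  rw [key]
  have hsm := M1.smooth i.succ j.succ
  fin_cases i <;> fin_cases j
  · simp [M1, G1, pd0_const]
  · simp [M1, G1, pd0_const]
  · simp [M1, G1, pd0_const]
  · simp [M1, G1, pd0_const]
  · have := pd0_comb hp hsm (α := 1) (β := -co p) (by
      intro t; simp [M1, G1, co_line]; ring)
    refine this.trans ?_
    simp; ring
  · have := pd0_comb hp hsm (α := 0) (β := -si p) (by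
      intro t; simp [M1, G1, si_line]; ring)
    refine this.trans ?_
    simp; ring
  · simp [M1, G1, pd0_const]
  · have := pd0_comb hp hsm (α := 0) (β := -si p) (by
      intro t; simp [M1, G1, si_line]; ring)
    refine this.trans ?_
    simp; ring
  · have := pd0_comb hp hsm (α := 1) (β := co p) (by
      intro t; simp [M1, G1, co_line]; ring)
    refine this.trans ?_
    simp

theorem M2_shape {p : Pt 3} (hp : p ∈ bdry 3) : M2.shape p =
    !![-(co p / 2), 0, 0; 0, 0, 0; 0, 0, 0] := by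
  rw [shape_eq M2 (G2_bdry hp)]
  have key := secondFF_formula M2 (G2_bdry hp) (M2_normal hp)
    (by intro q j; fin_cases j <;> simp [M2, G2])
  ext i j
  rw [key]
  have hsm := M2.smooth i.succ j.succ
  fin_cases i <;> fin_cases j
  · have := pd0_comb hp hsm (α := 1) (β := co p) (by
      intro t; simp [M2, G2, EE, co_line]; ring)
    refine this.trans ?_
    simp
  all_goals simp [M2, G2, pd0_const]

theorem M1_constPrincipal : M1.ConstPrincipalCurvatures := by
  refine ⟨![-(1/2), 0, 1/2], ?_, fun p hp => ?_⟩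
  · intro i j hij
    fin_cases i <;> fin_cases j <;> simp_all
  · rw [M1_shape hp, Matrix.charpoly, Matrix.det_fin_three, Fin.prod_univ_three]
    simp
    have hc : (co p / 2) * (co p / 2) + (si p / 2) * (si p / 2) = 2⁻¹ * (2⁻¹ : ℝ) := by
      have := co_sq p
      linear_combination (1 / 4) * this
    have hC : Polynomial.C (co p / 2) * Polynomial.C (co p / 2)
        + Polynomial.C (si p / 2) * Polynomial.C (si p / 2)
        = Polynomial.C (2⁻¹ : ℝ) * Polynomial.C (2⁻¹ : ℝ) := by
      rw [← Polynomial.C_mul, ← Polynomial.C_mul, ← Polynomial.C_mul, ← Polynomial.C_add, hc]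
    linear_combination -(Polynomial.X : Polynomial ℝ) * hC

theorem M1_constMean : M1.ConstMeanCurvature := by
  refine ⟨0, fun p hp => ?_⟩
  rw [M1_shape hp, Matrix.trace_fin_three]
  simp

theorem M2_trace {p : Pt 3} (hp : p ∈ bdry 3) : (M2.shape p).trace = -(co p / 2) := by
  rw [M2_shape hp, Matrix.trace_fin_three]
  simp

theorem zero_mem_bdry : (0 : Pt 3) ∈ bdry 3 := Or.inl rfl
theorem pi_mem_bdry : (Pi.single 1 Real.pi : Pt 3) ∈ bdry 3 := Or.inl (by simp)

theorem M2_not_constMean : ¬ M2.ConstMeanCurvature := by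
  rintro ⟨c, hc⟩
  have h1 := hc _ zero_mem_bdry
  have h2 := hc _ pi_mem_bdry
  rw [M2_trace zero_mem_bdry] at h1
  rw [M2_trace pi_mem_bdry] at h2
  simp [co] at h1 h2
  linarith

theorem M2_not_constPrincipal : ¬ M2.ConstPrincipalCurvatures := by
  rintro ⟨κ, _, hκ⟩
  apply M2_not_constMean
  refine ⟨-(∏ i, (Polynomial.X - Polynomial.C (κ i))).coeff 2, fun p hp => ?_⟩
  rw [← hκ p hp]
  have := Matrix.trace_eq_neg_charpoly_coeff (M2.shape p)
  simpa using this

end Steklov
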