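import Pool.Agent.Lib_helper13.SteklovMode

open scoped ContDiff
open MeasureTheory

set_option linter.unusedSectionVars false

noncomputable section

namespace Steklov

/-- second derivative test at a local maximum -/
theorem second_deriv_nonpos {g g' : ℝ → ℝ} {c : ℝ} (h1 : ∀ t, HasDerivAt g (g' t) t)
    (h2 : HasDerivAt g' c 0) (hmax : IsLocalMax g 0) : c ≤ 0 := by
  by_contra hc
  push Not at hc
  have e1 : deriv g = g' := funext fun t => (h1 t).deriv
  have e0 : deriv g 0 = 0 := hmax.deriv_eq_zero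
  have hmin : IsLocalMin g 0 := by
    refine isLocalMin_of_deriv_deriv_pos ?_ e0 (h1 0).continuousAt
    rw [e1, h2.deriv]; exact hc
  have hconst : g =ᶠ[nhds 0] fun _ => g 0 := by
    filter_upwards [hmax, hmin] with t ht ht'
    exact le_antisymm ht ht'
  have h3 : deriv g =ᶠ[nhds 0] fun _ => 0 := by
    have := hconst.deriv
    simpa using this
  have h4 : deriv (deriv g) 0 = 0 := by
    have := h3.deriv_eq
    simpa using this
  rw [e1, h2.deriv] at h4
  linarith

theorem nonneg_of_left {H : ℝ → ℝ} {c : ℝ} (h : HasDerivAt H c 0)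
    (hm : ∀ t : ℝ, -1 ≤ t → t ≤ 0 → H t ≤ H 0) : 0 ≤ c := by
  have h1 := h.tendsto_slope_zero_left
  refine ge_of_tendsto h1 ?_
  have h2 : ∀ᶠ t : ℝ in nhdsWithin 0 (Set.Iio 0), t ∈ Set.Ioo (-1:ℝ) 0 :=
    Ioo_mem_nhdsLT (by norm_num)
  filter_upwards [h2] with t ht
  have h3 := hm t ht.1.le ht.2.le
  simp only [zero_add, smul_eq_mul]
  exact mul_nonneg_of_nonpos_of_nonpos (inv_nonpos.2 ht.2.le) (by linarith)

theorem nonpos_of_right {H : ℝ → ℝ} {c : ℝ} (h : HasDerivAt H c 0)
    (hm : ∀ t : ℝ, 0 ≤ t → t ≤ 1 → H t ≤ H 0) : c ≤ 0 := by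
  have h1 := h.tendsto_slope_zero_right
  refine le_of_tendsto h1 ?_
  have h2 : ∀ᶠ t : ℝ in nhdsWithin 0 (Set.Ioi 0), t ∈ Set.Ioo (0:ℝ) 1 :=
    Ioo_mem_nhdsGT (by norm_num)
  filter_upwards [h2] with t ht
  have h3 := hm t ht.1.le ht.2.le
  simp only [zero_add, smul_eq_mul]
  exact mul_nonpos_of_nonneg_of_nonpos (inv_nonneg.2 ht.1.le) (by linarith)

/-- derivative along a line -/
theorem hasDerivAt_line {d : ℕ} {u : Pt d → ℂ} (hu : ContDiff ℝ ∞ u) (i : Fin (d + 1))
    (p : Pt d) (t : ℝ) :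
    HasDerivAt (fun t : ℝ => u (p + t • (Pi.single i 1 : Pt d)))
      (pd i u (p + t • (Pi.single i 1 : Pt d))) t := by
  have h1 : HasFDerivAt u (fderiv ℝ u (p + t • (Pi.single i 1 : Pt d)))
      (p + t • (Pi.single i 1 : Pt d)) :=
    (hu.differentiable (by simp) _).hasFDerivAt
  have h2 : HasDerivAt (fun t : ℝ => p + t • (Pi.single i 1 : Pt d)) (Pi.single i 1 : Pt d) t := by
    have := ((hasDerivAt_id t).smul_const (Pi.single i 1 : Pt d)).const_add p
    simpa using this
  exact h1.comp_hasDerivAt t h2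

/-- the weight -/
def psi (K r : ℝ) : ℝ := Real.exp (-K * (r - 1 / 2) ^ 2)

theorem psi_pos (K r : ℝ) : 0 < psi K r := Real.exp_pos _

theorem hasDerivAt_psi (K r : ℝ) : HasDerivAt (psi K) (-2 * K * (r - 1 / 2) * psi K r) r := by
  unfold psi
  have h : HasDerivAt (fun r : ℝ => -K * (r - 1 / 2) ^ 2) (-2 * K * (r - 1 / 2)) r := by
    have h1 := (hasDerivAt_id r).sub_const (1/2)
    have h2 := (h1.mul h1).const_mul (-K)
    refine (h2.congr_deriv (by simp; ring)).congr_of_eventuallyEq ?_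
    exact Filter.Eventually.of_forall fun t => by simp [sq]
  exact h.exp.congr_deriv (by ring)

theorem hre {f : ℝ → ℂ} {f' : ℂ} {t : ℝ} (h : HasDerivAt f f' t) :
    HasDerivAt (fun t => (f t).re) f'.re t := Complex.reCLM.hasFDerivAt.comp_hasDerivAt t h

theorem him {f : ℝ → ℂ} {f' : ℂ} {t : ℝ} (h : HasDerivAt f f' t) :
    HasDerivAt (fun t => (f t).im) f'.im t := Complex.imCLM.hasFDerivAt.comp_hasDerivAt t h

/-- derivatives of `|f|²` -/
theorem hasDerivAt_normSq {f f' : ℝ → ℂ} {t : ℝ} (h : HasDerivAt f (f' t) t) :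
    HasDerivAt (fun t => (f t).re ^ 2 + (f t).im ^ 2)
      (2 * ((f t).re * (f' t).re + (f t).im * (f' t).im)) t := by
  have h1 : HasDerivAt (fun t => (f t).re) (f' t).re t := hre h
  have h2 : HasDerivAt (fun t => (f t).im) (f' t).im t := him h
  have h3 := (h1.mul h1).add (h2.mul h2)
  refine (h3.congr_deriv (by ring)).congr_of_eventuallyEq ?_
  exact Filter.Eventually.of_forall fun t => by simp [sq]

theorem hasDerivAt_normSq' {f f' : ℝ → ℂ} {c : ℂ} {t : ℝ} (h : HasDerivAt f (f' t) t)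
    (h' : HasDerivAt f' c t) :
    HasDerivAt (fun t => 2 * ((f t).re * (f' t).re + (f t).im * (f' t).im))
      (2 * ((f' t).re ^ 2 + (f' t).im ^ 2 + ((f t).re * c.re + (f t).im * c.im))) t := by
  have h1 : HasDerivAt (fun t => (f t).re) (f' t).re t := hre h
  have h2 : HasDerivAt (fun t => (f t).im) (f' t).im t := him h
  have h3 : HasDerivAt (fun t => (f' t).re) c.re t := hre h'
  have h4 : HasDerivAt (fun t => (f' t).im) c.im t := him h'
  exact (((h1.mul h3).add (h2.mul h4)).const_mul 2).congr_deriv (by ring)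

/-- The maximum principle: for a large potential there is no nonzero Steklov solution. -/
theorem vanish {σ K : ℝ} (hK : K = 2 * |σ| + 1) {u : Pt 3 → ℂ} (hu : ContDiff ℝ ∞ u)
    (hper : IsPeriodic u) {Q : Pt 3 → ℝ} (hQ : ∀ p ∈ slab 3, K ^ 2 + 2 * K < 2 * Q p)
    (hpde : ∀ p ∈ slab 3, pd 0 (pd 0 u) p + pd 1 (pd 1 u) p = (Q p : ℂ) * u p)
    (hb1 : ∀ p : Pt 3, p 0 = 1 → pd 0 u p = (σ : ℂ) * u p)
    (hb0 : ∀ p : Pt 3, p 0 = 0 → - pd 0 u p = (σ : ℂ) * u p) :
    ∀ p ∈ slab 3, u p = 0 := by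
  intro q hq
  set N : Pt 3 → ℝ := fun p => (u p).re ^ 2 + (u p).im ^ 2 with hN
  set F : Pt 3 → ℝ := fun p => N p * psi K (p 0) with hF
  have hpsic : Continuous (psi K) := by unfold psi; fun_prop
  have hNc : Continuous N := by
    have := hu.continuous
    exact ((Complex.continuous_re.comp this).pow 2).add ((Complex.continuous_im.comp this).pow 2)
  have hFc : Continuous F := hNc.mul (hpsic.comp (continuous_apply 0))
  -- the compact set
  let C : Set (Pt 3) := Set.Icc ![0, 0, q 2, q 3] ![1, 2 * Real.pi, q 2, q 3]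
  have hC : IsCompact C := isCompact_Icc
  have hpi : 0 < 2 * Real.pi := by positivity
  have hCne : C.Nonempty := by
    refine ⟨![0, 0, q 2, q 3], ?_⟩
    simp only [C, Set.mem_Icc, le_refl, true_and]
    intro i; fin_cases i <;> simp [Real.pi_nonneg]
  obtain ⟨p, hpC, hpmax⟩ := hC.exists_isMaxOn hCne hFc.continuousOn
  have hC' : ∀ x : Pt 3, x ∈ C ↔ (0 ≤ x 0 ∧ x 0 ≤ 1) ∧ (0 ≤ x 1 ∧ x 1 ≤ 2 * Real.pi) ∧
      x 2 = q 2 ∧ x 3 = q 3 := by
    intro x
    simp only [C, Set.mem_Icc, Pi.le_def, Fin.forall_fin_succ]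
    simp
    constructor
    · rintro ⟨⟨h0, h1, h2, h3⟩, h0', h1', h2', h3'⟩
      exact ⟨⟨h0, h0'⟩, ⟨h1, h1'⟩, le_antisymm h2' h2, le_antisymm h3' h3⟩
    · rintro ⟨⟨h0, h0'⟩, ⟨h1, h1'⟩, h2, h3⟩
      exact ⟨⟨h0, h1, h2.ge, h3.ge⟩, h0', h1', h2.le, h3.le⟩
  have hpC' := (hC' p).1 hpC
  -- maximum over the whole strip
  have hmax : ∀ x : Pt 3, 0 ≤ x 0 → x 0 ≤ 1 → x 2 = q 2 → x 3 = q 3 → F x ≤ F p := by
    intro x h0 h1 h2 h3
    set e : Pt 3 := Pi.single 1 1 with he
    have hp1 : Function.Periodic (fun t : ℝ => F (x + t • e)) (2 * Real.pi) := by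
      intro t
      have hue : u (x + (t + 2 * Real.pi) • e) = u (x + t • e) := by
        have := hper (x + t • e) 0
        rw [← this, add_smul, ← add_assoc]
        congr 2
        funext i
        simp only [he, Pi.smul_apply, smul_eq_mul]
        fin_cases i <;> simp
      have h00 : (x + (t + 2 * Real.pi) • e) 0 = (x + t • e) 0 := by simp [he]
      simp only [hF, hN, hue, h00]
    obtain ⟨y, hy, hy'⟩ := hp1.exists_mem_Ico hpi 0 (-(x 1))
    have e1 : F x = F (x + y • e) := by simpa using hy'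
    rw [e1]
    refine hpmax ((hC' _).2 ⟨?_, ?_, ?_, ?_⟩)
    · simp [he, h0, h1]
    · have := hy.1; have := hy.2
      simp [he]; constructor <;> linarith
    · simp [he, h2]
    · simp [he, h3]
  have hpslab : p ∈ slab 3 := hpC'.1
  -- it suffices that N p = 0
  suffices hNp : N p = 0 by
    have h1 := hmax q hq.1 hq.2 rfl rfl
    have h2 : F p = 0 := by simp [hF, hNp]
    rw [h2] at h1
    have h3 : N q ≤ 0 := by
      by_contra h
      push Not at h
      have : 0 < F q := mul_pos h (psi_pos _ _)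
      linarith
    have h4 : (u q).re ^ 2 + (u q).im ^ 2 ≤ 0 := h3
    have h5 : (u q).re = 0 := by nlinarith [sq_nonneg (u q).re, sq_nonneg (u q).im]
    have h6 : (u q).im = 0 := by nlinarith [sq_nonneg (u q).re, sq_nonneg (u q).im]
    exact Complex.ext h5 h6
  by_contra hne
  have hNpos : 0 < N p := lt_of_le_of_ne (by positivity) (Ne.symm hne)
  have hKpos : 0 < K := by rw [hK]; positivity
  -- derivatives along the two lines
  set e0 : Pt 3 := Pi.single 0 1 with he0
  set e1 : Pt 3 := Pi.single 1 1 with he1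
  have hu0 := contDiff_pd hu 0
  have hu1 := contDiff_pd hu 1
  have dA := fun t => hasDerivAt_line hu 0 p t
  have dB := fun t => hasDerivAt_line hu0 0 p t
  have dC := fun t => hasDerivAt_line hu 1 p t
  have dD := fun t => hasDerivAt_line hu1 1 p t
  rw [← he0] at dA dB
  rw [← he1] at dC dD
  -- direction 1
  have hG1 := fun t => hasDerivAt_normSq (f := fun t : ℝ => u (p + t • e1))
    (f' := fun t : ℝ => pd 1 u (p + t • e1)) (dC t)
  have hG2 := hasDerivAt_normSq' (f := fun t : ℝ => u (p + t • e1))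
    (f' := fun t : ℝ => pd 1 u (p + t • e1)) (dC 0) (dD 0)
  have hmax1 : IsLocalMax (fun t : ℝ => (u (p + t • e1)).re ^ 2 + (u (p + t • e1)).im ^ 2) 0 := by
    refine Filter.Eventually.of_forall fun t => ?_
    have h1 := hmax (p + t • e1) (by simp [he1, hpslab.1]) (by simp [he1, hpslab.2])
      (by simp [he1, hpC'.2.2.1]) (by simp [he1, hpC'.2.2.2])
    have h2 : (p + t • e1) 0 = p 0 := by simp [he1]
    simp only [hF, hN, h2] at h1
    have h3 := le_of_mul_le_mul_right h1 (psi_pos K (p 0))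
    simpa using h3
  have hi1 := second_deriv_nonpos hG1 hG2 hmax1
  simp only [zero_smul, add_zero] at hi1
  -- direction 0
  have hH1 : ∀ t : ℝ, HasDerivAt (fun t : ℝ => ((u (p + t • e0)).re ^ 2 + (u (p + t • e0)).im ^ 2)
      * psi K (p 0 + t)) (2 * ((u (p + t • e0)).re * (pd 0 u (p + t • e0)).re +
        (u (p + t • e0)).im * (pd 0 u (p + t • e0)).im) * psi K (p 0 + t) +
      ((u (p + t • e0)).re ^ 2 + (u (p + t • e0)).im ^ 2) *
        (-2 * K * (p 0 + t - 1 / 2) * psi K (p 0 + t))) t := by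
    intro t
    have h1 := hasDerivAt_normSq (f := fun t : ℝ => u (p + t • e0))
      (f' := fun t : ℝ => pd 0 u (p + t • e0)) (dA t)
    have h2 : HasDerivAt (fun t : ℝ => psi K (p 0 + t))
        (-2 * K * (p 0 + t - 1 / 2) * psi K (p 0 + t)) t := by
      exact (hasDerivAt_psi K (p 0 + t)).comp_const_add (p 0) t
    exact h1.mul h2
  have hline : ∀ t : ℝ, 0 ≤ p 0 + t → p 0 + t ≤ 1 →
      ((u (p + t • e0)).re ^ 2 + (u (p + t • e0)).im ^ 2) * psi K (p 0 + t)
        ≤ ((u p).re ^ 2 + (u p).im ^ 2) * psi K (p 0) := by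
    intro t h0 h1
    have h2 : (p + t • e0) 0 = p 0 + t := by simp [he0]
    have h1 := hmax (p + t • e0) (by rw [h2]; exact h0) (by rw [h2]; exact h1)
      (by simp [he0, hpC'.2.2.1]) (by simp [he0, hpC'.2.2.2])
    simp only [hF, hN, h2] at h1
    exact h1
  have hψ := psi_pos K (p 0)
  have hH0 := hH1 0
  simp only [zero_smul, add_zero] at hH0
  have hNe : N p = (u p).re ^ 2 + (u p).im ^ 2 := rfl
  have hσ := le_abs_self σ
  have hσ' := neg_abs_le σ
  rcases eq_or_ne (p 0) 1 with hp1 | hp1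
  · -- boundary point `p 0 = 1`
    have hc := nonneg_of_left hH0 (fun t ht1 ht0 => by
      have := hline t (by rw [hp1]; linarith) (by rw [hp1]; linarith)
      simpa using this)
    have hb := hb1 p hp1
    have hre : (pd 0 u p).re = σ * (u p).re := by rw [hb]; simp
    have him : (pd 0 u p).im = σ * (u p).im := by rw [hb]; simp
    rw [hre, him, hp1] at hc
    rw [hp1] at hψ
    have : 2 * ((u p).re * (σ * (u p).re) + (u p).im * (σ * (u p).im)) * psi K 1 +
      ((u p).re ^ 2 + (u p).im ^ 2) * (-2 * K * (1 - 1 / 2) * psi K 1)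
      = - (psi K 1 * N p * (K - 2 * σ)) := by rw [hNe]; ring
    rw [this] at hc
    have h2 : 0 < psi K 1 * N p * (K - 2 * σ) := mul_pos (mul_pos hψ hNpos) (by linarith)
    linarith
  rcases eq_or_ne (p 0) 0 with hp0 | hp0
  · -- boundary point `p 0 = 0`
    have hc := nonpos_of_right hH0 (fun t ht0 ht1 => by
      have := hline t (by rw [hp0]; linarith) (by rw [hp0]; linarith)
      simpa using this)
    have hb := hb0 p hp0
    have hb' : pd 0 u p = - ((σ : ℂ) * u p) := by rw [← hb]; ring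
    have hre : (pd 0 u p).re = -(σ * (u p).re) := by rw [hb']; simp
    have him : (pd 0 u p).im = -(σ * (u p).im) := by rw [hb']; simp
    rw [hre, him, hp0] at hc
    rw [hp0] at hψ
    have : 2 * ((u p).re * -(σ * (u p).re) + (u p).im * -(σ * (u p).im)) * psi K 0 +
      ((u p).re ^ 2 + (u p).im ^ 2) * (-2 * K * (0 - 1 / 2) * psi K 0)
      = psi K 0 * N p * (K - 2 * σ) := by rw [hNe]; ring
    rw [this] at hc
    have h2 : 0 < psi K 0 * N p * (K - 2 * σ) := mul_pos (mul_pos hψ hNpos) (by linarith)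
    linarith
  -- interior point
  have hp0' : 0 < p 0 := lt_of_le_of_ne hpslab.1 (Ne.symm hp0)
  have hp1' : p 0 < 1 := lt_of_le_of_ne hpslab.2 hp1
  have hH2 : HasDerivAt (fun t : ℝ => 2 * ((u (p + t • e0)).re * (pd 0 u (p + t • e0)).re +
        (u (p + t • e0)).im * (pd 0 u (p + t • e0)).im) * psi K (p 0 + t) +
      ((u (p + t • e0)).re ^ 2 + (u (p + t • e0)).im ^ 2) *
        (-2 * K * (p 0 + t - 1 / 2) * psi K (p 0 + t)))
      (psi K (p 0) * (2 * ((pd 0 u p).re ^ 2 + (pd 0 u p).im ^ 2 +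
          ((u p).re * (pd 0 (pd 0 u) p).re + (u p).im * (pd 0 (pd 0 u) p).im))
        + 2 * (-2 * K * (p 0 - 1 / 2)) *
          (2 * ((u p).re * (pd 0 u p).re + (u p).im * (pd 0 u p).im))
        + ((-2 * K * (p 0 - 1 / 2)) ^ 2 - 2 * K) * ((u p).re ^ 2 + (u p).im ^ 2))) 0 := by
    have h1 := hasDerivAt_normSq (f := fun t : ℝ => u (p + t • e0))
      (f' := fun t : ℝ => pd 0 u (p + t • e0)) (dA 0)
    have h1' := hasDerivAt_normSq' (f := fun t : ℝ => u (p + t • e0))
      (f' := fun t : ℝ => pd 0 u (p + t • e0)) (dA 0) (dB 0)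
    have h2 : HasDerivAt (fun t : ℝ => psi K (p 0 + t))
        (-2 * K * (p 0 + 0 - 1 / 2) * psi K (p 0 + 0)) 0 :=
      (hasDerivAt_psi K (p 0 + 0)).comp_const_add (p 0) 0
    have h3 : HasDerivAt (fun t : ℝ => -2 * K * (p 0 + t - 1 / 2)) (-2 * K) 0 := by
      have := (((hasDerivAt_id (0:ℝ)).const_add (p 0)).sub_const (1/2)).const_mul (-2 * K)
      simpa using this
    refine ((h1'.mul h2).add (h1.mul (h3.mul h2))).congr_deriv ?_
    simp only [zero_smul, add_zero, Pi.mul_apply]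
    ring
  have hlm : IsLocalMax (fun t : ℝ => ((u (p + t • e0)).re ^ 2 + (u (p + t • e0)).im ^ 2)
      * psi K (p 0 + t)) 0 := by
    have hev : ∀ᶠ t : ℝ in nhds 0, 0 < p 0 + t ∧ p 0 + t < 1 := by
      refine Filter.Eventually.and ?_ ?_
      · exact (continuous_const.add continuous_id).tendsto' (0:ℝ) (p 0) (by simp)
          |>.eventually_const_lt hp0'
      · exact (continuous_const.add continuous_id).tendsto' (0:ℝ) (p 0) (by simp)
          |>.eventually_lt_const hp1'
    filter_upwards [hev] with t ht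
    have := hline t ht.1.le ht.2.le
    simpa using this
  have hi0 := second_deriv_nonpos hH1 hH2 hlm
  have hi0' := nonpos_of_mul_nonpos_right hi0 hψ
  have hpd := hpde p hpslab
  have hQp := hQ p hpslab
  have hre : (pd 0 (pd 0 u) p).re + (pd 1 (pd 1 u) p).re = Q p * (u p).re := by
    have := congrArg Complex.re hpd
    simpa using this
  have him : (pd 0 (pd 0 u) p).im + (pd 1 (pd 1 u) p).im = Q p * (u p).im := by
    have := congrArg Complex.im hpd
    simpa using this
  set A := (u p).re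
  set B := (u p).im
  set A0 := (pd 0 u p).re
  set B0 := (pd 0 u p).im
  set A1 := (pd 1 u p).re
  set B1 := (pd 1 u p).im
  set κ := -2 * K * (p 0 - 1 / 2) with hκ
  have hκ2 : κ ^ 2 ≤ K ^ 2 := by
    rw [hκ]
    have h1 : (p 0 - 1 / 2) ^ 2 ≤ 1 / 4 := by nlinarith
    nlinarith [sq_nonneg K]
  have hsq := sq_nonneg (A0 + κ * A)
  have hsq' := sq_nonneg (B0 + κ * B)
  have e3 : A * (pd 0 (pd 0 u) p).re + B * (pd 0 (pd 0 u) p).im
      + (A * (pd 1 (pd 1 u) p).re + B * (pd 1 (pd 1 u) p).im) = Q p * (A ^ 2 + B ^ 2) := by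
    linear_combination A * hre + B * him
  have h4 : 2 * Q p * N p - κ ^ 2 * N p - 2 * K * N p ≤ 0 := by
    rw [hNe]
    linarith [sq_nonneg A1, sq_nonneg B1, hi0', hi1, e3, hsq, hsq']
  have h5 : 0 < (2 * Q p - κ ^ 2 - 2 * K) * N p := mul_pos (by linarith) hNpos
  linarith

end Steklov
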