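import Pool.Agent.Lib_helper13.SteklovCalc

open scoped ContDiff
open MeasureTheory

set_option linter.unusedSectionVars false

noncomputable section

namespace Steklov

variable {d : ℕ}

theorem pd_proj (a : ℤ) (e : Pt d) {u : Pt d → ℂ} (hu : ContDiff ℝ ∞ u) (i : Fin (d + 1))
    (p : Pt d) : pd i (proj a e u) p = proj a e (pd i u) p := by
  have h1 : ContDiff ℝ 1 u := hu.of_le (by exact_mod_cast le_top)
  have h := (hasFDerivAt_cproj (continuous_projw a) e h1 p).fderiv
  unfold pd proj
  rw [h]
  unfold cproj
  rw [ContinuousLinearMap.intervalIntegral_apply]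
  · rfl
  · refine Continuous.intervalIntegrable ?_ _ _
    have := h1.continuous_fderiv one_ne_zero
    exact (continuous_projw a).smul (this.comp (by fun_prop))

theorem pd_translate (v : Pt d) {F : Type*} [NormedAddCommGroup F] [NormedSpace ℝ F]
    (u : Pt d → F) (i : Fin (d + 1)) (p : Pt d) :
    pd i (fun q => u (q + v)) p = pd i u (p + v) := by
  unfold pd
  rw [fderiv_comp_add_right]

namespace Metric

variable (m : Metric d)

/-- invariance of the metric under translations by multiples of `e` -/
def Inv (e : Pt d) : Prop := ∀ (p : Pt d) (t : ℝ), m.g (p + t • e) = m.g p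

theorem laplacian_translate {v : Pt d} (h : ∀ p, m.g (p + v) = m.g p) {F : Type*}
    [NormedAddCommGroup F] [NormedSpace ℝ F] (u : Pt d → F) (p : Pt d) :
    m.laplacian (fun q => u (q + v)) p = m.laplacian u (p + v) := by
  unfold laplacian
  have hv : m.vol (p + v) = m.vol p := by unfold vol; rw [h]
  rw [hv]
  congr 1
  refine Finset.sum_congr rfl fun i _ => ?_
  rw [← pd_translate v (fun q => ∑ j, (m.vol q * m.inv q i j) • pd j u q)]
  congr 1
  funext q
  refine Finset.sum_congr rfl fun j _ => ?_
  rw [pd_translate v u]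
  have h1 : m.vol (q + v) = m.vol q := by unfold vol; rw [h]
  have h2 : m.inv (q + v) i j = m.inv q i j := by unfold inv; rw [h]
  rw [h1, h2]

theorem normalDeriv_translate {v : Pt d} (h : ∀ p, m.g (p + v) = m.g p) (hv : v 0 = 0)
    {F : Type*} [NormedAddCommGroup F] [NormedSpace ℝ F] (u : Pt d → F) (p : Pt d) :
    m.normalDeriv (fun q => u (q + v)) p = m.normalDeriv u (p + v) := by
  unfold normalDeriv
  refine Finset.sum_congr rfl fun i _ => ?_
  rw [pd_translate v u]
  have h2 : m.normal (p + v) i = m.normal p i := by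
    unfold normal inv; rw [h, Pi.add_apply, hv, add_zero]
  rw [h2]

theorem laplacian_proj {e : Pt d} (hm : m.Inv e) (a : ℤ) {u : Pt d → ℂ} (hu : ContDiff ℝ ∞ u)
    (p : Pt d) : m.laplacian (proj a e u) p = proj a e (m.laplacian u) p := by
  have hvol : ∀ (q : Pt d) (t : ℝ), m.vol (q + t • e) = m.vol q := by
    intro q t; unfold vol; rw [hm]
  have hinv : ∀ (q : Pt d) (t : ℝ) (i j), m.inv (q + t • e) i j = m.inv q i j := by
    intro q t i j; unfold inv; rw [hm]
  have e1 : m.laplacian u = fun q => (((m.vol q)⁻¹ : ℝ) : ℂ) *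
      (∑ i, pd i (fun q => ∑ j, (m.vol q * m.inv q i j) • pd j u q) q) := by
    funext q; unfold laplacian; rw [Complex.real_smul]
  rw [e1, proj_smul_inv a (fun q t => by rw [hvol])]
  unfold laplacian
  rw [Complex.real_smul]
  congr 1
  rw [proj_sum a e Finset.univ (fun i _ => (contDiff_pd (m.contDiff_flux hu i) i).continuous)]
  refine Finset.sum_congr rfl fun i _ => ?_
  rw [← pd_proj a e (m.contDiff_flux hu i)]
  congr 1
  funext q
  rw [proj_sum a e Finset.univ]
  · refine Finset.sum_congr rfl fun j _ => ?_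
    have e2 : (fun q => (m.vol q * m.inv q i j) • pd j u q)
        = fun q => ((m.vol q * m.inv q i j : ℝ) : ℂ) * pd j u q := by
      funext q; rw [Complex.real_smul]
    rw [e2, proj_smul_inv a (fun q t => by rw [hvol, hinv]), pd_proj a e hu, Complex.real_smul]
  · intro j _
    exact ((m.contDiff_vol.mul (m.contDiff_inv i j)).smul (contDiff_pd hu j)).continuous

theorem normalDeriv_proj {e : Pt d} (hm : m.Inv e) (he : e 0 = 0) (a : ℤ) {u : Pt d → ℂ}
    (hu : ContDiff ℝ ∞ u) (p : Pt d) :
    m.normalDeriv (proj a e u) p =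
      (2 * Real.pi : ℂ)⁻¹ * ∫ t in (0:ℝ)..(2 * Real.pi), ch (-a) t * m.normalDeriv u (p + t • e) := by
  have hn : ∀ (t : ℝ) (i), m.normal (p + t • e) i = m.normal p i := by
    intro t i
    unfold normal inv
    rw [hm, Pi.add_apply, Pi.smul_apply, he, smul_zero, add_zero]
  unfold normalDeriv
  simp only [hn]
  rw [show (fun t : ℝ => ch (-a) t * ∑ i, m.normal p i • pd i u (p + t • e))
      = fun t => ∑ i, m.normal p i • (ch (-a) t * pd i u (p + t • e)) by
    funext t
    rw [Finset.mul_sum]
    refine Finset.sum_congr rfl fun i _ => ?_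
    rw [Complex.real_smul, Complex.real_smul]; ring]
  rw [intervalIntegral.integral_finsetSum]
  · rw [Finset.mul_sum]
    refine Finset.sum_congr rfl fun i _ => ?_
    rw [intervalIntegral.integral_smul, pd_proj a e hu, proj_apply, Complex.real_smul,
      Complex.real_smul]
    ring
  · intro i _
    refine Continuous.intervalIntegrable ?_ _ _
    have hc : Continuous fun t : ℝ => ch (-a) t * pd i u (p + t • e) :=
      (continuous_ch _).mul ((contDiff_pd hu i).continuous.comp (by fun_prop))
    exact hc.const_smul (m.normal p i)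

end Metric

/-- smooth periodic (complex valued) Steklov solutions -/
structure IsSol (m : Metric d) (σ : ℝ) (u : Pt d → ℂ) : Prop where
  smooth : ContDiff ℝ ∞ u
  per : IsPeriodic u
  lap : ∀ p ∈ slab d, m.laplacian u p = 0
  bc : ∀ p ∈ bdry d, m.normalDeriv u p = σ * u p

theorem mem_slab_add {p v : Pt d} (hv : v 0 = 0) (hp : p ∈ slab d) : p + v ∈ slab d := by
  unfold slab at *
  simp only [Set.mem_ofPred_eq, Pi.add_apply, hv, add_zero] at *
  exact hp

theorem mem_bdry_add {p v : Pt d} (hv : v 0 = 0) (hp : p ∈ bdry d) : p + v ∈ bdry d := by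
  unfold bdry at *
  simp only [Set.mem_ofPred_eq, Pi.add_apply, hv, add_zero] at *
  exact hp

theorem IsSol.proj {m : Metric d} {σ : ℝ} {u : Pt d → ℂ} (h : IsSol m σ u) {e : Pt d}
    (hm : m.Inv e) (he : e 0 = 0) (a : ℤ) : IsSol m σ (proj a e u) where
  smooth := contDiff_proj a e h.smooth
  per := by
    intro p j
    rw [← proj_translate]
    congr 1
    funext q
    exact h.per q j
  lap := by
    intro p hp
    rw [m.laplacian_proj hm a h.smooth, proj_apply]
    have : (fun t : ℝ => ch (-a) t * m.laplacian u (p + t • e)) = fun _ => 0 := by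
      funext t
      rw [h.lap _ (mem_slab_add (by simp [he]) hp), mul_zero]
    rw [this]; simp
  bc := by
    intro p hp
    rw [m.normalDeriv_proj hm he a h.smooth, proj_apply]
    have : (fun t : ℝ => ch (-a) t * m.normalDeriv u (p + t • e))
        = fun t => (σ : ℂ) * (ch (-a) t * u (p + t • e)) := by
      funext t
      rw [h.bc _ (mem_bdry_add (by simp [he]) hp)]; ring
    rw [this, intervalIntegral.integral_const_mul]; ring

theorem IsSol.add {m : Metric d} {σ : ℝ} {u v : Pt d → ℂ} (h : IsSol m σ u) (h' : IsSol m σ v) :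
    IsSol m σ (fun q => u q + v q) where
  smooth := h.smooth.add h'.smooth
  per := by intro p j; simp only [h.per p j, h'.per p j]
  lap := by intro p hp; rw [m.laplacian_add h.smooth h'.smooth, h.lap p hp, h'.lap p hp, add_zero]
  bc := by
    intro p hp
    rw [m.normalDeriv_add h.smooth h'.smooth, h.bc p hp, h'.bc p hp, mul_add]

theorem IsSol.const_mul {m : Metric d} {σ : ℝ} {u : Pt d → ℂ} (h : IsSol m σ u) (c : ℂ) :
    IsSol m σ (fun q => c * u q) where
  smooth := contDiff_const.mul h.smooth
  per := by intro p j; simp only [h.per p j]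
  lap := by
    intro p hp
    have := m.laplacian_clm (c • ContinuousLinearMap.id ℝ ℂ) h.smooth p
    simpa [h.lap p hp] using this
  bc := by
    intro p hp
    have h1 := m.normalDeriv_clm (c • ContinuousLinearMap.id ℝ ℂ) h.smooth p
    have h2 : (fun q => (c • ContinuousLinearMap.id ℝ ℂ) (u q)) = fun q => c * u q := by
      funext q; simp
    rw [h2] at h1
    rw [h1, h.bc p hp]
    simp only [FunLike.coe_smul, Pi.smul_apply, ContinuousLinearMap.id_apply, smul_eq_mul]
    ring

theorem IsSol.zero (m : Metric d) (σ : ℝ) : IsSol m σ (fun _ => 0) where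
  smooth := contDiff_const
  per := fun p j => rfl
  lap := by
    intro p _
    have := m.laplacian_clm (0 : ℂ →L[ℝ] ℂ) (u := fun _ => (0:ℂ)) contDiff_const p
    simpa using this
  bc := by
    intro p _
    have := m.normalDeriv_clm (0 : ℂ →L[ℝ] ℂ) (u := fun _ => (0:ℂ)) contDiff_const p
    simpa using this

theorem IsSol.sum {m : Metric d} {σ : ℝ} {ι : Type*} (s : Finset ι) {u : ι → Pt d → ℂ}
    (h : ∀ i ∈ s, IsSol m σ (u i)) : IsSol m σ (fun q => ∑ i ∈ s, u i q) := by
  classical
  induction s using Finset.induction_on with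
  | empty => simpa using IsSol.zero m σ
  | insert a s ha ih =>
    have h1 := (h a (Finset.mem_insert_self a s)).add
      (ih fun i hi => h i (Finset.mem_insert_of_mem hi))
    have h2 : (fun q => ∑ i ∈ insert a s, u i q) = fun q => u a q + ∑ i ∈ s, u i q := by
      funext q; rw [Finset.sum_insert ha]
    rw [h2]; exact h1

/-- translation -/
theorem IsSol.congr_smooth {m : Metric d} {σ : ℝ} {u : Pt d → ℂ} (h : IsSol m σ u) {v : Pt d}
    (hv : ∀ p, m.g (p + v) = m.g p) (hv0 : v 0 = 0) : IsSol m σ (fun q => u (q + v)) where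
  smooth := h.smooth.comp (contDiff_id.add contDiff_const)
  per := by
    intro p j
    show u (p + Pi.single j.succ (2 * Real.pi) + v) = u (p + v)
    rw [← h.per (p + v) j]
    congr 1
    abel
  lap := by
    intro p hp
    rw [m.laplacian_translate hv, h.lap _ (mem_slab_add hv0 hp)]
  bc := by
    intro p hp
    rw [m.normalDeriv_translate hv hv0, h.bc _ (mem_bdry_add hv0 hp)]

end Steklov
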