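import Pool.Agent.Lib_helper13.SteklovRank
import Pool.Agent.Lib_helper13.SteklovMax

open scoped ContDiff
open MeasureTheory

set_option linter.unusedSectionVars false

noncomputable section

namespace Steklov

/-- the profile `s(r) = r (1 - r)` -/
def prof (r : ℝ) : ℝ := r * (1 - r)

def cc (p : Pt 3) : ℝ := Real.cosh (prof (p 0))
def ss (p : Pt 3) : ℝ := Real.sinh (prof (p 0))
def co (p : Pt 3) : ℝ := Real.cos (p 1)
def si (p : Pt 3) : ℝ := Real.sin (p 1)
/-- the conformal factor -/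
def EE (p : Pt 3) : ℝ := cc p + ss p * co p

theorem contDiff_prof : ContDiff ℝ ∞ prof := by unfold prof; fun_prop

theorem contDiff_cc : ContDiff ℝ ∞ cc := by
  unfold cc
  exact Real.contDiff_cosh.comp (contDiff_prof.comp (contDiff_apply ℝ ℝ 0))

theorem contDiff_ss : ContDiff ℝ ∞ ss := by
  unfold ss
  exact Real.contDiff_sinh.comp (contDiff_prof.comp (contDiff_apply ℝ ℝ 0))

theorem contDiff_co : ContDiff ℝ ∞ co := by
  unfold co
  exact Real.contDiff_cos.comp (contDiff_apply ℝ ℝ 1)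

theorem contDiff_si : ContDiff ℝ ∞ si := by
  unfold si
  exact Real.contDiff_sin.comp (contDiff_apply ℝ ℝ 1)

theorem contDiff_EE : ContDiff ℝ ∞ EE := contDiff_cc.add (contDiff_ss.mul contDiff_co)

theorem cc_sq (p : Pt 3) : cc p ^ 2 = 1 + ss p ^ 2 := by
  unfold cc ss; rw [Real.cosh_sq]; ring

theorem co_sq (p : Pt 3) : co p ^ 2 = 1 - si p ^ 2 := by
  unfold co si; rw [Real.cos_sq']

theorem cc_pos (p : Pt 3) : 0 < cc p := Real.cosh_pos _

theorem cc_gt (p : Pt 3) : |ss p| < cc p := by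
  have h := cc_sq p
  have h2 := cc_pos p
  rw [abs_lt]; constructor <;> nlinarith

theorem EE_pos (p : Pt 3) : 0 < EE p := by
  unfold EE
  have h1 := cc_gt p
  have h2 : |co p| ≤ 1 := Real.abs_cos_le_one _
  have h3 : |ss p * co p| ≤ |ss p| := by
    rw [abs_mul]; exact mul_le_of_le_one_right (abs_nonneg _) h2
  have h4 := neg_abs_le (ss p * co p)
  linarith

/-- matrix of the first metric -/
def G1 (p : Pt 3) : Matrix (Fin 4) (Fin 4) ℝ :=
  !![1, 0, 0, 0;
     0, 1, 0, 0;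
     0, 0, cc p - ss p * co p, -(ss p * si p);
     0, 0, -(ss p * si p), cc p + ss p * co p]

/-- its inverse -/
def G1i (p : Pt 3) : Matrix (Fin 4) (Fin 4) ℝ :=
  !![1, 0, 0, 0;
     0, 1, 0, 0;
     0, 0, cc p + ss p * co p, ss p * si p;
     0, 0, ss p * si p, cc p - ss p * co p]

/-- matrix of the second metric -/
def G2 (p : Pt 3) : Matrix (Fin 4) (Fin 4) ℝ :=
  Matrix.diagonal ![EE p, EE p, 1, 1]

theorem G1_mul (p : Pt 3) : G1 p * G1i p = 1 := by
  have h1 := cc_sq p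
  have h2 := co_sq p
  ext i j
  fin_cases i <;> fin_cases j <;>
    simp [G1, G1i, Matrix.mul_apply, Fin.sum_univ_succ] <;> nlinarith

theorem G1_inv (p : Pt 3) : (G1 p)⁻¹ = G1i p := Matrix.inv_eq_right_inv (G1_mul p)

theorem G1_det (p : Pt 3) : (G1 p).det = 1 := by
  have h1 := cc_sq p
  have h2 := co_sq p
  simp [G1, Matrix.det_succ_row_zero, Fin.sum_univ_succ, Fin.succAbove]
  nlinarith

theorem G1_posDef (p : Pt 3) : (G1 p).PosDef := by
  have h1 := cc_sq p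
  have h2 := co_sq p
  have ha : 0 < cc p - ss p * co p := by
    have h1 := cc_gt p
    have h2 : |co p| ≤ 1 := Real.abs_cos_le_one _
    have h3 : |ss p * co p| ≤ |ss p| := by
      rw [abs_mul]; exact mul_le_of_le_one_right (abs_nonneg _) h2
    have h4 := le_abs_self (ss p * co p)
    linarith
  have hdet : (cc p - ss p * co p) * (cc p + ss p * co p) - (ss p * si p) ^ 2 = 1 := by
    nlinarith
  refine Matrix.PosDef.of_dotProduct_mulVec_pos ?_ fun x hx => ?_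
  · ext i j
    fin_cases i <;> fin_cases j <;> simp [G1]
  · have e : star x ⬝ᵥ (G1 p).mulVec x = x 0 ^ 2 + x 1 ^ 2 + ((cc p - ss p * co p) * x 2 ^ 2
        - 2 * (ss p * si p) * x 2 * x 3 + (cc p + ss p * co p) * x 3 ^ 2) := by
      simp [G1, Matrix.mulVec, dotProduct, Fin.sum_univ_succ]
      ring
    rw [e]
    by_contra hneg
    push Not at hneg
    set a := cc p - ss p * co p
    set b := ss p * si p
    set c' := cc p + ss p * co p
    have e2 : a * (a * x 2 ^ 2 - 2 * b * x 2 * x 3 + c' * x 3 ^ 2)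
        = (a * x 2 - b * x 3) ^ 2 + x 3 ^ 2 := by linear_combination x 3 ^ 2 * hdet
    have hq : 0 ≤ a * x 2 ^ 2 - 2 * b * x 2 * x 3 + c' * x 3 ^ 2 := by
      by_contra hh
      push Not at hh
      have := mul_neg_of_pos_of_neg ha hh
      nlinarith [sq_nonneg (a * x 2 - b * x 3), sq_nonneg (x 3)]
    have h0 : x 0 = 0 := by nlinarith [sq_nonneg (x 0), sq_nonneg (x 1)]
    have h1' : x 1 = 0 := by nlinarith [sq_nonneg (x 0), sq_nonneg (x 1)]
    have hq0 : a * x 2 ^ 2 - 2 * b * x 2 * x 3 + c' * x 3 ^ 2 = 0 := by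
      nlinarith [sq_nonneg (x 0), sq_nonneg (x 1)]
    rw [hq0, mul_zero] at e2
    have h3 : x 3 = 0 := by nlinarith [sq_nonneg (a * x 2 - b * x 3), sq_nonneg (x 3)]
    have h4 : x 2 = 0 := by
      rw [h3] at e2
      have : a * x 2 = 0 := by nlinarith [sq_nonneg (a * x 2)]
      rcases mul_eq_zero.1 this with h | h
      · exact absurd h ha.ne'
      · exact h
    exact hx (by funext i; fin_cases i <;> simp [h0, h1', h3, h4])

theorem G2_posDef (p : Pt 3) : (G2 p).PosDef := by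
  unfold G2
  rw [Matrix.posDef_diagonal_iff]
  intro i
  fin_cases i <;> simp [EE_pos]

theorem cc_per (p : Pt 3) (j : Fin 3) : cc (p + Pi.single j.succ (2 * Real.pi)) = cc p := by
  simp [cc]

theorem ss_per (p : Pt 3) (j : Fin 3) : ss (p + Pi.single j.succ (2 * Real.pi)) = ss p := by
  simp [ss]

theorem co_per (p : Pt 3) (j : Fin 3) : co (p + Pi.single j.succ (2 * Real.pi)) = co p := by
  fin_cases j <;> simp [co]

theorem si_per (p : Pt 3) (j : Fin 3) : si (p + Pi.single j.succ (2 * Real.pi)) = si p := by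
  fin_cases j <;> simp [si]

theorem G1_congr {p q : Pt 3} (h1 : cc p = cc q) (h2 : ss p = ss q) (h3 : co p = co q)
    (h4 : si p = si q) : G1 p = G1 q := by unfold G1; rw [h1, h2, h3, h4]

theorem G2_congr {p q : Pt 3} (h1 : cc p = cc q) (h2 : ss p = ss q) (h3 : co p = co q) :
    G2 p = G2 q := by unfold G2 EE; rw [h1, h2, h3]

/-- the first metric `dr² + dx² + ⟨dz, exp(-s(r) A(x)) dz⟩` -/
def M1 : Metric 3 where
  g := G1
  smooth := by
    intro i j
    have h1 := contDiff_cc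
    have h2 := contDiff_ss
    have h3 := contDiff_co
    have h4 := contDiff_si
    fin_cases i <;> fin_cases j <;> simp [G1] <;> fun_prop
  posDef := G1_posDef
  periodic := fun p j => G1_congr (cc_per p j) (ss_per p j) (co_per p j) (si_per p j)

/-- the second metric `E (dr² + dx²) + |dz|²` -/
def M2 : Metric 3 where
  g := G2
  smooth := by
    intro i j
    have h1 := contDiff_EE
    fin_cases i <;> fin_cases j <;> simp [G2] <;> fun_prop
  posDef := G2_posDef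
  periodic := fun p j => G2_congr (cc_per p j) (ss_per p j) (co_per p j)

theorem M1_inv2 : M1.Inv e2 := by
  intro p t
  refine G1_congr ?_ ?_ ?_ ?_ <;> simp [cc, ss, co, si, e2]

theorem M1_inv3 : M1.Inv e3 := by
  intro p t
  refine G1_congr ?_ ?_ ?_ ?_ <;> simp [cc, ss, co, si, e3]

theorem M2_inv2 : M2.Inv e2 := by
  intro p t
  refine G2_congr ?_ ?_ ?_ <;> simp [cc, ss, co, e2]

theorem M2_inv3 : M2.Inv e3 := by
  intro p t
  refine G2_congr ?_ ?_ ?_ <;> simp [cc, ss, co, e3]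

/-- derivative of a mode function -/
theorem pd_mode {d : ℕ} {u : Pt d → ℂ} (hu : ContDiff ℝ ∞ u) {i : Fin (d + 1)} {a : ℤ}
    (h : ∀ p (t : ℝ), u (p + t • (Pi.single i 1 : Pt d)) = ch a t * u p) (p : Pt d) :
    pd i u p = Complex.I * a * u p := by
  have h1 := hasDerivAt_line hu i p 0
  simp only [zero_smul, add_zero] at h1
  have h2 : (fun t : ℝ => u (p + t • (Pi.single i 1 : Pt d))) = fun t => ch a t * u p :=
    funext fun t => h p t
  rw [h2] at h1
  have h3 : HasDerivAt (fun t : ℝ => ch a t * u p) (Complex.I * a * u p) 0 := by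
    have h4 : HasDerivAt (fun t : ℝ => Complex.I * a * (t : ℂ)) (Complex.I * a) 0 := by
      have := (Complex.ofRealCLM.hasDerivAt (x := (0:ℝ))).const_mul (Complex.I * a)
      simpa using this
    have h5 := (h4.cexp).mul_const (u p)
    unfold ch
    simpa using h5
  exact h1.unique h3

/-- potentials -/
def Q1 (μ : ℤ × ℤ) (p : Pt 3) : ℝ :=
  cc p * ((μ.1 : ℝ) ^ 2 + (μ.2 : ℝ) ^ 2)
    + ss p * (((μ.1 : ℝ) ^ 2 - (μ.2 : ℝ) ^ 2) * co p + 2 * μ.1 * μ.2 * si p)

def Q2 (μ : ℤ × ℤ) (p : Pt 3) : ℝ := ((μ.1 : ℝ) ^ 2 + (μ.2 : ℝ) ^ 2) * EE p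

theorem lap1 {μ : ℤ × ℤ} {u : Pt 3 → ℂ} (hu : ContDiff ℝ ∞ u) (hm : IsMode μ u) (p : Pt 3) :
    M1.laplacian u p = pd 0 (pd 0 u) p + pd 1 (pd 1 u) p - (Q1 μ p : ℂ) * u p := by
  have hvol : ∀ q, M1.vol q = 1 := by
    intro q; show Real.sqrt (G1 q).det = 1; rw [G1_det, Real.sqrt_one]
  have hinv : ∀ q i j, M1.inv q i j = G1i q i j := by
    intro q i j; show (G1 q)⁻¹ i j = _; rw [G1_inv]
  have h2 : ∀ q, pd 2 u q = Complex.I * μ.1 * u q := pd_mode hu hm.1
  have h3 : ∀ q, pd 3 u q = Complex.I * μ.2 * u q := pd_mode hu hm.2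
  unfold Metric.laplacian
  simp only [hvol, hinv, one_mul, inv_one, one_smul]
  rw [Fin.sum_univ_four]
  have f0 : (fun q => ∑ j, G1i q 0 j • pd j u q) = pd 0 u := by
    funext q; simp [Fin.sum_univ_four, G1i]
  have f1 : (fun q => ∑ j, G1i q 1 j • pd j u q) = pd 1 u := by
    funext q; simp [Fin.sum_univ_four, G1i]
  have f2 : (fun q => ∑ j, G1i q 2 j • pd j u q) = fun q =>
      (((cc q + ss q * co q) * μ.1 + ss q * si q * μ.2 : ℝ) : ℂ) * Complex.I * u q := by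
    funext q; simp [Fin.sum_univ_four, G1i, h2, h3]; ring
  have f3 : (fun q => ∑ j, G1i q 3 j • pd j u q) = fun q =>
      (((ss q * si q) * μ.1 + (cc q - ss q * co q) * μ.2 : ℝ) : ℂ) * Complex.I * u q := by
    funext q; simp [Fin.sum_univ_four, G1i, h2, h3]; ring
  have i2 : ∀ (q : Pt 3) (t : ℝ), cc (q + t • e2) = cc q ∧ ss (q + t • e2) = ss q ∧
      co (q + t • e2) = co q ∧ si (q + t • e2) = si q := by
    intro q t; simp [cc, ss, co, si, e2]
  have i3 : ∀ (q : Pt 3) (t : ℝ), cc (q + t • e3) = cc q ∧ ss (q + t • e3) = ss q ∧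
      co (q + t • e3) = co q ∧ si (q + t • e3) = si q := by
    intro q t; simp [cc, ss, co, si, e3]
  have hcd2 := M1.contDiff_flux hu 2
  have hcd3 := M1.contDiff_flux hu 3
  simp only [hvol, hinv, one_mul] at hcd2 hcd3
  rw [f2] at hcd2
  rw [f3] at hcd3
  have g2 : pd 2 (fun q => (((cc q + ss q * co q) * μ.1 + ss q * si q * μ.2 : ℝ) : ℂ)
      * Complex.I * u q) p = Complex.I * μ.1 *
      ((((cc p + ss p * co p) * μ.1 + ss p * si p * μ.2 : ℝ) : ℂ) * Complex.I * u p) := by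
    exact pd_mode (i := 2) (a := μ.1) hcd2 (fun q t => by
      show (((cc (q + t • e2) + ss (q + t • e2) * co (q + t • e2)) * μ.1 +
        ss (q + t • e2) * si (q + t • e2) * μ.2 : ℝ) : ℂ) * Complex.I * u (q + t • e2) = _
      obtain ⟨k1, k2, k3, k4⟩ := i2 q t
      rw [k1, k2, k3, k4, hm.1]; ring) p
  have g3 : pd 3 (fun q => (((ss q * si q) * μ.1 + (cc q - ss q * co q) * μ.2 : ℝ) : ℂ)
      * Complex.I * u q) p = Complex.I * μ.2 *
      ((((ss p * si p) * μ.1 + (cc p - ss p * co p) * μ.2 : ℝ) : ℂ) * Complex.I * u p) := by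
    exact pd_mode (i := 3) (a := μ.2) hcd3 (fun q t => by
      show (((ss (q + t • e3) * si (q + t • e3)) * μ.1 +
        (cc (q + t • e3) - ss (q + t • e3) * co (q + t • e3)) * μ.2 : ℝ) : ℂ) * Complex.I
          * u (q + t • e3) = _
      obtain ⟨k1, k2, k3, k4⟩ := i3 q t
      rw [k1, k2, k3, k4, hm.2]; ring) p
  rw [f0, f1, f2, f3, g2, g3]
  unfold Q1
  push_cast
  linear_combination (((cc p + ss p * co p) * μ.1 + ss p * si p * μ.2 : ℂ) * μ.1 * u p
    + ((ss p * si p) * μ.1 + (cc p - ss p * co p) * μ.2 : ℂ) * μ.2 * u p) * Complex.I_sq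

theorem G2_vol (q : Pt 3) : M2.vol q = EE q := by
  show Real.sqrt (G2 q).det = _
  have : (G2 q).det = EE q ^ 2 := by
    unfold G2; rw [Matrix.det_diagonal, Fin.prod_univ_four]; simp [sq]
  rw [this, Real.sqrt_sq (EE_pos q).le]

theorem G2_inv (q : Pt 3) : M2.inv q = fun i j => (Matrix.diagonal ![(EE q)⁻¹, (EE q)⁻¹, 1, 1]) i j := by
  have h : (G2 q)⁻¹ = Matrix.diagonal ![(EE q)⁻¹, (EE q)⁻¹, 1, 1] := by
    refine Matrix.inv_eq_right_inv ?_
    have := (EE_pos q).ne'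
    unfold G2
    rw [Matrix.diagonal_mul_diagonal, ← Matrix.diagonal_one]
    congr 1
    funext i
    fin_cases i <;> simp [this]
  funext i j
  show (G2 q)⁻¹ i j = _
  rw [h]

theorem lap2 {μ : ℤ × ℤ} {u : Pt 3 → ℂ} (hu : ContDiff ℝ ∞ u) (hm : IsMode μ u) (p : Pt 3) :
    M2.laplacian u p = ((EE p)⁻¹ : ℝ) •
      (pd 0 (pd 0 u) p + pd 1 (pd 1 u) p - (Q2 μ p : ℂ) * u p) := by
  have h2 : ∀ q, pd 2 u q = Complex.I * μ.1 * u q := pd_mode hu hm.1
  have h3 : ∀ q, pd 3 u q = Complex.I * μ.2 * u q := pd_mode hu hm.2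
  unfold Metric.laplacian
  rw [G2_vol]
  congr 1
  have hcd := fun i => M2.contDiff_flux hu i
  simp only [G2_vol, G2_inv] at hcd ⊢
  rw [Fin.sum_univ_four]
  have hE : ∀ q, EE q * (EE q)⁻¹ = 1 := fun q => mul_inv_cancel₀ (EE_pos q).ne'
  have f0 : (fun q => ∑ j, (EE q * (Matrix.diagonal ![(EE q)⁻¹, (EE q)⁻¹, 1, 1] :
      Matrix (Fin 4) (Fin 4) ℝ) 0 j) • pd j u q) = pd 0 u := by
    funext q; rw [Fin.sum_univ_four]; simp [hE]
  have f1 : (fun q => ∑ j, (EE q * (Matrix.diagonal ![(EE q)⁻¹, (EE q)⁻¹, 1, 1] :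
      Matrix (Fin 4) (Fin 4) ℝ) 1 j) • pd j u q) = pd 1 u := by
    funext q; rw [Fin.sum_univ_four]; simp [hE]
  have f2 : (fun q => ∑ j, (EE q * (Matrix.diagonal ![(EE q)⁻¹, (EE q)⁻¹, 1, 1] :
      Matrix (Fin 4) (Fin 4) ℝ) 2 j) • pd j u q) = fun q =>
      (EE q : ℂ) * (Complex.I * μ.1 * u q) := by
    funext q; rw [Fin.sum_univ_four]; simp [h2]
  have f3 : (fun q => ∑ j, (EE q * (Matrix.diagonal ![(EE q)⁻¹, (EE q)⁻¹, 1, 1] :
      Matrix (Fin 4) (Fin 4) ℝ) 3 j) • pd j u q) = fun q =>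
      (EE q : ℂ) * (Complex.I * μ.2 * u q) := by
    funext q; rw [Fin.sum_univ_four]; simp [h3]
  have i2 : ∀ (q : Pt 3) (t : ℝ), EE (q + t • e2) = EE q := by
    intro q t; simp [EE, cc, ss, co, e2]
  have i3 : ∀ (q : Pt 3) (t : ℝ), EE (q + t • e3) = EE q := by
    intro q t; simp [EE, cc, ss, co, e3]
  have hcd2 := hcd 2
  have hcd3 := hcd 3
  rw [f2] at hcd2
  rw [f3] at hcd3
  have g2 : pd 2 (fun q => (EE q : ℂ) * (Complex.I * μ.1 * u q)) p = Complex.I * μ.1 *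
      ((EE p : ℂ) * (Complex.I * μ.1 * u p)) := by
    exact pd_mode (i := 2) (a := μ.1) hcd2 (fun q t => by
      show (EE (q + t • e2) : ℂ) * (Complex.I * μ.1 * u (q + t • e2)) = _
      rw [i2, hm.1]; ring) p
  have g3 : pd 3 (fun q => (EE q : ℂ) * (Complex.I * μ.2 * u q)) p = Complex.I * μ.2 *
      ((EE p : ℂ) * (Complex.I * μ.2 * u p)) := by
    exact pd_mode (i := 3) (a := μ.2) hcd3 (fun q t => by
      show (EE (q + t • e3) : ℂ) * (Complex.I * μ.2 * u (q + t • e3)) = _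
      rw [i3, hm.2]; ring) p
  rw [f0, f1, f2, f3, g2, g3]
  unfold Q2
  push_cast
  linear_combination ((EE p : ℂ) * μ.1 ^ 2 * u p + (EE p : ℂ) * μ.2 ^ 2 * u p) * Complex.I_sq

end Steklov

namespace Steklov

/-- the sign of the outward normal -/
def sg (p : Pt 3) : ℝ := if p 0 = 1 then 1 else -1

theorem bdry_vals {p : Pt 3} (hp : p ∈ bdry 3) : cc p = 1 ∧ ss p = 0 ∧ EE p = 1 := by
  have h : prof (p 0) = 0 := by
    rcases hp with h | h <;> simp [prof, h]
  have h1 : cc p = 1 := by simp [cc, h]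
  have h2 : ss p = 0 := by simp [ss, h]
  exact ⟨h1, h2, by simp [EE, h1, h2]⟩

theorem M1_normal (p : Pt 3) (i : Fin 4) : M1.normal p i = if i = 0 then sg p else 0 := by
  have hinv : ∀ q i j, M1.inv q i j = G1i q i j := by
    intro q i j; show (G1 q)⁻¹ i j = _; rw [G1_inv]
  unfold Metric.normal
  rw [hinv, hinv]
  fin_cases i <;> simp [G1i, sg]

theorem M2_normal {p : Pt 3} (hp : p ∈ bdry 3) (i : Fin 4) :
    M2.normal p i = if i = 0 then sg p else 0 := by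
  unfold Metric.normal
  rw [G2_inv, (bdry_vals hp).2.2]
  fin_cases i <;> simp [sg]

theorem normalDeriv1 (u : Pt 3 → ℂ) (p : Pt 3) : M1.normalDeriv u p = (sg p : ℂ) * pd 0 u p := by
  unfold Metric.normalDeriv
  simp [M1_normal]

theorem normalDeriv2 (u : Pt 3 → ℂ) {p : Pt 3} (hp : p ∈ bdry 3) :
    M2.normalDeriv u p = (sg p : ℂ) * pd 0 u p := by
  unfold Metric.normalDeriv
  simp [M2_normal hp]

/-- the reduced problem with a potential -/
structure Red (Q : Pt 3 → ℝ) (σ : ℝ) (u : Pt 3 → ℂ) : Prop where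
  smooth : ContDiff ℝ ∞ u
  per : IsPeriodic u
  pde : ∀ p ∈ slab 3, pd 0 (pd 0 u) p + pd 1 (pd 1 u) p = (Q p : ℂ) * u p
  bc : ∀ p ∈ bdry 3, (sg p : ℂ) * pd 0 u p = (σ : ℂ) * u p

theorem red1 {μ : ℤ × ℤ} {σ : ℝ} {u : Pt 3 → ℂ} (hm : IsMode μ u) :
    IsSol M1 σ u ↔ Red (Q1 μ) σ u := by
  constructor
  · rintro ⟨h1, h2, h3, h4⟩
    refine ⟨h1, h2, fun p hp => ?_, fun p hp => ?_⟩
    · have := h3 p hp
      rw [lap1 h1 hm] at this
      exact sub_eq_zero.1 this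
    · rw [← normalDeriv1]; exact h4 p hp
  · rintro ⟨h1, h2, h3, h4⟩
    refine ⟨h1, h2, fun p hp => ?_, fun p hp => ?_⟩
    · rw [lap1 h1 hm]; exact sub_eq_zero.2 (h3 p hp)
    · rw [normalDeriv1]; exact h4 p hp

theorem red2 {μ : ℤ × ℤ} {σ : ℝ} {u : Pt 3 → ℂ} (hm : IsMode μ u) :
    IsSol M2 σ u ↔ Red (Q2 μ) σ u := by
  constructor
  · rintro ⟨h1, h2, h3, h4⟩
    refine ⟨h1, h2, fun p hp => ?_, fun p hp => ?_⟩
    · have := h3 p hp
      rw [lap2 h1 hm] at this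
      rcases smul_eq_zero.1 this with h | h
      · exact absurd h (inv_ne_zero (EE_pos p).ne')
      · exact sub_eq_zero.1 h
    · rw [← normalDeriv2 u hp]; exact h4 p hp
  · rintro ⟨h1, h2, h3, h4⟩
    refine ⟨h1, h2, fun p hp => ?_, fun p hp => ?_⟩
    · rw [lap2 h1 hm, h3 p hp, sub_self, smul_zero]
    · rw [normalDeriv2 u hp]; exact h4 p hp

theorem Red.translate {Q : Pt 3 → ℝ} {σ : ℝ} {u : Pt 3 → ℂ} (h : Red Q σ u) {v : Pt 3}
    (hv : v 0 = 0) : Red (fun p => Q (p + v)) σ (fun q => u (q + v)) where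
  smooth := h.smooth.comp (contDiff_id.add contDiff_const)
  per := by
    intro p j
    show u (p + Pi.single j.succ (2 * Real.pi) + v) = u (p + v)
    rw [← h.per (p + v) j]
    congr 1
    abel
  pde := by
    intro p hp
    have e0 : pd 0 (fun q => u (q + v)) = fun q => pd 0 u (q + v) :=
      funext fun q => pd_translate v u 0 q
    have e1 : pd 1 (fun q => u (q + v)) = fun q => pd 1 u (q + v) :=
      funext fun q => pd_translate v u 1 q
    rw [e0, e1, pd_translate v (pd 0 u), pd_translate v (pd 1 u)]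
    exact h.pde _ (mem_slab_add hv hp)
  bc := by
    intro p hp
    rw [pd_translate v u]
    have := h.bc _ (mem_bdry_add hv hp)
    have hs : sg (p + v) = sg p := by simp [sg, hv]
    rw [hs] at this
    exact this

theorem exists_angle (a b : ℤ) : ∃ φ : ℝ, ((a : ℝ) ^ 2 + (b : ℝ) ^ 2) * Real.cos φ
      = (a : ℝ) ^ 2 - (b : ℝ) ^ 2 ∧
    ((a : ℝ) ^ 2 + (b : ℝ) ^ 2) * Real.sin φ = 2 * a * b := by
  set z : ℂ := ((a : ℂ) + b * Complex.I) ^ 2 with hz
  have hn : ‖z‖ = (a : ℝ) ^ 2 + (b : ℝ) ^ 2 := by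
    rw [hz, norm_pow, ← Complex.normSq_eq_norm_sq]
    simp [Complex.normSq_apply]; ring
  refine ⟨Complex.arg z, ?_, ?_⟩
  · rw [← hn, Complex.norm_mul_cos_arg, hz]
    simp [sq]
  · rw [← hn, Complex.norm_mul_sin_arg, hz]
    simp [sq]; ring

/-- the translation relating the two potentials -/
theorem exists_shift (μ : ℤ × ℤ) : ∃ v : Pt 3, v 0 = 0 ∧ ∀ p, Q1 μ p = Q2 μ (p + v) := by
  obtain ⟨φ, h1, h2⟩ := exists_angle μ.1 μ.2
  refine ⟨Pi.single 1 (-φ), by simp, fun p => ?_⟩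
  have e1 : cc (p + Pi.single 1 (-φ)) = cc p := by simp [cc]
  have e2 : ss (p + Pi.single 1 (-φ)) = ss p := by simp [ss]
  have e3 : co (p + Pi.single 1 (-φ)) = Real.cos (p 1) * Real.cos φ + Real.sin (p 1) * Real.sin φ := by
    simp only [co, Pi.add_apply, Pi.single_eq_same]
    rw [← sub_eq_add_neg, Real.cos_sub]
  unfold Q1 Q2 EE
  rw [e1, e2, e3]
  unfold co si
  linear_combination -(ss p * Real.cos (p 1)) * h1 - (ss p * Real.sin (p 1)) * h2

theorem cmode_M (σ : ℝ) (μ : ℤ × ℤ) : Nonempty (cmode M2 σ μ ≃ₗ[ℂ] cmode M1 σ μ) := by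
  obtain ⟨v, hv, hQ⟩ := exists_shift μ
  refine cmode_equiv v hv (fun u hu hm => ?_) (fun u hu hm => ?_)
  · rw [red2 hm] at hu
    rw [red1 (hm.translate v)]
    have := hu.translate hv
    have e : (fun p => Q2 μ (p + v)) = Q1 μ := funext fun p => (hQ p).symm
    rwa [e] at this
  · rw [red1 hm] at hu
    rw [red2 (hm.translate (-v))]
    have := hu.translate (v := -v) (by simp [hv])
    have e : (fun p => Q1 μ (p + -v)) = Q2 μ := by
      funext p
      rw [hQ]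
      congr 1
      abel
    rwa [e] at this

theorem EE_ge {p : Pt 3} (hp : p ∈ slab 3) : 1 / 2 ≤ EE p := by
  obtain ⟨h0, h1⟩ := hp
  have hs0 : 0 ≤ prof (p 0) := mul_nonneg h0 (by linarith)
  have hs1 : prof (p 0) ≤ 1 / 4 := by unfold prof; nlinarith [sq_nonneg (p 0 - 1 / 2)]
  have hsh : 0 ≤ ss p := Real.sinh_nonneg_iff.2 hs0
  have hco : -1 ≤ co p := Real.neg_one_le_cos _
  have h2 : cc p - ss p = Real.exp (-prof (p 0)) := Real.cosh_sub_sinh _
  have h3 : 1 - prof (p 0) ≤ Real.exp (-prof (p 0)) := by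
    have := Real.add_one_le_exp (-prof (p 0)); linarith
  unfold EE
  nlinarith

theorem Red.vanish {Q : Pt 3 → ℝ} {σ : ℝ} {u : Pt 3 → ℂ} (h : Red Q σ u)
    (hQ : ∀ p ∈ slab 3, (2 * |σ| + 1) ^ 2 + 2 * (2 * |σ| + 1) < 2 * Q p) :
    ∀ p ∈ slab 3, u p = 0 := by
  refine Steklov.vanish rfl h.smooth h.per hQ h.pde (fun p hp => ?_) (fun p hp => ?_)
  · have := h.bc p (Or.inr hp)
    simpa [sg, hp] using this
  · have := h.bc p (Or.inl hp)
    simpa [sg, hp] using this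

/-- the two metrics are Steklov isospectral -/
theorem isospectral : Isospectral M1 M2 := by
  intro σ
  refine real_of_complex ?_
  set R : ℝ := (2 * |σ| + 1) ^ 2 + 2 * (2 * |σ| + 1) with hR
  obtain ⟨N, hN⟩ := exists_nat_gt R
  set S : Finset (ℤ × ℤ) := Finset.Icc (-(N:ℤ)) N ×ˢ Finset.Icc (-(N:ℤ)) N with hS
  have hbig : ∀ μ : ℤ × ℤ, μ ∉ S → R < (μ.1 : ℝ) ^ 2 + (μ.2 : ℝ) ^ 2 := by
    intro μ hμ
    have h0 : ∀ k : ℤ, k ∉ Finset.Icc (-(N:ℤ)) N → (N : ℝ) < (k : ℝ) ^ 2 := by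
      intro k hk
      have h1 : (N : ℤ) < k ^ 2 := by
        rw [Finset.mem_Icc, not_and_or] at hk
        rcases hk with hk | hk
        · nlinarith
        · nlinarith
      exact_mod_cast h1
    rw [hS, Finset.mem_product, not_and_or] at hμ
    rcases hμ with h | h
    · have := h0 _ h; nlinarith [sq_nonneg (μ.2 : ℝ)]
    · have := h0 _ h; nlinarith [sq_nonneg (μ.1 : ℝ)]
  have hQ2 : ∀ μ : ℤ × ℤ, μ ∉ S → ∀ p ∈ slab 3, R < 2 * Q2 μ p := by
    intro μ hμ p hp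
    have h1 := hbig μ hμ
    have h2 := EE_ge hp
    have h3 : 0 ≤ (μ.1 : ℝ) ^ 2 + (μ.2 : ℝ) ^ 2 := by positivity
    unfold Q2
    nlinarith
  have hQ1 : ∀ μ : ℤ × ℤ, μ ∉ S → ∀ p ∈ slab 3, R < 2 * Q1 μ p := by
    intro μ hμ p hp
    obtain ⟨v, hv, hQ⟩ := exists_shift μ
    rw [hQ]
    exact hQ2 μ hμ _ (mem_slab_add hv hp)
  obtain ⟨d1⟩ := decomp (m := M1) (σ := σ) M1_inv2 M1_inv3 S
    (fun μ hμ u hu hm => ((red1 hm).1 hu).vanish (hQ1 μ hμ))
  obtain ⟨d2⟩ := decomp (m := M2) (σ := σ) M2_inv2 M2_inv3 S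
    (fun μ hμ u hu hm => ((red2 hm).1 hu).vanish (hQ2 μ hμ))
  have e : (μ : S) → (cmode M1 σ μ ≃ₗ[ℂ] cmode M2 σ μ) := fun μ =>
    (Classical.choice (cmode_M σ μ)).symm
  exact ⟨d1.symm.trans ((LinearEquiv.piCongrRight e).trans d2)⟩

end Steklov
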