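import Pool.Agent.Lib_helper13.SteklovMode

open scoped ContDiff
open MeasureTheory

set_option linter.unusedSectionVars false

noncomputable section

namespace Steklov

def e2 : Pt 3 := Pi.single 2 1
def e3 : Pt 3 := Pi.single 3 1

/-- Fourier mode `(a,b)` in the last two coordinates -/
def IsMode (μ : ℤ × ℤ) (u : Pt 3 → ℂ) : Prop :=
  (∀ p (t : ℝ), u (p + t • e2) = ch μ.1 t * u p) ∧
    (∀ p (t : ℝ), u (p + t • e3) = ch μ.2 t * u p)

theorem IsMode.add {μ : ℤ × ℤ} {u v : Pt 3 → ℂ} (hu : IsMode μ u) (hv : IsMode μ v) :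
    IsMode μ (fun q => u q + v q) := by
  constructor
  · intro p t
    show u (p + t • e2) + v (p + t • e2) = _
    rw [hu.1, hv.1, mul_add]
  · intro p t
    show u (p + t • e3) + v (p + t • e3) = _
    rw [hu.2, hv.2, mul_add]

theorem IsMode.const_mul {μ : ℤ × ℤ} {u : Pt 3 → ℂ} (hu : IsMode μ u) (c : ℂ) :
    IsMode μ (fun q => c * u q) := by
  constructor
  · intro p t
    show c * u (p + t • e2) = ch μ.1 t * (c * u p)
    rw [hu.1]; ring
  · intro p t
    show c * u (p + t • e3) = ch μ.2 t * (c * u p)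
    rw [hu.2]; ring

theorem IsMode.translate {μ : ℤ × ℤ} {u : Pt 3 → ℂ} (hu : IsMode μ u) (v : Pt 3) :
    IsMode μ (fun q => u (q + v)) := by
  constructor
  · intro p t
    show u (p + t • e2 + v) = ch μ.1 t * u (p + v)
    rw [← hu.1]; congr 1; abel
  · intro p t
    show u (p + t • e3 + v) = ch μ.2 t * u (p + v)
    rw [← hu.2]; congr 1; abel

theorem per_e2 {u : Pt 3 → ℂ} (h : IsPeriodic u) (p : Pt 3) :
    u (p + (2 * Real.pi) • e2) = u p := by
  rw [← h p 1]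
  congr 2
  funext i
  simp only [e2, Pi.smul_apply, smul_eq_mul]
  fin_cases i <;> simp

theorem per_e3 {u : Pt 3 → ℂ} (h : IsPeriodic u) (p : Pt 3) :
    u (p + (2 * Real.pi) • e3) = u p := by
  rw [← h p 2]
  congr 2
  funext i
  simp only [e3, Pi.smul_apply, smul_eq_mul]
  fin_cases i <;> simp

theorem e2_zero : e2 0 = 0 := by simp [e2]
theorem e3_zero : e3 0 = 0 := by simp [e3]

/-- projection onto a mode -/
def P (μ : ℤ × ℤ) (u : Pt 3 → ℂ) : Pt 3 → ℂ := proj μ.2 e3 (proj μ.1 e2 u)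

theorem isMode_P (μ : ℤ × ℤ) {u : Pt 3 → ℂ} (h : IsPeriodic u) : IsMode μ (P μ u) := by
  constructor
  · intro p t
    unfold P
    rw [← proj_translate]
    have : (fun q => proj μ.1 e2 u (q + t • e2)) = fun q => ch μ.1 t * proj μ.1 e2 u q := by
      funext q; exact proj_shift μ.1 (per_e2 h) q t
    rw [this, proj_smul_inv μ.2 (c := fun _ => ch μ.1 t) (fun _ _ => rfl)]
  · intro p t
    unfold P
    refine proj_shift μ.2 (fun q => ?_) p t
    rw [← proj_translate]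
    congr 1
    funext x
    exact per_e3 h x

theorem P_of_mode {μ ν : ℤ × ℤ} {u : Pt 3 → ℂ} (h : IsMode ν u) (p : Pt 3) :
    P μ u p = if ν = μ then u p else 0 := by
  unfold P
  have h1 : proj μ.1 e2 u = fun q => if ν.1 = μ.1 then u q else 0 := by
    funext q; exact proj_of_mode h.1 q
  rw [h1]
  by_cases h2 : ν.1 = μ.1
  · simp only [h2, if_true]
    rw [proj_of_mode h.2 p]
    by_cases h3 : ν.2 = μ.2
    · rw [if_pos h3, if_pos (Prod.ext h2 h3)]
    · rw [if_neg h3, if_neg (fun h => h3 (by rw [h]))]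
  · simp only [h2, if_false]
    rw [if_neg (fun h => h2 (by rw [h])), proj_apply]
    simp

theorem IsSol.P {m : Metric 3} {σ : ℝ} {u : Pt 3 → ℂ} (h : IsSol m σ u)
    (h2 : m.Inv e2) (h3 : m.Inv e3) (μ : ℤ × ℤ) : IsSol m σ (P μ u) :=
  (h.proj h2 e2_zero μ.1).proj h3 e3_zero μ.2

/-- complex eigenspace -/
def ceig (m : Metric 3) (σ : ℝ) : Submodule ℂ (slab 3 → ℂ) where
  carrier := {w | ∃ u, IsSol m σ u ∧ ∀ p : slab 3, w p = u p}
  add_mem' := by
    rintro w w' ⟨u, hu, hw⟩ ⟨v, hv, hw'⟩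
    exact ⟨_, hu.add hv, fun p => by rw [Pi.add_apply, hw, hw']⟩
  zero_mem' := ⟨_, IsSol.zero m σ, fun p => rfl⟩
  smul_mem' := by
    rintro c w ⟨u, hu, hw⟩
    exact ⟨_, hu.const_mul c, fun p => by rw [Pi.smul_apply, hw, smul_eq_mul]⟩

/-- mode spaces -/
def cmode (m : Metric 3) (σ : ℝ) (μ : ℤ × ℤ) : Submodule ℂ (slab 3 → ℂ) where
  carrier := {w | ∃ u, (IsSol m σ u ∧ IsMode μ u) ∧ ∀ p : slab 3, w p = u p}
  add_mem' := by
    rintro w w' ⟨u, ⟨hu, hmu⟩, hw⟩ ⟨v, ⟨hv, hmv⟩, hw'⟩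
    exact ⟨_, ⟨hu.add hv, hmu.add hmv⟩, fun p => by rw [Pi.add_apply, hw, hw']⟩
  zero_mem' := ⟨_, ⟨IsSol.zero m σ, by constructor <;> intro p t <;> simp⟩, fun p => rfl⟩
  smul_mem' := by
    rintro c w ⟨u, ⟨hu, hmu⟩, hw⟩
    exact ⟨_, ⟨hu.const_mul c, hmu.const_mul c⟩,
      fun p => by rw [Pi.smul_apply, hw, smul_eq_mul]⟩

theorem P_sum {ι : Type*} (s : Finset ι) (μ : ℤ × ℤ) {u : ι → Pt 3 → ℂ}
    (hu : ∀ i ∈ s, Continuous (u i)) (p : Pt 3) :
    P μ (fun q => ∑ i ∈ s, u i q) p = ∑ i ∈ s, P μ (u i) p := by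
  unfold P
  have h1 : proj μ.1 e2 (fun q => ∑ i ∈ s, u i q) = fun q => ∑ i ∈ s, proj μ.1 e2 (u i) q := by
    funext q; exact proj_sum _ _ s hu q
  rw [h1, proj_sum _ _ s (fun i hi => continuous_proj _ _ (hu i hi))]

theorem P_congr (μ : ℤ × ℤ) {u v : Pt 3 → ℂ} (h : ∀ p ∈ slab 3, u p = v p) :
    ∀ p ∈ slab 3, P μ u p = P μ v p := by
  intro p hp
  unfold P
  rw [proj_apply, proj_apply]
  congr 2
  funext t
  congr 1
  have hp' := mem_slab_add (v := t • e3) (by simp [e3_zero]) hp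
  rw [proj_apply, proj_apply]
  congr 2
  funext s
  rw [h _ (mem_slab_add (v := s • e2) (by simp [e2_zero]) hp')]

/-- decomposition into modes -/
theorem decomp {m : Metric 3} {σ : ℝ} (h2 : m.Inv e2) (h3 : m.Inv e3) (S : Finset (ℤ × ℤ))
    (hS : ∀ μ, μ ∉ S → ∀ u, IsSol m σ u → IsMode μ u → ∀ p ∈ slab 3, u p = 0) :
    Nonempty (((μ : S) → cmode m σ μ) ≃ₗ[ℂ] ceig m σ) := by
  classical
  let L0 : ((μ : S) → cmode m σ μ) →ₗ[ℂ] (slab 3 → ℂ) :=
    ∑ μ : S, (cmode m σ μ).subtype ∘ₗ LinearMap.proj μ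
  have hL0 : ∀ f p, L0 f p = ∑ μ : S, (f μ : slab 3 → ℂ) p := by
    intro f p
    simp [L0, Finset.sum_apply]
  have hL0mem : ∀ f, L0 f ∈ ceig m σ := by
    intro f
    choose u hu hw using fun μ : S => (f μ).2
    refine ⟨fun q => ∑ μ : S, u μ q, IsSol.sum _ fun μ _ => (hu μ).1, fun p => ?_⟩
    rw [hL0]
    exact Finset.sum_congr rfl fun μ _ => hw μ p
  let L : ((μ : S) → cmode m σ μ) →ₗ[ℂ] ceig m σ := L0.codRestrict _ hL0mem
  refine ⟨LinearEquiv.ofBijective L ⟨?_, ?_⟩⟩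
  · rw [← LinearMap.ker_eq_bot, LinearMap.ker_eq_bot']
    intro f hf
    have hf0 : L0 f = 0 := congrArg Subtype.val hf
    choose u hu hw using fun μ : S => (f μ).2
    have hsum : ∀ p ∈ slab 3, (fun q => ∑ μ : S, u μ q) p = (fun _ => 0) p := by
      intro p hp
      have := congrFun hf0 ⟨p, hp⟩
      rw [hL0] at this
      simp only [Pi.zero_apply] at this
      rw [← this]
      exact Finset.sum_congr rfl fun μ _ => (hw μ ⟨p, hp⟩).symm
    funext ν
    apply Subtype.ext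
    funext p
    have h1 := P_congr (ν : ℤ × ℤ) hsum p p.2
    rw [P_sum _ _ (fun μ _ => (hu μ).1.smooth.continuous)] at h1
    have h2 : ∑ μ : S, P (ν : ℤ × ℤ) (u μ) p = u ν p := by
      rw [Finset.sum_eq_single ν]
      · rw [P_of_mode (hu ν).2, if_pos rfl]
      · intro μ _ hne
        rw [P_of_mode (hu μ).2, if_neg (fun h => hne (Subtype.ext h))]
      · intro h; exact absurd (Finset.mem_univ _) h
    rw [h2] at h1
    have h3 : P (ν : ℤ × ℤ) (fun _ => 0) p = 0 := by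
      unfold P; rw [proj_apply]; simp [proj_apply]
    rw [h3] at h1
    rw [hw ν p, h1]; rfl
  · rintro ⟨w, u, hu, hw⟩
    let f : (μ : S) → cmode m σ μ := fun μ =>
      ⟨fun p => P μ u p, ⟨P μ u, ⟨hu.P h2 h3 μ, isMode_P _ hu.per⟩, fun p => rfl⟩⟩
    refine ⟨f, Subtype.ext (funext fun p => ?_)⟩
    show L0 f p = w p
    rw [hL0, hw p]
    show ∑ μ : S, P μ u p = u p
    -- the remainder
    set r : Pt 3 → ℂ := fun q => u q + ∑ μ ∈ S, (-1 : ℂ) * P μ u q with hr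
    have hrs : IsSol m σ r := hu.add (IsSol.sum _ fun μ _ => (hu.P h2 h3 μ).const_mul _)
    suffices hz : r p = 0 by
      have h5 : ∑ μ : S, P μ u p = ∑ μ ∈ S, P μ u p := Finset.sum_coe_sort S (fun μ => P μ u p)
      rw [h5]
      simp only [hr, neg_mul, one_mul, Finset.sum_neg_distrib] at hz
      exact (add_neg_eq_zero.1 hz).symm
    have hPr : ∀ ν : ℤ × ℤ, ∀ q ∈ slab 3, P ν r q = 0 := by
      intro ν q hq
      have e1 : r = fun q => ∑ i ∈ (Finset.univ : Finset (Fin 2)),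
          (![u, fun q => ∑ μ ∈ S, (-1 : ℂ) * P μ u q] i) q := by
        funext q; rw [Fin.sum_univ_two]; rfl
      have hcont : Continuous fun q => ∑ μ ∈ S, (-1 : ℂ) * P μ u q :=
        (IsSol.sum S fun μ _ => (hu.P h2 h3 μ).const_mul (-1)).smooth.continuous
      rw [e1, P_sum _ _ (fun i _ => by
        fin_cases i
        · exact hu.smooth.continuous
        · exact hcont), Fin.sum_univ_two]
      show P ν u q + P ν (fun q => ∑ μ ∈ S, (-1 : ℂ) * P μ u q) q = 0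
      rw [P_sum _ _ (fun μ _ => ((hu.P h2 h3 μ).const_mul (-1)).smooth.continuous)]
      have e2 : ∀ μ ∈ S, P ν (fun q => (-1 : ℂ) * P μ u q) q = if μ = ν then - P μ u q else 0 := by
        intro μ _
        have hm : IsMode μ (fun q => (-1 : ℂ) * P μ u q) := (isMode_P μ hu.per).const_mul _
        rw [P_of_mode hm]
        split_ifs <;> simp
      rw [Finset.sum_congr rfl e2, Finset.sum_ite_eq' S ν]
      split_ifs with hν
      · ring
      · rw [hS ν hν _ (hu.P h2 h3 ν) (isMode_P _ hu.per) q hq]; ring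
    refine eq_zero_of_proj (e := e2) hrs.smooth.continuous (per_e2 hrs.per) fun a => ?_
    have hra : IsSol m σ (proj a e2 r) := hrs.proj h2 e2_zero a
    exact eq_zero_of_proj (e := e3) hra.smooth.continuous (per_e3 hra.per)
      fun b => hPr (a, b) p p.2

end Steklov

namespace Steklov

/-- translation on the slab -/
def slabShift (v : Pt 3) (hv : v 0 = 0) : slab 3 ≃ slab 3 where
  toFun p := ⟨p + v, mem_slab_add hv p.2⟩
  invFun p := ⟨p + (-v), mem_slab_add (by simp [hv]) p.2⟩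
  left_inv p := by apply Subtype.ext; simp
  right_inv p := by apply Subtype.ext; simp

/-- mode spaces related by a translation are isomorphic -/
theorem cmode_equiv {m₁ m₂ : Metric 3} {σ : ℝ} {μ : ℤ × ℤ} (v : Pt 3) (hv : v 0 = 0)
    (h12 : ∀ u, IsSol m₁ σ u → IsMode μ u → IsSol m₂ σ (fun q => u (q + v)))
    (h21 : ∀ u, IsSol m₂ σ u → IsMode μ u → IsSol m₁ σ (fun q => u (q + (-v)))) :
    Nonempty (cmode m₁ σ μ ≃ₗ[ℂ] cmode m₂ σ μ) := by
  let T : (slab 3 → ℂ) ≃ₗ[ℂ] (slab 3 → ℂ) := LinearEquiv.funCongrLeft ℂ ℂ (slabShift v hv)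
  have hT : ∀ w p, T w p = w (slabShift v hv p) := fun w p => rfl
  have himg : (cmode m₁ σ μ).map (T : (slab 3 → ℂ) →ₗ[ℂ] (slab 3 → ℂ)) = cmode m₂ σ μ := by
    apply le_antisymm
    · rintro _ ⟨w, ⟨u, ⟨hu, hmu⟩, hw⟩, rfl⟩
      exact ⟨_, ⟨h12 u hu hmu, hmu.translate v⟩, fun p => hw _⟩
    · rintro w ⟨u, ⟨hu, hmu⟩, hw⟩
      refine ⟨fun p => w ((slabShift v hv).symm p), ⟨_, ⟨h21 u hu hmu, hmu.translate (-v)⟩,
        fun p => hw _⟩, ?_⟩
      funext p
      show w ((slabShift v hv).symm (slabShift v hv p)) = w p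
      rw [Equiv.symm_apply_apply]
  exact ⟨(T.submoduleMap (cmode m₁ σ μ)).trans (LinearEquiv.ofEq _ _ himg)⟩

section real

variable (m : Metric 3) (σ : ℝ)

theorem ceig_of_real {w1 w2 : slab 3 → ℝ} (h1 : w1 ∈ m.eigenspace σ) (h2 : w2 ∈ m.eigenspace σ) :
    (fun p => (w1 p : ℂ) + Complex.I * (w2 p : ℂ)) ∈ ceig m σ := by
  have key : ∀ {w : slab 3 → ℝ}, w ∈ m.eigenspace σ → ∃ u, IsSol m σ u ∧
      ∀ p : slab 3, (w p : ℂ) = u p := by
    rintro w ⟨u, hu, hper, hlap, hbc, hw⟩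
    refine ⟨fun q => Complex.ofRealCLM (u q), ⟨Complex.ofRealCLM.contDiff.comp hu, ?_, ?_, ?_⟩, ?_⟩
    · intro p j; simp only [hper p j]
    · intro p hp; rw [m.laplacian_clm _ hu, hlap p hp, map_zero]
    · intro p hp; rw [m.normalDeriv_clm _ hu, hbc p hp]; simp
    · intro p; rw [hw p]; rfl
  obtain ⟨u1, hu1, hw1⟩ := key h1
  obtain ⟨u2, hu2, hw2⟩ := key h2
  refine ⟨_, hu1.add (hu2.const_mul Complex.I), fun p => ?_⟩
  show (w1 p : ℂ) + Complex.I * (w2 p : ℂ) = _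
  rw [hw1, hw2]

theorem re_mem {w : slab 3 → ℂ} (h : w ∈ ceig m σ) : (fun p => (w p).re) ∈ m.eigenspace σ := by
  obtain ⟨u, hu, hw⟩ := h
  refine ⟨fun q => Complex.reCLM (u q), Complex.reCLM.contDiff.comp hu.smooth, ?_, ?_, ?_, ?_⟩
  · intro p j; simp only [hu.per p j]
  · intro p hp; rw [m.laplacian_clm _ hu.smooth, hu.lap p hp, map_zero]
  · intro p hp; rw [m.normalDeriv_clm _ hu.smooth, hu.bc p hp]; simp
  · intro p; simp only [hw p]; rfl

theorem im_mem {w : slab 3 → ℂ} (h : w ∈ ceig m σ) : (fun p => (w p).im) ∈ m.eigenspace σ := by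
  obtain ⟨u, hu, hw⟩ := h
  refine ⟨fun q => Complex.imCLM (u q), Complex.imCLM.contDiff.comp hu.smooth, ?_, ?_, ?_, ?_⟩
  · intro p j; simp only [hu.per p j]
  · intro p hp; rw [m.laplacian_clm _ hu.smooth, hu.lap p hp, map_zero]
  · intro p hp; rw [m.normalDeriv_clm _ hu.smooth, hu.bc p hp]; simp
  · intro p; simp only [hw p]; rfl

/-- the complex eigenspace is the complexification of the real one -/
def realEquiv : (m.eigenspace σ × m.eigenspace σ) ≃ₗ[ℝ] ceig m σ where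
  toFun x := ⟨_, ceig_of_real m σ x.1.2 x.2.2⟩
  map_add' x y := by
    apply Subtype.ext; funext p
    show (((x.1 : slab 3 → ℝ) p + (y.1 : slab 3 → ℝ) p : ℝ) : ℂ)
      + Complex.I * (((x.2 : slab 3 → ℝ) p + (y.2 : slab 3 → ℝ) p : ℝ) : ℂ)
      = (((x.1 : slab 3 → ℝ) p : ℂ) + Complex.I * ((x.2 : slab 3 → ℝ) p : ℂ))
        + (((y.1 : slab 3 → ℝ) p : ℂ) + Complex.I * ((y.2 : slab 3 → ℝ) p : ℂ))
    push_cast; ring
  map_smul' c x := by
    apply Subtype.ext; funext p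
    show ((c * (x.1 : slab 3 → ℝ) p : ℝ) : ℂ)
      + Complex.I * ((c * (x.2 : slab 3 → ℝ) p : ℝ) : ℂ)
      = c • (((x.1 : slab 3 → ℝ) p : ℂ) + Complex.I * ((x.2 : slab 3 → ℝ) p : ℂ))
    rw [Complex.real_smul]; push_cast; ring
  invFun w := (⟨_, re_mem m σ w.2⟩, ⟨_, im_mem m σ w.2⟩)
  left_inv x := by
    apply Prod.ext
    · apply Subtype.ext; funext p
      show (((x.1 : slab 3 → ℝ) p : ℂ) + Complex.I * ((x.2 : slab 3 → ℝ) p : ℂ)).re = _
      simp
    · apply Subtype.ext; funext p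
      show (((x.1 : slab 3 → ℝ) p : ℂ) + Complex.I * ((x.2 : slab 3 → ℝ) p : ℂ)).im = _
      simp
  right_inv w := by
    apply Subtype.ext; funext p
    show ((((w : slab 3 → ℂ) p).re : ℂ) + Complex.I * (((w : slab 3 → ℂ) p).im : ℂ)) = _
    rw [mul_comm]; exact Complex.re_add_im _

theorem cardinal_add_self_inj {a b : Cardinal} (h : a + a = b + b) : a = b := by
  rcases le_or_gt Cardinal.aleph0 a with ha | ha
  · rw [Cardinal.add_eq_self ha] at h
    rcases le_or_gt Cardinal.aleph0 b with hb | hb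
    · rw [Cardinal.add_eq_self hb] at h; exact h
    · exact absurd (h ▸ Cardinal.add_lt_aleph0 hb hb) (not_lt.2 ha)
  · rcases le_or_gt Cardinal.aleph0 b with hb | hb
    · rw [Cardinal.add_eq_self hb] at h
      exact absurd (h ▸ Cardinal.add_lt_aleph0 ha ha) (not_lt.2 hb)
    · obtain ⟨n, rfl⟩ := Cardinal.lt_aleph0.1 ha
      obtain ⟨k, rfl⟩ := Cardinal.lt_aleph0.1 hb
      have : n + n = k + k := by exact_mod_cast h
      have : n = k := by omega
      rw [this]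

theorem real_of_complex {m₁ m₂ : Metric 3} {σ : ℝ} (h : Nonempty (ceig m₁ σ ≃ₗ[ℂ] ceig m₂ σ)) :
    Nonempty (m₁.eigenspace σ ≃ₗ[ℝ] m₂.eigenspace σ) := by
  obtain ⟨e⟩ := h
  have e' : (m₁.eigenspace σ × m₁.eigenspace σ) ≃ₗ[ℝ] (m₂.eigenspace σ × m₂.eigenspace σ) :=
    (realEquiv m₁ σ).trans ((e.restrictScalars ℝ).trans (realEquiv m₂ σ).symm)
  have h1 := e'.rank_eq
  rw [rank_prod', rank_prod'] at h1
  exact nonempty_linearEquiv_of_rank_eq (cardinal_add_self_inj h1)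

end real

end Steklov
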